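import Pool.Agent.H75.UT.D1b
import Pool.Agent.H75.UL.R4b

/-!
# Project UT, module D5

Relative simple reflections.

`wl i` is a word for the longest element `w_J` of the group generated by the simple reflections of the
orbit `J` of `i`: `[i, ρ i, i]` if `i`, `ρ i` are adjacent, otherwise the orbit of `i`.
`supp i β`: `β` is supported on the orbit of `i`.
`wJ_pos`: each reflection in a simple root `α_j` keeps a positive root other than `α_j` positive and
changes only the coordinate `j` (`refl_simple_pos`), so a positive root not supported on `J` stays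
positive and not supported on `J`. `wJ_neg`: a root supported on `J`: if `J` is orthogonal or `{i}`
(non-adjacent case; `ip_r`, `ip_orb`) then a positive root supported on `J` is some `α_j`, `j ∈ J`
(norm: `2 = ip β β = 2 ∑ β_j^2`) and `w_J α_j = -α_j`; in the adjacent case (then `m = 2`,
`J = {i, ρ i}`) the positive roots supported on `J` are `α_i`, `α_{ρ i}`, `γ = α_i + α_{ρ i}`
(`2 = 2 (a^2 + b^2 - a b)`), `wd [i, ρ i, i] = reflE γ` maps `α_i ↦ -α_{ρ i}`, `α_{ρ i} ↦ -α_i`,
`γ ↦ -γ`. `wJ_comm`: in the non-adjacent case the reflections commute and `ρ` permutes them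
(`W_conj`); in the adjacent case `wd (wl i) = reflE γ`, `r γ = γ` (`r_refl`).
`Wr_induct`: induction on the number of positive roots made negative by `w`. If `w ≠ 1` there is `i`
with `¬ Pos (w (simple i))` (`eq_one_of_pos`); as `w` commutes with `rE`, `w` makes all `α_j`, `j ∈ J`,
negative, and so all positive roots supported on `J` (`W_add`, or: `w` is linear, `W_lin`); so `w * w_J`
makes fewer positive roots negative: `w_J` maps `{β > 0 : w w_J β < 0}` injectively into
`{β > 0 : w β < 0}` minus the roots supported on `J`. `w = (w * w_J) * w_J` as `w_J ^ 2 = 1`.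
-/

set_option autoImplicit false
open Matrix
universe u
namespace Pool.Agent.H75.UL

namespace Dg
variable {n : ℕ} {C : SLC n} (D : Dg C)

open Classical in
/-- A word for the relative simple reflection of the orbit of `i`. -/
noncomputable def wl (i : Fin n) : List (Fin n) :=
  if C.A i (D.ρ i) = -1 then [i, D.ρ i, i] else
    if D.ρ i = i then [i] else (List.range D.m).map fun l => (D.ρ ^ l) i

/-- `β` is supported on the orbit of `i`. -/
def supp (i : Fin n) (β : C.Root) : Prop := ∀ j, β.1 j ≠ 0 → D.ρ.SameCycle i j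

private theorem D5_wd_cons (j : Fin n) (l : List (Fin n)) :
    C.wd (j :: l) = C.reflE (C.simple j) * C.wd l := by
  simp [SLC.wd]

private theorem D5_cyc (i j : Fin n) (h : D.ρ.SameCycle i j) :
    ∃ l, l < D.m ∧ (D.ρ ^ l) i = j := by
  obtain ⟨z, hz⟩ := h
  have hm : 0 < D.m := by
    rcases D.m_cases with h | h | h <;> omega
  have h1 : 0 ≤ z % (D.m : ℤ) := Int.emod_nonneg _ (by omega)
  have h2 : z % (D.m : ℤ) < D.m := Int.emod_lt_of_pos _ (by omega)
  refine ⟨(z % (D.m : ℤ)).toNat, by omega, ?_⟩
  have h3 : D.ρ ^ (z % (D.m : ℤ)) = D.ρ ^ z := zpow_mod_orderOf _ _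
  rw [← hz, ← h3]
  conv_rhs => rw [← Int.toNat_of_nonneg h1]
  rw [zpow_natCast]

private theorem D5_same (i : Fin n) (l : ℕ) : D.ρ.SameCycle i ((D.ρ ^ l) i) :=
  ⟨l, by rw [zpow_natCast]⟩

private theorem D5_A_pow (l : ℕ) (i k : Fin n) :
    C.A ((D.ρ ^ l) i) ((D.ρ ^ l) k) = C.A i k := by
  induction l with
  | zero => rfl
  | succ l ih =>
    rw [pow_succ', Equiv.Perm.mul_apply, Equiv.Perm.mul_apply, D.hρ, ih]

private theorem D5_simple_ne (i : Fin n) (h : D.ρ i ≠ i) :
    D.r (C.simple i) ≠ C.simple i := by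
  rw [D.r_simple]
  exact fun h1 => h (C.simple_injective h1)

private theorem D5_orth (i j k : Fin n) (h : C.A i (D.ρ i) ≠ -1) (hj : D.ρ.SameCycle i j)
    (hk : D.ρ.SameCycle i k) (hne : j ≠ k) : C.A j k = 0 := by
  obtain ⟨a, ha, rfl⟩ := D.D5_cyc i j hj
  obtain ⟨b, hb, rfl⟩ := D.D5_cyc i k hk
  by_cases hi : D.ρ i = i
  · exfalso
    apply hne
    rw [Equiv.Perm.pow_apply_eq_self_of_apply_eq_self hi,
      Equiv.Perm.pow_apply_eq_self_of_apply_eq_self hi]
  · have h0 : ∀ l, 0 < l → l < D.m → C.A i ((D.ρ ^ l) i) = 0 := by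
      intro l hl hl'
      have h1 := D.ip_orb (C.simple i) (D.D5_simple_ne i hi) l hl hl'
      rw [D.r_iter_simple, D.r_simple] at h1
      simp only [SLC.simple_val, SLC.ip_single] at h1
      rw [h1]
      rcases D.ip_r (C.simple i) (D.D5_simple_ne i hi) with h2 | ⟨-, h2⟩
      · rw [D.r_simple] at h2
        simpa only [SLC.simple_val, SLC.ip_single] using h2
      · rw [D.r_simple] at h2
        simp only [SLC.simple_val, SLC.ip_single] at h2
        exact absurd h2 h
    rcases lt_trichotomy a b with hab | hab | hab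
    · have h1 : (D.ρ ^ b) i = (D.ρ ^ a) ((D.ρ ^ (b - a)) i) := by
        rw [← Equiv.Perm.mul_apply, ← pow_add]
        congr 2
        omega
      rw [h1, D.D5_A_pow]
      exact h0 _ (by omega) (by omega)
    · exact absurd (by rw [hab]) hne
    · have h1 : (D.ρ ^ a) i = (D.ρ ^ b) ((D.ρ ^ (a - b)) i) := by
        rw [← Equiv.Perm.mul_apply, ← pow_add]
        congr 2
        omega
      rw [h1, D.D5_A_pow, C.symm]
      exact h0 _ (by omega) (by omega)

private theorem D5_mem (i j : Fin n) (h : C.A i (D.ρ i) ≠ -1) :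
    j ∈ D.wl i ↔ D.ρ.SameCycle i j := by
  unfold wl
  rw [if_neg h]
  split_ifs with hi
  · rw [List.mem_singleton]
    constructor
    · rintro rfl
      exact Equiv.Perm.SameCycle.refl _ _
    · intro hj
      obtain ⟨a, ha, rfl⟩ := D.D5_cyc i j hj
      exact Equiv.Perm.pow_apply_eq_self_of_apply_eq_self hi a
  · rw [List.mem_map]
    constructor
    · rintro ⟨l, -, rfl⟩
      exact D.D5_same i l
    · intro hj
      obtain ⟨a, ha, rfl⟩ := D.D5_cyc i j hj
      exact ⟨a, List.mem_range.2 ha, rfl⟩

private theorem D5_mem' (i j : Fin n) (hj : j ∈ D.wl i) : D.ρ.SameCycle i j := by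
  by_cases h : C.A i (D.ρ i) = -1
  · unfold wl at hj
    rw [if_pos h] at hj
    simp only [List.mem_cons, List.not_mem_nil, or_false] at hj
    rcases hj with rfl | rfl | rfl
    · exact Equiv.Perm.SameCycle.refl _ _
    · exact D.D5_same i 1
    · exact Equiv.Perm.SameCycle.refl _ _
  · exact (D.D5_mem i j h).1 hj

private theorem D5_nodup (i : Fin n) (h : C.A i (D.ρ i) ≠ -1) : (D.wl i).Nodup := by
  unfold wl
  rw [if_neg h]
  split_ifs with hi
  · exact List.nodup_singleton _
  · refine List.Nodup.map_on ?_ List.nodup_range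
    intro a ha b hb hab
    rw [List.mem_range] at ha hb
    refine D.r_iter_eq (C.simple i) (D.D5_simple_ne i hi) a b ha hb ?_
    rw [D.r_iter_simple, D.r_iter_simple, hab]

private theorem D5_wd_out (l : List (Fin n)) (β : C.Root) (k : Fin n) (hk : k ∉ l) :
    (C.wd l β).1 k = β.1 k := by
  induction l with
  | nil => rfl
  | cons j l ih =>
    rw [List.mem_cons, not_or] at hk
    rw [D5_wd_cons, Equiv.Perm.mul_apply, SLC.reflE_apply, SLC.refl_val]
    simp only [Pi.sub_apply, Pi.smul_apply, SLC.simple_val, Pi.single_eq_of_ne hk.1, smul_zero,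
      sub_zero]
    exact ih hk.2

private theorem D5_ip_orth (l : List (Fin n)) (β : C.Root) (j : Fin n)
    (h : ∀ k ∈ l, C.A j k = 0) :
    C.ip (C.simple j).1 (C.wd l β).1 = C.ip (C.simple j).1 β.1 := by
  induction l with
  | nil => rfl
  | cons k l ih =>
    rw [D5_wd_cons, Equiv.Perm.mul_apply, SLC.reflE_apply, SLC.refl_val, SLC.ip_sub_right,
      SLC.ip_smul_right]
    have h1 : C.ip (C.simple j).1 (C.simple k).1 = 0 := by
      simp only [SLC.simple_val, SLC.ip_single]
      exact h k List.mem_cons_self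
    rw [h1, mul_zero, sub_zero]
    exact ih fun k' hk' => h k' (List.mem_cons_of_mem _ hk')

private theorem D5_wd_in (l : List (Fin n)) (hnd : l.Nodup)
    (ho : ∀ j ∈ l, ∀ k ∈ l, j ≠ k → C.A j k = 0) (β : C.Root) (k : Fin n) (hk : k ∈ l) :
    (C.wd l β).1 k = β.1 k - C.ip (C.simple k).1 β.1 := by
  induction l with
  | nil => exact absurd hk List.not_mem_nil
  | cons j l ih =>
    rw [List.nodup_cons] at hnd
    rw [D5_wd_cons, Equiv.Perm.mul_apply, SLC.reflE_apply, SLC.refl_val]
    simp only [Pi.sub_apply, Pi.smul_apply, SLC.simple_val]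
    by_cases hkj : k = j
    · subst hkj
      have h1 := D5_ip_orth l β k fun k' hk' => ho k List.mem_cons_self k'
        (List.mem_cons_of_mem _ hk') (fun he => hnd.1 (he ▸ hk'))
      simp only [SLC.simple_val] at h1
      rw [h1, D5_wd_out l β k hnd.1, Pi.single_eq_same, smul_eq_mul, mul_one]
    · have hk' : k ∈ l := by
        rcases List.mem_cons.1 hk with h | h
        · exact absurd h hkj
        · exact h
      rw [Pi.single_eq_of_ne hkj, smul_zero, sub_zero]
      exact ih hnd.2 (fun a ha b hb => ho a (List.mem_cons_of_mem _ ha) b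
        (List.mem_cons_of_mem _ hb)) hk'

private theorem D5_in (i : Fin n) (h : C.A i (D.ρ i) ≠ -1) (β : C.Root) (k : Fin n)
    (hk : D.ρ.SameCycle i k) :
    (C.wd (D.wl i) β).1 k = β.1 k - C.ip (C.simple k).1 β.1 :=
  D5_wd_in _ (D.D5_nodup i h) (fun a ha b hb hab =>
    D.D5_orth i a b h ((D.D5_mem i a h).1 ha) ((D.D5_mem i b h).1 hb) hab) β k
    ((D.D5_mem i k h).2 hk)

private theorem D5_out (i : Fin n) (β : C.Root) (k : Fin n)
    (hk : ¬ D.ρ.SameCycle i k) : (C.wd (D.wl i) β).1 k = β.1 k :=
  D5_wd_out _ β k fun h => hk (D.D5_mem' i k h)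

private theorem D5_adj_ne (i : Fin n) (h : C.A i (D.ρ i) = -1) : D.ρ i ≠ i := by
  intro h1
  rw [h1, C.diag] at h
  omega

private theorem D5_adj_sq (i : Fin n) (h : C.A i (D.ρ i) = -1) : D.ρ (D.ρ i) = i := by
  have hm : D.m = 2 := by
    rcases D.ip_r (C.simple i) (D.D5_simple_ne i (D.D5_adj_ne i h)) with h2 | ⟨h2, -⟩
    · rw [D.r_simple] at h2
      simp only [SLC.simple_val, SLC.ip_single] at h2
      omega
    · exact h2
  have h1 : D.ρ ^ 2 = 1 := by
    rw [← hm]
    exact pow_orderOf_eq_one _
  have h2 := congrArg (fun σ : Equiv.Perm (Fin n) => σ i) h1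
  simpa [sq] using h2

private theorem D5_adj_cyc (i j : Fin n) (h : C.A i (D.ρ i) = -1) (hj : D.ρ.SameCycle i j) :
    j = i ∨ j = D.ρ i := by
  obtain ⟨a, -, rfl⟩ := D.D5_cyc i j hj
  induction a with
  | zero => exact Or.inl rfl
  | succ a ih =>
    rw [pow_succ', Equiv.Perm.mul_apply]
    rcases ih (D.D5_same i a) with h1 | h1
    · rw [h1]
      exact Or.inr rfl
    · rw [h1, D.D5_adj_sq i h]
      exact Or.inl rfl

theorem wJ_adj (i : Fin n) (h : C.A i (D.ρ i) = -1) (γ : C.Root)
    (hγ : γ.1 = (C.simple i).1 + (C.simple (D.ρ i)).1) : C.wd (D.wl i) = C.reflE γ := by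
  have h1 : C.reflE (C.simple i) (C.simple (D.ρ i)) = γ := by
    apply SLC.Root.ext
    rw [SLC.reflE_apply, SLC.refl_val, hγ]
    have h2 : C.ip (C.simple i).1 (C.simple (D.ρ i)).1 = -1 := by
      simp only [SLC.simple_val, SLC.ip_single]
      exact h
    rw [h2]
    module
  rw [← h1, C.reflE_conj _ (C.simple_mem_W i)]
  have h3 : (C.reflE (C.simple i))⁻¹ = C.reflE (C.simple i) :=
    inv_eq_of_mul_eq_one_left (C.reflE_mul_self _)
  rw [h3]
  unfold wl
  rw [if_pos h, D5_wd_cons, D5_wd_cons, D5_wd_cons, mul_assoc]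
  have h4 : C.wd ([] : List (Fin n)) = 1 := rfl
  rw [h4, mul_one]

private theorem D5_exists (i : Fin n) (h : C.A i (D.ρ i) = -1) :
    ∃ γ : C.Root, γ.1 = (C.simple i).1 + (C.simple (D.ρ i)).1 ∧ D.r γ = γ := by
  have h2 : C.ip (C.simple i).1 (C.simple (D.ρ i)).1 = -1 := by
    simp only [SLC.simple_val, SLC.ip_single]
    exact h
  have hγ : (C.refl (C.simple i) (C.simple (D.ρ i))).1 =
      (C.simple i).1 + (C.simple (D.ρ i)).1 := by
    rw [SLC.refl_val, h2]
    module
  refine ⟨C.refl (C.simple i) (C.simple (D.ρ i)), hγ, ?_⟩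
  apply SLC.Root.ext
  rw [D.r_add _ _ _ hγ, hγ, D.r_simple, D.r_simple, D.D5_adj_sq i h, add_comm]

theorem wJ_sq (i : Fin n) : C.wd (D.wl i) * C.wd (D.wl i) = 1 := by
  by_cases h : C.A i (D.ρ i) = -1
  · obtain ⟨γ, hγ, -⟩ := D.D5_exists i h
    rw [D.wJ_adj i h γ hγ, C.reflE_mul_self]
  · ext β : 1
    rw [Equiv.Perm.mul_apply, Equiv.Perm.one_apply]
    apply SLC.Root.ext
    funext k
    by_cases hk : D.ρ.SameCycle i k
    · rw [D.D5_in i h _ k hk, D.D5_in i h _ k hk]
      have h1 : C.ip (C.simple k).1 (C.wd (D.wl i) β).1 = - C.ip (C.simple k).1 β.1 := by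
        have hv : (C.wd (D.wl i) β).1 = β.1 -
            ∑ j ∈ Finset.univ.filter (fun j => D.ρ.SameCycle i j),
              C.ip (C.simple j).1 β.1 • (C.simple j).1 := by
          funext k'
          rw [Pi.sub_apply, Finset.sum_apply]
          simp only [Pi.smul_apply, SLC.simple_val, smul_eq_mul]
          by_cases hk' : D.ρ.SameCycle i k'
          · rw [D.D5_in i h _ k' hk', Finset.sum_eq_single k']
            · rw [Pi.single_eq_same, mul_one]
              rfl
            · intro j _ hj
              rw [Pi.single_eq_of_ne hj.symm, mul_zero]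
            · intro hj
              exact absurd (Finset.mem_filter.2 ⟨Finset.mem_univ _, hk'⟩) hj
          · rw [D.D5_out i _ k' hk', Finset.sum_eq_zero, sub_zero]
            intro j hj
            rw [Finset.mem_filter] at hj
            rw [Pi.single_eq_of_ne, mul_zero]
            rintro rfl
            exact hk' hj.2
        have hlin : ∀ (s : Finset (Fin n)) (f : Fin n → (Fin n → ℤ)) (v : Fin n → ℤ),
            C.ip v (∑ j ∈ s, f j) = ∑ j ∈ s, C.ip v (f j) := by
          intro s f v
          classical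
          induction s using Finset.induction_on with
          | empty => rw [Finset.sum_empty, Finset.sum_empty, SLC.ip_zero_right]
          | insert a s ha ih => rw [Finset.sum_insert ha, Finset.sum_insert ha,
              SLC.ip_add_right, ih]
        rw [hv, SLC.ip_sub_right, hlin, Finset.sum_eq_single k]
        · rw [SLC.ip_smul_right, (C.simple k).2]
          ring
        · intro j hj hjk
          rw [Finset.mem_filter] at hj
          rw [SLC.ip_smul_right]
          have h2 : C.ip (C.simple k).1 (C.simple j).1 = 0 := by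
            simp only [SLC.simple_val, SLC.ip_single]
            exact D.D5_orth i k j h hk hj.2 hjk.symm
          rw [h2, mul_zero]
        · intro hj
          exact absurd (Finset.mem_filter.2 ⟨Finset.mem_univ _, hk⟩) hj
      rw [h1]
      ring
    · rw [D.D5_out i _ k hk, D.D5_out i _ k hk]

private theorem D5_comm (i : Fin n) (β : C.Root) :
    D.r (C.wd (D.wl i) β) = C.wd (D.wl i) (D.r β) := by
  by_cases h : C.A i (D.ρ i) = -1
  · obtain ⟨γ, hγ, hγ'⟩ := D.D5_exists i h
    rw [D.wJ_adj i h γ hγ, SLC.reflE_apply, SLC.reflE_apply, D.r_refl, hγ']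
  · apply SLC.Root.ext
    funext k
    obtain ⟨k, rfl⟩ := D.ρ.surjective k
    rw [D.r_val]
    by_cases hk : D.ρ.SameCycle i k
    · have hk' : D.ρ.SameCycle i (D.ρ k) := Equiv.Perm.sameCycle_apply_right.2 hk
      rw [D.D5_in i h _ k hk, D.D5_in i h _ _ hk', D.r_val, ← D.r_simple, D.r_ip]
    · have hk' : ¬ D.ρ.SameCycle i (D.ρ k) := fun h1 =>
        hk (Equiv.Perm.sameCycle_apply_right.1 h1)
      rw [D.D5_out i _ k hk, D.D5_out i _ _ hk', D.r_val]

theorem wJ_comm (i : Fin n) : D.rE * C.wd (D.wl i) * D.rE⁻¹ = C.wd (D.wl i) := by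
  rw [mul_inv_eq_iff_eq_mul]
  ext β : 1
  rw [Equiv.Perm.mul_apply, Equiv.Perm.mul_apply]
  exact D.D5_comm i β

theorem wJ_supp (i : Fin n) (β : C.Root) : D.supp i (C.wd (D.wl i) β) ↔ D.supp i β := by
  unfold supp
  constructor
  · intro h j hj
    by_contra hk
    exact hk (h j (by rwa [D.D5_out i β j hk]))
  · intro h j hj
    by_contra hk
    exact hk (h j (by rwa [D.D5_out i β j hk] at hj))

theorem wJ_pos (i : Fin n) (β : C.Root) (hβ : C.Pos β) (h : ¬ D.supp i β) :
    C.Pos (C.wd (D.wl i) β) := by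
  unfold supp at h
  push Not at h
  obtain ⟨j, hj, hk⟩ := h
  have h1 := (C.pos_iff β).1 hβ j
  have h2 := D.D5_out i β j hk
  rw [C.pos_iff]
  rcases C.pos_or_neg (C.wd (D.wl i) β) with h3 | h3
  · exact h3
  · exfalso
    have h4 := h3 j
    rw [h2] at h4
    omega

theorem wJ_neg (i : Fin n) (β : C.Root) (hβ : C.Pos β) (h : D.supp i β) :
    ¬ C.Pos (C.wd (D.wl i) β) := by
  have h0 := (C.pos_iff β).1 hβ
  unfold supp at h
  by_cases ha : C.A i (D.ρ i) = -1
  · obtain ⟨γ, hγ, -⟩ := D.D5_exists i ha
    have hne := D.D5_adj_ne i ha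
    have hv : β.1 = β.1 i • (C.simple i).1 + β.1 (D.ρ i) • (C.simple (D.ρ i)).1 := by
      funext k
      simp only [Pi.add_apply, Pi.smul_apply, SLC.simple_val, smul_eq_mul]
      by_cases hk : D.ρ.SameCycle i k
      · rcases D.D5_adj_cyc i k ha hk with rfl | rfl
        · rw [Pi.single_eq_same, Pi.single_eq_of_ne hne.symm]
          ring
        · rw [Pi.single_eq_same, Pi.single_eq_of_ne hne]
          ring
      · have h1 : β.1 k = 0 := by
          by_contra h1
          exact hk (h k h1)
        rw [Pi.single_eq_of_ne, Pi.single_eq_of_ne, h1]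
        · ring
        · rintro rfl
          exact hk (D.D5_same i 1)
        · rintro rfl
          exact hk (Equiv.Perm.SameCycle.refl _ _)
    have h1 : C.ip (C.simple i).1 (C.simple (D.ρ i)).1 = -1 := by
      simp only [SLC.simple_val, SLC.ip_single]
      exact ha
    have h2 : C.ip γ.1 β.1 = β.1 i + β.1 (D.ρ i) := by
      conv_lhs => rw [hv]
      rw [hγ, SLC.ip_add_left, SLC.ip_add_right, SLC.ip_add_right, SLC.ip_smul_right,
        SLC.ip_smul_right, SLC.ip_smul_right, SLC.ip_smul_right, (C.simple i).2,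
        (C.simple (D.ρ i)).2, h1, C.ip_comm (C.simple (D.ρ i)).1, h1]
      ring
    intro hp
    have h3 := (C.pos_iff _).1 hp
    rw [D.wJ_adj i ha γ hγ, SLC.reflE_apply, SLC.refl_val, h2, hγ] at h3
    have h4 := h3 i
    have h5 := h3 (D.ρ i)
    simp only [Pi.sub_apply, Pi.add_apply, Pi.smul_apply, SLC.simple_val, smul_eq_mul,
      Pi.single_eq_same, Pi.single_eq_of_ne hne, Pi.single_eq_of_ne hne.symm] at h4 h5
    have h6 := h0 i
    have h7 := h0 (D.ρ i)
    have h8 : β.1 i = 0 := by linarith
    have h9 : β.1 (D.ρ i) = 0 := by linarith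
    rw [h8, h9, zero_smul, zero_smul, add_zero] at hv
    exact C.root_ne_zero β hv
  · intro hp
    have h3 := (C.pos_iff _).1 hp
    apply C.root_ne_zero β
    funext k
    by_cases hk : D.ρ.SameCycle i k
    · have h4 := h3 k
      rw [D.D5_in i ha β k hk] at h4
      have h5 : C.ip (C.simple k).1 β.1 = 2 * β.1 k := by
        rw [C.ip_comm, ← C.sum_ip_single, Finset.sum_eq_single k]
        · rw [SLC.simple_val, SLC.ip_single, C.diag, mul_comm]
        · intro j _ hj
          rw [SLC.simple_val, SLC.ip_single]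
          by_cases hj' : D.ρ.SameCycle i j
          · rw [D.D5_orth i j k ha hj' hk hj, mul_zero]
          · have h1 : β.1 j = 0 := by
              by_contra h1
              exact hj' (h j h1)
            rw [h1, zero_mul]
        · intro hj
          exact absurd (Finset.mem_univ _) hj
      have h6 := h0 k
      rw [Pi.zero_apply]
      omega
    · rw [Pi.zero_apply]
      by_contra h1
      exact hk (h k h1)

private theorem D5_sum (v : Fin n → ℤ) : v = ∑ j, v j • (C.simple j).1 := by
  funext k
  rw [Finset.sum_apply, Finset.sum_eq_single k]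
  · simp
  · intro j _ hj
    simp [hj.symm]
  · intro hj
    exact absurd (Finset.mem_univ _) hj

private theorem D5_all_neg (w : Equiv.Perm C.Root) (hw : w ∈ C.W) (i : Fin n)
    (hn : ∀ j, D.ρ.SameCycle i j → ¬ C.Pos (w (C.simple j))) (β : C.Root) (hβ : C.Pos β)
    (h : D.supp i β) : ¬ C.Pos (w β) := by
  obtain ⟨f, hf1, -⟩ := C.W_lin w hw
  have h0 := (C.pos_iff β).1 hβ
  have h1 : ∀ k, (w β).1 k ≤ 0 := by
    intro k
    rw [hf1, D5_sum β.1, map_sum, Finset.sum_apply]
    apply Finset.sum_nonpos
    intro j _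
    rw [map_zsmul, ← hf1, Pi.smul_apply, smul_eq_mul]
    by_cases hj : β.1 j = 0
    · rw [hj, zero_mul]
    · have h2 := hn j (h j hj)
      have h3 : (w (C.simple j)).1 k ≤ 0 := by
        rcases C.pos_or_neg (w (C.simple j)) with h4 | h4
        · exact absurd ((C.pos_iff _).2 h4) h2
        · exact h4 k
      exact mul_nonpos_of_nonneg_of_nonpos (h0 j) h3
  intro hp
  have h2 := (C.pos_iff _).1 hp
  apply C.root_ne_zero (w β)
  funext k
  exact le_antisymm (h1 k) (h2 k)

/-- Induction for Weyl group elements commuting with `ρ`. -/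
theorem Wr_induct (P : Equiv.Perm C.Root → Prop) (h1 : P 1)
    (hs : ∀ w i, w ∈ C.W → P w → P (w * C.wd (D.wl i))) (w : Equiv.Perm C.Root) (hw : w ∈ C.W)
    (hr : D.rE * w * D.rE⁻¹ = w) : P w := by
  classical
  suffices hN : ∀ N : ℕ, ∀ w : Equiv.Perm C.Root, w ∈ C.W → D.rE * w * D.rE⁻¹ = w →
      (Finset.univ.filter fun β : C.Root => C.Pos β ∧ ¬ C.Pos (w β)).card ≤ N → P w from
    hN _ w hw hr le_rfl
  intro N
  induction N with
  | zero =>
    intro w hw hr hc
    have h2 : w = 1 := by
      apply C.eq_one_of_pos w hw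
      intro i
      by_contra h3
      have h4 : C.simple i ∈ Finset.univ.filter
          fun β : C.Root => C.Pos β ∧ ¬ C.Pos (w β) :=
        Finset.mem_filter.2 ⟨Finset.mem_univ _, C.simple_pos i, h3⟩
      have h5 := Finset.card_pos.2 ⟨_, h4⟩
      omega
    rw [h2]
    exact h1
  | succ N ih =>
    intro w hw hr hc
    by_cases h2 : ∀ i, C.Pos (w (C.simple i))
    · rw [C.eq_one_of_pos w hw h2]
      exact h1
    · push Not at h2
      obtain ⟨i, hi⟩ := h2
      have hcomm : ∀ β, D.r (w β) = w (D.r β) := by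
        intro β
        rw [mul_inv_eq_iff_eq_mul] at hr
        have h3 := congrArg (fun σ : Equiv.Perm C.Root => σ β) hr
        simpa using h3
      have hcyc : ∀ j, D.ρ.SameCycle i j → ¬ C.Pos (w (C.simple j)) := by
        intro j hj
        obtain ⟨a, -, rfl⟩ := D.D5_cyc i j hj
        clear hj
        induction a with
        | zero => exact hi
        | succ a iha =>
          rw [pow_succ', Equiv.Perm.mul_apply, ← D.r_simple, ← hcomm, D.r_pos]
          exact iha
      have hall := D.D5_all_neg w hw i hcyc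
      set v := w * C.wd (D.wl i) with hv
      have hvW : v ∈ C.W := C.W.mul_mem hw (C.wd_mem_W _)
      have hvr : D.rE * v * D.rE⁻¹ = v := by
        have h3 : D.rE * v * D.rE⁻¹
            = (D.rE * w * D.rE⁻¹) * (D.rE * C.wd (D.wl i) * D.rE⁻¹) := by
          rw [hv]
          group
        rw [h3, hr, D.wJ_comm]
      have hlt : (Finset.univ.filter fun β : C.Root => C.Pos β ∧ ¬ C.Pos (v β)).card
          < (Finset.univ.filter fun β : C.Root => C.Pos β ∧ ¬ C.Pos (w β)).card := by
        have hsub : (Finset.univ.filter fun β : C.Root => C.Pos β ∧ ¬ C.Pos (v β)).image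
            (C.wd (D.wl i)) ⊆
            (Finset.univ.filter fun β : C.Root => C.Pos β ∧ ¬ C.Pos (w β)).erase
              (C.simple i) := by
          intro δ hδ
          rw [Finset.mem_image] at hδ
          obtain ⟨β, hβ, rfl⟩ := hδ
          rw [Finset.mem_filter] at hβ
          obtain ⟨-, hβ1, hβ2⟩ := hβ
          rw [hv, Equiv.Perm.mul_apply] at hβ2
          have hns : ¬ D.supp i β := by
            intro hsup
            have h5 := D.wJ_neg i β hβ1 hsup
            rw [C.not_pos_iff] at h5
            have h6 : D.supp i (-(C.wd (D.wl i) β)) := by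
              intro j hj
              rw [SLC.Root.neg_val, Pi.neg_apply, neg_ne_zero] at hj
              exact (D.wJ_supp i β).2 hsup j hj
            have h7 := hall _ h5 h6
            rw [C.W_neg w hw, C.not_pos_iff, C.neg_neg_root] at h7
            exact hβ2 h7
          rw [Finset.mem_erase, Finset.mem_filter]
          refine ⟨?_, Finset.mem_univ _, D.wJ_pos i β hβ1 hns, hβ2⟩
          intro he
          apply hns
          rw [← D.wJ_supp i β, he]
          intro j hj
          rw [SLC.simple_val] at hj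
          have h8 : j = i := by
            by_contra h9
            exact hj (Pi.single_eq_of_ne h9 _)
          rw [h8]
        have hmem : C.simple i ∈ Finset.univ.filter
            fun β : C.Root => C.Pos β ∧ ¬ C.Pos (w β) :=
          Finset.mem_filter.2 ⟨Finset.mem_univ _, C.simple_pos i, hi⟩
        have h5 := Finset.card_le_card hsub
        rw [Finset.card_image_of_injective _ (C.wd (D.wl i)).injective,
          Finset.card_erase_of_mem hmem] at h5
        have h6 := Finset.card_pos.2 ⟨_, hmem⟩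
        omega
      have hPv := ih v hvW hvr (by omega)
      have h9 := hs v i hvW hPv
      have h10 : v * C.wd (D.wl i) = w := by
        rw [hv, mul_assoc, D.wJ_sq, mul_one]
      rw [h10] at h9
      exact h9

end Dg

end Pool.Agent.H75.UL
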