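import Pool.Agent.H75.UT.D1

/-!
# Project UT, module D1b

Inner products in an orbit; non-adjacent orbits; signs of fixed roots.

`ip_r`: by `ip_cases` for `ip β (r β)`: `2` gives `r β = β`; `-2` gives `r β = -β`, but
`ht (r β) = ht β ≠ 0`; `1` gives the root `δ = r β - β` of height `0`, impossible (`ht_ne_zero`);
`-1` if `m = 3`: then also `ip (r β) (r² β) = ip (r² β) β = -1` (`r_ip`), so
`v = β + r β + r² β` has `ip v v = 0`, `v = 0`, `3 ht β = 0`, impossible; `m = 1` is impossible as then
`r β = β`. `ip_orb`: `m = 3`, `l = 2`: `ip β (r² β) = ip (r β) (r³ β) = ip (r β) β`.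
`ip_r_NA`: strong induction on `ht` (for positive `β`; for negative `β` use `-β`). Suppose
`ip β (r β) = -1` (so `m = 2`), `γ = β + r β` is a root with `r γ = γ`. There is a simple `α_i` with
`ip γ α_i ≥ 1` (else `ip γ γ ≤ 0`: `γ = ∑ γ_j α_j`, `γ_j ≥ 0`), then `ip γ α_{ρ i} = ip γ α_i`, and
`γ` is not simple (`ht γ ≥ 2`), so both are `1`. Let `J = {i, ρ i}` (orthogonal by `NA` and `ip_r` for
`simple i`, or `ρ i = i`) and apply the reflections of `J` to `β`: `β' = β - ∑_{j ∈ J} ip β α_j α_j`;
`r β' = ` the same for `r β`, `ip β' (r β') = -1`, and `γ' = β' + r β' = γ - ∑_{j∈J} α_j` has smaller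
height; `β'` is positive: otherwise (`refl_simple_pos`) `β` or the first reflection of it is a simple root
of `J`: then `β ∈ J`, but simple roots satisfy `ip = A i (ρ i) ≠ -1`.
`sg_fix`: strong induction on the height of a positive fixed root `β` (negative: `sg_neg`). If `β` is
simple: `sg_simple`. Otherwise there is a simple `i` with `ip β α_i = 1` (as above), and then
`ip β α_{ρ^l i} = 1`. If `ρ i = i`: `β' = β - α_i` is a fixed positive root, `sg_add` gives
`sg β = sg β'`. If `ρ i ≠ i` and `m = 2`: `β = β' + a + b`, `a = α_i`, `b = α_{ρ i}`, `ip a b = 0`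
(`ip_r_NA`); by `sg_add` twice `sg β = sg β' * eps a b * eps b a = sg β'` (all other factors occur
twice; `eps_swap_of_zero`). `m = 3`: the same with `β = β' + a + b + c`.
`sg_adj`: `sg_add` for `γ = β + r β`: `sg γ * eps β (r β) = sg β * sg (r β) * eps (r β) (r (r β))`,
`r (r β) = β` (`m = 2` by `ip_r`), `sg β * sg (r β) = sgp m β = 1`, `eps (r β) β = - eps β (r β)`
(`eps_swap_of_odd`).
-/

set_option autoImplicit false
open Matrix
universe u
namespace Pool.Agent.H75.UL

namespace Dg
variable {n : ℕ} {C : SLC n} (D : Dg C)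

private theorem D1b_sub (β γ δ : C.Root) (h : δ.1 = γ.1 - β.1) : (D.r δ).1 = (D.r γ).1 - (D.r β).1 := by
  have h1 : γ.1 = δ.1 + β.1 := by
    rw [h]
    abel
  rw [D.r_add δ β γ h1]
  abel

theorem ip_r (β : C.Root) (hβ : D.r β ≠ β) :
    C.ip β.1 (D.r β).1 = 0 ∨ (D.m = 2 ∧ C.ip β.1 (D.r β).1 = -1) := by
  rcases C.ip_cases β (D.r β) with h | h | h | h | h
  · exfalso
    have h1 := (C.ip_eq_neg_two_iff _ _).mp h
    have h2 := D.r_ht β
    rw [h1, SLC.Root.neg_val, ht_neg] at h2
    have h3 := C.ht_ne_zero β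
    omega
  · rcases D.m_cases with hm | hm | hm
    · exfalso
      have h1 := D.r_m β
      rw [hm] at h1
      exact hβ h1
    · exact Or.inr ⟨hm, h⟩
    · exfalso
      have h1 := D.r_m β
      rw [hm] at h1
      have h1' : D.r (D.r (D.r β)) = β := h1
      have h2 : C.ip (D.r β).1 (D.r (D.r β)).1 = -1 := by rw [D.r_ip, h]
      have h3 : C.ip (D.r (D.r β)).1 β.1 = -1 := by
        have h4 := D.r_ip (D.r β) (D.r (D.r β))
        rw [h1', h2] at h4
        exact h4
      have h5 : C.ip (β.1 + (D.r β).1 + (D.r (D.r β)).1) (β.1 + (D.r β).1 + (D.r (D.r β)).1)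
          = 0 := by
        simp only [SLC.ip_add_left, SLC.ip_add_right, SLC.Root.norm]
        rw [C.ip_comm (D.r β).1 β.1, C.ip_comm (D.r (D.r β)).1 (D.r β).1,
          C.ip_comm β.1 (D.r (D.r β)).1, h, h2, h3]
        norm_num
      have h6 : β.1 + (D.r β).1 + (D.r (D.r β)).1 = 0 := by
        by_contra hne
        have := C.ip_pos _ hne
        omega
      have h7 := congrArg ht h6
      rw [ht_add, ht_add, D.r_ht, D.r_ht, D.r_ht] at h7
      have h8 : ht (0 : Fin n → ℤ) = 0 := by simp [ht]
      rw [h8] at h7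
      have h9 := C.ht_ne_zero β
      omega
  · exact Or.inl h
  · exfalso
    obtain ⟨δ, hδ⟩ := C.exists_sub β (D.r β) h
    have h1 := C.ht_ne_zero δ
    rw [hδ, ht_sub, D.r_ht] at h1
    omega
  · exfalso
    exact hβ ((C.ip_eq_two_iff _ _).mp h).symm

theorem ip_orb (β : C.Root) (hβ : D.r β ≠ β) (l : ℕ) (h0 : 0 < l) (hl : l < D.m) :
    C.ip β.1 (D.r^[l] β).1 = C.ip β.1 (D.r β).1 := by
  rcases D.m_cases with hm | hm | hm
  · omega
  · have : l = 1 := by omega
    subst this
    rfl
  · have hl' : l = 1 ∨ l = 2 := by omega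
    rcases hl' with rfl | rfl
    · rfl
    · have h1 := D.r_m β
      rw [hm] at h1
      have h1' : D.r (D.r (D.r β)) = β := h1
      change C.ip β.1 (D.r (D.r β)).1 = _
      rw [← D.r_ip, h1', C.ip_comm]

/-- No simple root is adjacent to its image under `ρ`. -/
def NA : Prop := ∀ i, C.A i (D.ρ i) ≠ -1

private theorem D1b_step (h : D.NA) (β : C.Root) (hm : D.m = 2) (hb : C.ip β.1 (D.r β).1 = -1)
    (hβ : C.Pos β) (k : Fin n) (hk : D.ρ k ≠ k) (h1 : C.ip (C.simple k).1 β.1 = 1)
    (h2 : C.ip (D.r (C.simple k)).1 β.1 = 0) :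
    ∃ β' : C.Root, C.Pos β' ∧ ht β'.1 = ht β.1 - 1 ∧ C.ip β'.1 (D.r β').1 = -1 := by
  have hrr : ∀ α : C.Root, D.r (D.r α) = α := by
    intro α
    have h1 := D.r_m α
    rw [hm] at h1
    exact h1
  have hck : D.r (C.simple k) ≠ C.simple k := by
    rw [D.r_simple]
    intro h3
    exact hk (C.simple_injective h3)
  have hc : C.ip (C.simple k).1 (D.r (C.simple k)).1 = 0 := by
    rcases D.ip_r _ hck with h3 | ⟨-, h3⟩
    · exact h3
    · exfalso
      rw [D.r_simple, SLC.simple_val, SLC.simple_val, C.ip_single] at h3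
      exact h k h3
  have hne : β ≠ C.simple k := by
    intro h3
    rw [h3, hc] at hb
    omega
  refine ⟨C.refl (C.simple k) β, C.refl_simple_pos k β hβ hne, ?_, ?_⟩
  · rw [C.refl_val, h1, one_smul, ht_sub, C.ht_simple]
  · have h4 : (C.refl (C.simple k) β).1 = β.1 - (C.simple k).1 := by
      rw [C.refl_val, h1, one_smul]
    rw [D.D1b_sub _ _ _ h4, h4, C.ip_sub_left, C.ip_sub_right, C.ip_sub_right, hb, hc]
    have h5 : C.ip (C.simple k).1 (D.r β).1 = 0 := by
      rw [← D.r_ip, hrr, h2]
    rw [h5, C.ip_comm β.1, h2]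
    norm_num

private theorem D1b_ip_pos (h : D.NA) : ∀ (N : ℕ) (β : C.Root), ht β.1 ≤ N → C.Pos β →
    D.m = 2 → C.ip β.1 (D.r β).1 ≠ -1 := by
  intro N
  induction N with
  | zero =>
    intro β hN hβ
    unfold SLC.Pos at hβ
    have : ((0 : ℕ) : ℤ) = 0 := rfl
    omega
  | succ N ih =>
    intro β hN hβ hm hb
    have hrr : ∀ α : C.Root, D.r (D.r α) = α := by
      intro α
      have h1 := D.r_m α
      rw [hm] at h1
      exact h1
    have hβ0 : 0 < ht β.1 := hβ
    obtain ⟨γ, hγ⟩ := C.exists_add β (D.r β) hb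
    have hγr : D.r γ = γ := by
      apply SLC.Root.ext
      rw [D.r_add _ _ _ hγ, hrr, hγ]
      abel
    have hγht : ht γ.1 = 2 * ht β.1 := by
      rw [hγ, ht_add, D.r_ht]
      ring
    have hγp : C.Pos γ := by
      unfold SLC.Pos
      omega
    obtain ⟨i, δ, hδ, hδv⟩ := C.exists_descent γ hγp (by
      intro i hi
      have h1 := congrArg (fun α : C.Root => ht α.1) hi
      simp only [C.ht_simple] at h1
      omega)
    have hi1 : C.ip (C.simple i).1 γ.1 = 1 := by
      have h1 := C.ip_add_root _ _ _ hδv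
      rw [hδv, C.ip_add_right, h1, (C.simple i).norm]
      norm_num
    rw [hγ, C.ip_add_right] at hi1
    have hi2 : C.ip (C.simple i).1 (D.r β).1 = C.ip (D.r (C.simple i)).1 β.1 := by
      rw [← D.r_ip (D.r (C.simple i)) β, hrr]
    rw [hi2] at hi1
    by_cases hρ : D.ρ i = i
    · rw [D.r_simple, hρ] at hi1
      omega
    · have hρ' : D.ρ (D.ρ i) = i := by
        have h1 := hrr (C.simple i)
        rw [D.r_simple, D.r_simple] at h1
        exact C.simple_injective h1
      have hx := C.ip_cases (C.simple i) β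
      have hy := C.ip_cases (D.r (C.simple i)) β
      have hck : D.r (C.simple i) ≠ C.simple i := by
        rw [D.r_simple]
        intro h3
        exact hρ (C.simple_injective h3)
      have hc : C.ip (C.simple i).1 (D.r (C.simple i)).1 = 0 := by
        rcases D.ip_r _ hck with h3 | ⟨-, h3⟩
        · exact h3
        · exfalso
          rw [D.r_simple, SLC.simple_val, SLC.simple_val, C.ip_single] at h3
          exact h i h3
      have hx2 : C.ip (C.simple i).1 β.1 ≠ 2 := by
        intro h3
        have h4 := (C.ip_eq_two_iff _ _).mp h3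
        rw [← h4, C.ip_comm (D.r (C.simple i)).1, hc, (C.simple i).norm] at hi1
        omega
      have hy2 : C.ip (D.r (C.simple i)).1 β.1 ≠ 2 := by
        intro h3
        have h4 := (C.ip_eq_two_iff _ _).mp h3
        rw [← h4, hc, (D.r (C.simple i)).norm] at hi1
        omega
      have hcase : (C.ip (C.simple i).1 β.1 = 1 ∧ C.ip (D.r (C.simple i)).1 β.1 = 0) ∨
          (C.ip (C.simple i).1 β.1 = 0 ∧ C.ip (D.r (C.simple i)).1 β.1 = 1) := by
        omega
      have hfin : ∀ k : Fin n, D.ρ k ≠ k → C.ip (C.simple k).1 β.1 = 1 →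
          C.ip (D.r (C.simple k)).1 β.1 = 0 → False := by
        intro k hk h1 h2
        obtain ⟨β', hp, hht, hip⟩ := D.D1b_step h β hm hb hβ k hk h1 h2
        exact ih β' (by push_cast at hN; omega) hp hm hip
      rcases hcase with ⟨h1, h2⟩ | ⟨h1, h2⟩
      · exact hfin i hρ h1 h2
      · refine hfin (D.ρ i) ?_ ?_ ?_
        · rw [hρ']
          exact fun h3 => hρ h3.symm
        · rw [← D.r_simple]
          exact h2
        · rw [D.r_simple, hρ']
          exact h1

theorem ip_r_NA (h : D.NA) (β : C.Root) (hβ : D.r β ≠ β) : C.ip β.1 (D.r β).1 = 0 := by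
  rcases D.ip_r β hβ with h1 | ⟨hm, h1⟩
  · exact h1
  · exfalso
    by_cases hp : C.Pos β
    · exact D.D1b_ip_pos h (ht β.1).toNat β (by omega) hp hm h1
    · have hp' := (C.not_pos_iff β).mp hp
      refine D.D1b_ip_pos h (ht (-β).1).toNat (-β) (by omega) hp' hm ?_
      rw [D.r_neg, SLC.Root.neg_val, SLC.Root.neg_val, C.ip_neg_neg]
      exact h1

/-- one step down: subtract a simple root. -/
private theorem D1b_down (β : C.Root) (hβ : C.Pos β) (k : Fin n)
    (h1 : C.ip (C.simple k).1 β.1 = 1) :
    ∃ β' : C.Root, C.Pos β' ∧ β.1 = (C.simple k).1 + β'.1 ∧ β'.1 = β.1 - (C.simple k).1 := by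
  have hne : β ≠ C.simple k := by
    intro h3
    rw [h3, (C.simple k).norm] at h1
    omega
  refine ⟨C.refl (C.simple k) β, C.refl_simple_pos k β hβ hne, ?_, ?_⟩
  · rw [C.refl_val, h1, one_smul]
    abel
  · rw [C.refl_val, h1, one_smul]

private theorem D1b_sg_pos (h : D.NA) : ∀ (N : ℕ) (β : C.Root), ht β.1 ≤ N → C.Pos β →
    D.r β = β → D.sg β = 1 := by
  intro N
  induction N with
  | zero =>
    intro β hN hβ
    unfold SLC.Pos at hβ
    have : ((0 : ℕ) : ℤ) = 0 := rfl
    omega
  | succ N ih =>
    intro β hN hβ hr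
    push_cast at hN
    by_cases hs : ∃ i, β = C.simple i
    · obtain ⟨i, rfl⟩ := hs
      exact D.sg_simple i
    · simp only [not_exists] at hs
      obtain ⟨i, δ, hδ, hδv⟩ := C.exists_descent β hβ hs
      have hi1 : C.ip (C.simple i).1 β.1 = 1 := by
        have h1 := C.ip_add_root _ _ _ hδv
        rw [hδv, C.ip_add_right, h1, (C.simple i).norm]
        norm_num
      have hinv : ∀ k, C.ip (C.simple (D.ρ k)).1 β.1 = C.ip (C.simple k).1 β.1 := by
        intro k
        have h1 := D.r_ip (C.simple k) β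
        rw [hr, D.r_simple] at h1
        exact h1
      by_cases hρ : D.ρ i = i
      · have hδr : D.r δ = δ := by
          apply SLC.Root.ext
          have h1 : δ.1 = β.1 - (C.simple i).1 := by
            rw [hδv]
            abel
          rw [D.D1b_sub _ _ _ h1, hr, D.r_simple, hρ, h1]
        have h2 := D.sg_add _ _ _ hδv
        rw [D.r_simple, hρ, hδr, D.sg_simple, ih δ (by
          have h3 : ht β.1 = 1 + ht δ.1 := by rw [hδv, ht_add, C.ht_simple]
          omega) hδ hδr, one_mul, one_mul] at h2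
        exact mul_right_cancel₀ (C.eps_ne_zero _ _) (h2.trans (one_mul _).symm)
      · have hck : D.r (C.simple i) ≠ C.simple i := by
          rw [D.r_simple]
          intro h3
          exact hρ (C.simple_injective h3)
        rcases D.m_cases with hm | hm | hm
        · exfalso
          have h1 := D.r_m (C.simple i)
          rw [hm] at h1
          exact hck h1
        · -- order two
          have hρ' : D.ρ (D.ρ i) = i := by
            have h1 := D.r_m (C.simple i)
            rw [hm] at h1
            have h1' : D.r (D.r (C.simple i)) = C.simple i := h1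
            rw [D.r_simple, D.r_simple] at h1'
            exact C.simple_injective h1'
          have hab : C.ip (C.simple i).1 (C.simple (D.ρ i)).1 = 0 := by
            rw [← D.r_simple]
            exact D.ip_r_NA h _ hck
          obtain ⟨β1, hp1, hv1, hv1'⟩ := D1b_down β hβ i hi1
          obtain ⟨β2, hp2, hv2, hv2'⟩ := D1b_down β1 hp1 (D.ρ i) (by
            rw [hv1', C.ip_sub_right, hinv, hi1, C.ip_comm, hab, sub_zero])
          have hr2 : D.r β2 = β2 := by
            apply SLC.Root.ext
            rw [D.D1b_sub _ _ _ hv2', D.D1b_sub _ _ _ hv1', hr, D.r_simple, D.r_simple, hρ', hv2',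
              hv1']
            abel
          have hht : ht β2.1 = ht β.1 - 2 := by
            rw [hv2', ht_sub, hv1', ht_sub, C.ht_simple, C.ht_simple]
            ring
          have hs2 := ih β2 (by omega) hp2 hr2
          have hr1 : (D.r β1).1 = β2.1 + (C.simple i).1 := by
            rw [D.D1b_sub _ _ _ hv1', hr, D.r_simple, hv2', hv1']
            abel
          have hb1 : β1.1 = β2.1 + (C.simple (D.ρ i)).1 := by
            rw [hv2]
            abel
          have e1 := D.sg_add _ _ _ hv1
          have e2 := D.sg_add _ _ _ hv2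
          rw [D.sg_simple, D.r_simple, hr1, hb1, C.eps_add_right, C.eps_add_right, one_mul] at e1
          rw [D.sg_simple, D.r_simple, hρ', hr2, hs2, one_mul, one_mul] at e2
          have e3 := C.eps_swap_of_zero _ _ hab
          have e4 : D.sg β * (C.eps (C.simple i).1 β2.1 *
              C.eps (C.simple i).1 (C.simple (D.ρ i)).1) = 1 * (C.eps (C.simple i).1 β2.1 *
              C.eps (C.simple i).1 (C.simple (D.ρ i)).1) := by
            rw [e1, ← mul_assoc, e2, e3, one_mul]
          exact mul_right_cancel₀ (mul_ne_zero (C.eps_ne_zero _ _) (C.eps_ne_zero _ _)) e4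
        · -- order three
          have hρ' : D.ρ (D.ρ (D.ρ i)) = i := by
            have h1 := D.r_m (C.simple i)
            rw [hm] at h1
            have h1' : D.r (D.r (D.r (C.simple i))) = C.simple i := h1
            rw [D.r_simple, D.r_simple, D.r_simple] at h1'
            exact C.simple_injective h1'
          have hab : C.ip (C.simple i).1 (C.simple (D.ρ i)).1 = 0 := by
            rw [← D.r_simple]
            exact D.ip_r_NA h _ hck
          have hbc : C.ip (C.simple (D.ρ i)).1 (C.simple (D.ρ (D.ρ i))).1 = 0 := by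
            rw [← D.r_simple, ← D.r_simple, D.r_ip]
            exact hab
          have hac : C.ip (C.simple i).1 (C.simple (D.ρ (D.ρ i))).1 = 0 := by
            have h1 := D.r_ip (C.simple (D.ρ (D.ρ i))) (C.simple (D.ρ i))
            rw [D.r_simple, D.r_simple, hρ'] at h1
            rw [h1, C.ip_comm]
            exact hbc
          obtain ⟨β1, hp1, hv1, hv1'⟩ := D1b_down β hβ i hi1
          obtain ⟨β2, hp2, hv2, hv2'⟩ := D1b_down β1 hp1 (D.ρ i) (by
            rw [hv1', C.ip_sub_right, hinv, hi1, C.ip_comm, hab, sub_zero])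
          obtain ⟨β3, hp3, hv3, hv3'⟩ := D1b_down β2 hp2 (D.ρ (D.ρ i)) (by
            rw [hv2', C.ip_sub_right, hv1', C.ip_sub_right, hinv, hinv, hi1,
              C.ip_comm _ (C.simple i).1, hac, C.ip_comm _ (C.simple (D.ρ i)).1, hbc, sub_zero,
              sub_zero])
          have hr3 : D.r β3 = β3 := by
            apply SLC.Root.ext
            rw [D.D1b_sub _ _ _ hv3', D.D1b_sub _ _ _ hv2', D.D1b_sub _ _ _ hv1', hr, D.r_simple,
              D.r_simple, D.r_simple, hρ', hv3', hv2', hv1']
            abel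
          have hht : ht β3.1 = ht β.1 - 3 := by
            rw [hv3', ht_sub, hv2', ht_sub, hv1', ht_sub, C.ht_simple, C.ht_simple, C.ht_simple]
            ring
          have hs3 := ih β3 (by omega) hp3 hr3
          have hb2 : β2.1 = β3.1 + (C.simple (D.ρ (D.ρ i))).1 := by
            rw [hv3]
            abel
          have hb1 : β1.1 = β3.1 + (C.simple (D.ρ (D.ρ i))).1 + (C.simple (D.ρ i)).1 := by
            rw [hv2, hb2]
            abel
          have hr1 : (D.r β1).1 = β3.1 + (C.simple (D.ρ (D.ρ i))).1 + (C.simple i).1 := by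
            rw [D.D1b_sub _ _ _ hv1', hr, D.r_simple, hv3', hv2', hv1']
            abel
          have hr2 : (D.r β2).1 = β3.1 + (C.simple i).1 := by
            rw [D.D1b_sub _ _ _ hv2', D.D1b_sub _ _ _ hv1', hr, D.r_simple, D.r_simple, hv3', hv2',
              hv1']
            abel
          have e1 := D.sg_add _ _ _ hv1
          have e2 := D.sg_add _ _ _ hv2
          have e3 := D.sg_add _ _ _ hv3
          rw [D.sg_simple, D.r_simple, hr1, hb1, C.eps_add_right, C.eps_add_right,
            C.eps_add_right, C.eps_add_right, one_mul] at e1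
          rw [D.sg_simple, D.r_simple, hr2, hb2, C.eps_add_right, C.eps_add_right, one_mul] at e2
          rw [D.sg_simple, D.r_simple, hρ', hr3, hs3, one_mul, one_mul] at e3
          have f1 := C.eps_swap_of_zero _ _ hab
          have f2 := C.eps_swap_of_zero _ _ hac
          have e4 : D.sg β * (C.eps (C.simple i).1 β3.1 *
              C.eps (C.simple i).1 (C.simple (D.ρ (D.ρ i))).1 *
              C.eps (C.simple i).1 (C.simple (D.ρ i)).1) = 1 * (C.eps (C.simple i).1 β3.1 *
              C.eps (C.simple i).1 (C.simple (D.ρ (D.ρ i))).1 *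
              C.eps (C.simple i).1 (C.simple (D.ρ i)).1) := by
            rw [e1, ← mul_assoc, e2, ← mul_assoc, e3, f1, f2, one_mul]
          exact mul_right_cancel₀ (mul_ne_zero (mul_ne_zero (C.eps_ne_zero _ _)
            (C.eps_ne_zero _ _)) (C.eps_ne_zero _ _)) e4

theorem sg_fix (h : D.NA) (β : C.Root) (hβ : D.r β = β) : D.sg β = 1 := by
  by_cases hp : C.Pos β
  · exact D.D1b_sg_pos h (ht β.1).toNat β (by omega) hp hβ
  · have hp' := (C.not_pos_iff β).mp hp
    rw [← D.sg_neg]
    refine D.D1b_sg_pos h (ht (-β).1).toNat (-β) (by omega) hp' ?_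
    rw [D.r_neg, hβ]

theorem sg_adj (β γ : C.Root) (hβ : D.r β ≠ β) (h : γ.1 = β.1 + (D.r β).1) :
    D.r γ = γ ∧ D.sg γ = -1 := by
  have hb := C.ip_add_root _ _ _ h
  have hm : D.m = 2 := by
    rcases D.ip_r β hβ with h1 | ⟨hm, -⟩
    · omega
    · exact hm
  have hrr : D.r (D.r β) = β := by
    have h1 := D.r_m β
    rw [hm] at h1
    exact h1
  refine ⟨?_, ?_⟩
  · apply SLC.Root.ext
    rw [D.r_add _ _ _ h, hrr, h]
    abel
  · have h1 := D.sg_add _ _ _ h
    have h2 := D.sgp_m β
    rw [hm] at h2
    have h3 : D.sg β * D.sg (D.r β) = 1 := by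
      unfold sgp at h2
      rw [Finset.prod_range_succ, Finset.prod_range_succ, Finset.prod_range_zero, one_mul] at h2
      exact h2
    rw [h3, hrr, one_mul, C.eps_swap_of_odd _ _ (Or.inr hb)] at h1
    refine mul_right_cancel₀ (C.eps_ne_zero β.1 (D.r β).1) (h1.trans ?_)
    ring

end Dg

end Pool.Agent.H75.UL
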