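import Pool.Agent.H75.UT.D2
import Pool.Agent.H75.UL.T7

/-!
# Project UT, module D7

`σ` on the adjoint group.

`isSig_adS`: entrywise, `mat * E α = sg α • E (r α) * mat`, `mat * F α = F (r α) * mat` (use `r_val`,
`r_neg`, `r_add`, `sg_add`, `ip_lmap`, injectivity of `r`), so
`mat * X α t = X (r α) (sg α * t) * mat` over every commutative ring; `mp_xg`.
`sgl_Fil`, `chi_sgl`, `xi_sgl`: entries of `sgl θ g`:
`(sgl θ g) (ρ a) (ρ b) = ± θ (g a b)` with `ρ (inl i) = inl (ρ i)`, `ρ (inr β) = inr (r β)`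
(sign `sg α * sg β` for the roots among `a, b`; `sg (-simple) = 1`). `sgl_mp`: entrywise.
`sgl_nilpotent`: `sgl θ g - 1` is conjugate to `(g - 1).map θ`. `lift_sig`: `hom_ext`.
-/

set_option autoImplicit false
open Matrix
universe u
namespace Pool.Agent.H75.UL

section
variable {n : ℕ} {C : SLC n} (D : Dg C)

/-- The permutation of the index set. -/
private def D7_p (a : C.Idx) : C.Idx := Sum.map D.ρ D.r a

/-- The signs on the index set. -/
private def D7_s (a : C.Idx) : ℤ := Sum.elim (fun _ => 1) D.sg a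

private theorem D7_s_sq (a : C.Idx) : D7_s D a * D7_s D a = 1 := by
  rcases a with i | β
  · simp [D7_s]
  · exact D.sg_sq β

private theorem D7_s_cast {R : Type*} [CommRing R] (a : C.Idx) :
    (D7_s D a : R) * (D7_s D a : R) = 1 := by
  rw [← Int.cast_mul, D7_s_sq]
  simp

private theorem D7_p_inj : Function.Injective (D7_p D) := by
  unfold D7_p
  exact Sum.map_injective.mpr ⟨D.ρ.injective, D.r_injective⟩

private theorem D7_p_surj : Function.Surjective (D7_p D) :=
  Finite.surjective_of_injective (D7_p_inj D)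

private theorem D7_mat (R : Type*) [CommRing R] (a b : C.Idx) :
    D.mat R a b = if a = D7_p D b then (D7_s D b : R) else 0 := by
  rcases a with i | γ <;> rcases b with j | β <;> simp [Dg.mat, D7_p, D7_s]

private theorem D7_entry {R : Type*} [CommRing R] (θ : R ≃+* R) (g : GL C.Idx R) (a b : C.Idx) :
    ((D.sgl θ g : GL C.Idx R) : Matrix C.Idx C.Idx R) (D7_p D a) (D7_p D b) =
      (D7_s D a : R) * (D7_s D b : R) * θ ((g : Matrix C.Idx C.Idx R) a b) := by
  have h1 : ((D.sgl θ g : GL C.Idx R) : Matrix C.Idx C.Idx R) =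
      D.mat R * ((g : Matrix C.Idx C.Idx R).map (θ : R →+* R)) * (D.mat R)ᵀ := by
    rw [Dg.sgl_apply, Units.val_mul, Units.val_mul, SLC.mp_val]
    rfl
  rw [h1, Matrix.mul_apply, Finset.sum_eq_single b]
  · rw [Matrix.mul_apply, Finset.sum_eq_single a]
    · rw [Matrix.transpose_apply, D7_mat, D7_mat, if_pos rfl, if_pos rfl, Matrix.map_apply]
      change _ * θ _ * _ = _
      ring
    · intro c _ hc
      rw [D7_mat, if_neg, zero_mul]
      intro h
      exact hc (D7_p_inj D h).symm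
    · intro h
      exact absurd (Finset.mem_univ _) h
  · intro c _ hc
    rw [Matrix.transpose_apply, D7_mat, if_neg, mul_zero]
    intro h
    exact hc (D7_p_inj D h).symm
  · intro h
    exact absurd (Finset.mem_univ _) h

private theorem D7_r_eq (α β : C.Root) : (D.r β).1 = (D.r α).1 ↔ β.1 = α.1 := by
  constructor
  · intro h
    have := D.r_injective (SLC.Root.ext h)
    rw [this]
  · intro h
    have : β = α := SLC.Root.ext h
    rw [this]

private theorem D7_E (α : C.Root) (a b : C.Idx) :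
    C.E (D.r α) (D7_p D a) (D7_p D b) = D.sg α * (D7_s D a * D7_s D b * C.E α a b) := by
  rcases a with i | γ <;> rcases b with j | β
  · simp [SLC.E, D7_p]
  · change (if (D.r β).1 = -(D.r α).1 then -(D.r α).1 (D.ρ i) else 0) =
      D.sg α * (1 * D.sg β * (if β.1 = -α.1 then - α.1 i else 0))
    have h1 : (D.r β).1 = -(D.r α).1 ↔ β.1 = -α.1 := by
      have h2 := D7_r_eq D (-α) β
      rw [D.r_neg] at h2
      exact h2
    by_cases h : β.1 = -α.1
    · rw [if_pos (h1.mpr h), if_pos h, D.r_val]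
      have h3 : β = -α := SLC.Root.ext h
      rw [h3, D.sg_neg]
      have := D.sg_sq α
      linear_combination (α.1 i) * this
    · rw [if_neg (fun h' => h (h1.mp h')), if_neg h]
      ring
  · change (if (D.r γ).1 = (D.r α).1 then - C.ip (Pi.single (D.ρ j) 1) (D.r α).1 else 0) =
      D.sg α * (D.sg γ * 1 * (if γ.1 = α.1 then - C.ip (Pi.single j 1) α.1 else 0))
    by_cases h : γ.1 = α.1
    · rw [if_pos ((D7_r_eq D α γ).mpr h), if_pos h]
      have h3 : γ = α := SLC.Root.ext h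
      have h4 : C.ip (Pi.single (D.ρ j) 1) (D.r α).1 = C.ip (Pi.single j 1) α.1 := by
        rw [← SLC.lmap_single]
        exact C.ip_lmap D.ρ D.hρ _ _
      rw [h3, h4]
      have := D.sg_sq α
      linear_combination (C.ip (Pi.single j 1) α.1) * this
    · rw [if_neg (fun h' => h ((D7_r_eq D α γ).mp h')), if_neg h]
      ring
  · change (if (D.r γ).1 = (D.r α).1 + (D.r β).1 then C.eps (D.r α).1 (D.r β).1 else 0) =
      D.sg α * (D.sg γ * D.sg β * (if γ.1 = α.1 + β.1 then C.eps α.1 β.1 else 0))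
    by_cases h : γ.1 = α.1 + β.1
    · rw [if_pos (D.r_add α β γ h), if_pos h]
      have h1 := D.sg_add α β γ h
      have h2 := D.sg_sq α
      have h3 := D.sg_sq β
      calc C.eps (D.r α).1 (D.r β).1
          = (D.sg α * D.sg α) * (D.sg β * D.sg β) * C.eps (D.r α).1 (D.r β).1 := by
            rw [h2, h3]; ring
        _ = D.sg α * D.sg β * (D.sg α * D.sg β * C.eps (D.r α).1 (D.r β).1) := by ring
        _ = _ := by rw [← h1]; ring
    · rw [if_neg, if_neg h]
      · ring
      · intro h'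
        apply h
        funext i
        have := congrFun h' (D.ρ i)
        simpa [D.r_val] using this

private theorem D7_F (α : C.Root) (a b : C.Idx) :
    C.F (D.r α) (D7_p D a) (D7_p D b) = D7_s D a * D7_s D b * C.F α a b := by
  rcases a with i | γ <;> rcases b with j | β
  · simp [SLC.F, D7_p]
  · simp [SLC.F, D7_p]
  · simp [SLC.F, D7_p]
  · change (if (D.r γ).1 = (D.r α).1 ∧ (D.r β).1 = -(D.r α).1 then (1 : ℤ) else 0) =
      D.sg γ * D.sg β * (if γ.1 = α.1 ∧ β.1 = -α.1 then 1 else 0)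
    have h1 : (D.r β).1 = -(D.r α).1 ↔ β.1 = -α.1 := by
      have h2 := D7_r_eq D (-α) β
      rw [D.r_neg] at h2
      exact h2
    simp only [D7_r_eq D α γ, h1]
    split_ifs with h
    · have h3 : γ = α := SLC.Root.ext h.1
      have h4 : β = -α := SLC.Root.ext h.2
      rw [h3, h4, D.sg_neg, D.sg_sq]
      ring
    · ring

private theorem D7_one (R : Type*) [CommRing R] (a b : C.Idx) :
    (1 : Matrix C.Idx C.Idx R) (D7_p D a) (D7_p D b) =
      (D7_s D a : R) * (D7_s D b : R) * (1 : Matrix C.Idx C.Idx R) a b := by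
  by_cases h : a = b
  · subst h
    rw [Matrix.one_apply_eq, Matrix.one_apply_eq, D7_s_cast]
    ring
  · rw [Matrix.one_apply_ne h, Matrix.one_apply_ne (fun h' => h (D7_p_inj D h'))]
    ring

private theorem D7_X (R : Type*) [CommRing R] (α : C.Root) (t : R) (a b : C.Idx) :
    C.X R (D.r α) ((D.sg α : R) * t) (D7_p D a) (D7_p D b) =
      (D7_s D a : R) * (D7_s D b : R) * C.X R α t a b := by
  have hsq : (D.sg α : R) * (D.sg α : R) = 1 := by
    rw [← Int.cast_mul, D.sg_sq]
    simp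
  unfold SLC.X
  simp only [Matrix.add_apply, Matrix.smul_apply, Matrix.map_apply, smul_eq_mul, D7_one D R a b,
    D7_E, D7_F, Int.cast_mul]
  linear_combination ((D7_s D a : R) * (D7_s D b : R) * t * (C.E α a b : R) +
    (D7_s D a : R) * (D7_s D b : R) * t ^ 2 * (C.F α a b : R)) * hsq

private theorem D7_ext {R : Type*} [CommRing R] (M N : Matrix C.Idx C.Idx R)
    (h : ∀ a b, M (D7_p D a) (D7_p D b) = N (D7_p D a) (D7_p D b)) : M = N := by
  ext a b
  obtain ⟨a', rfl⟩ := D7_p_surj D a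
  obtain ⟨b', rfl⟩ := D7_p_surj D b
  exact h a' b'

private theorem D7_hti (a : C.Idx) : C.hti (D7_p D a) = C.hti a := by
  rcases a with i | β
  · rfl
  · exact D.r_ht β

end

section
variable {n : ℕ} {C : SLC n} (D : Dg C) {F : Type*} [Field F]

theorem isSig_adS (θ : F ≃+* F) : IsSig D θ (C.adS F) (D.sgl θ) := by
  intro β t
  change D.sgl θ (C.xg F β t) = C.xg F (D.r β) ((D.sg β : F) * θ t)
  apply Units.ext
  apply D7_ext D
  intro a b
  rw [D7_entry]
  change _ * θ (C.X F β t a b) = C.X F (D.r β) ((D.sg β : F) * θ t) (D7_p D a) (D7_p D b)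
  rw [D7_X]
  congr 1
  unfold SLC.X
  simp [Matrix.add_apply, Matrix.one_apply, apply_ite θ]

theorem sgl_Fil (θ : F ≃+* F) (m : ℤ) (g : GL C.Idx F) :
    C.Fil m ((D.sgl θ g : GL C.Idx F) : Matrix C.Idx C.Idx F) ↔
      C.Fil m (g : Matrix C.Idx C.Idx F) := by
  constructor
  · intro h a b hab
    have h1 := h (D7_p D a) (D7_p D b) (by rwa [D7_hti, D7_hti])
    rw [D7_entry] at h1
    have h2 : θ ((g : Matrix C.Idx C.Idx F) a b) = 0 := by
      have ha := D7_s_cast (R := F) D a
      have hb := D7_s_cast (R := F) D b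
      linear_combination ((D7_s D a : F) * (D7_s D b : F)) * h1 -
        (D7_s D b : F) * (D7_s D b : F) * θ ((g : Matrix C.Idx C.Idx F) a b) * ha -
        θ ((g : Matrix C.Idx C.Idx F) a b) * hb
    exact (map_eq_zero_iff θ θ.injective).mp h2
  · intro h a b hab
    obtain ⟨a', rfl⟩ := D7_p_surj D a
    obtain ⟨b', rfl⟩ := D7_p_surj D b
    rw [D7_hti, D7_hti] at hab
    rw [D7_entry, h a' b' hab, map_zero, mul_zero]

theorem chi_sgl (θ : F ≃+* F) (g : GL C.Idx F) (γ : C.Root) :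
    C.chi ((D.sgl θ g : GL C.Idx F) : Matrix C.Idx C.Idx F) (D.r γ) =
      θ (C.chi (g : Matrix C.Idx C.Idx F) γ) := by
  have h := D7_entry D θ g (Sum.inr γ) (Sum.inr γ)
  rw [D7_s_cast, one_mul] at h
  exact h

theorem xi_sgl (θ : F ≃+* F) (g : GL C.Idx F) (j : Fin n) :
    C.xi (D.ρ j) ((D.sgl θ g : GL C.Idx F) : Matrix C.Idx C.Idx F) =
      θ (C.xi j (g : Matrix C.Idx C.Idx F)) := by
  have h := D7_entry D θ g (Sum.inl j) (Sum.inr (-(C.simple j)))
  have h1 : D7_p D (Sum.inr (-(C.simple j))) = Sum.inr (-(C.simple (D.ρ j))) := by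
    change Sum.inr (D.r (-(C.simple j))) = _
    rw [D.r_neg, D.r_simple]
  have h2 : D7_s D (Sum.inr (-(C.simple j))) = 1 := by
    change D.sg (-(C.simple j)) = 1
    rw [D.sg_neg, D.sg_simple]
  have h3 : D7_s D (Sum.inl j) = 1 := rfl
  rw [h1, h2, h3] at h
  unfold SLC.xi
  rw [map_neg]
  congr 1
  refine Eq.trans h ?_
  simp

theorem sgl_nilpotent (θ : F ≃+* F) (g : GL C.Idx F)
    (h : IsNilpotent ((g : Matrix C.Idx C.Idx F) - 1)) :
    IsNilpotent (((D.sgl θ g : GL C.Idx F) : Matrix C.Idx C.Idx F) - 1) := by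
  have h1 : ((D.sgl θ g : GL C.Idx F) : Matrix C.Idx C.Idx F) - 1 =
      ((D.gmat F : GL C.Idx F) : Matrix C.Idx C.Idx F) *
        ((θ : F →+* F).mapMatrix ((g : Matrix C.Idx C.Idx F) - 1)) *
        (((D.gmat F)⁻¹ : GL C.Idx F) : Matrix C.Idx C.Idx F) := by
    rw [Dg.sgl_apply, Units.val_mul, Units.val_mul, SLC.mp_val, map_sub, map_one, mul_sub, sub_mul,
      mul_one, Units.mul_inv]
    rfl
  rw [h1]
  obtain ⟨k, hk⟩ := h
  refine ⟨k, ?_⟩
  rw [Units.conj_pow, ← map_pow, hk, map_zero, mul_zero, zero_mul]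

theorem sgl_Gad (θ : F ≃+* F) (g : GL C.Idx F) (hg : g ∈ C.Gad F) : D.sgl θ g ∈ C.Gad F := by
  have h1 : C.Gad F ≤ (C.Gad F).comap (D.sgl θ) := by
    conv_lhs => unfold SLC.Gad
    rw [Subgroup.closure_le]
    rintro x ⟨p, rfl⟩
    change D.sgl θ (C.xg F p.1 p.2) ∈ C.Gad F
    have h2 := isSig_adS D θ p.1 p.2
    change D.sgl θ (C.xg F p.1 p.2) = C.xg F (D.r p.1) ((D.sg p.1 : F) * θ p.2) at h2
    rw [h2]
    exact Subgroup.subset_closure ⟨(D.r p.1, (D.sg p.1 : F) * θ p.2), rfl⟩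
  exact h1 hg

theorem sgl_mp {F' : Type*} [Field F'] (θ : F ≃+* F) (θ' : F' ≃+* F') (f : F →+* F')
    (h : ∀ t, f (θ t) = θ' (f t)) (g : GL C.Idx F) :
    C.mp f (D.sgl θ g) = D.sgl θ' (C.mp f g) := by
  apply Units.ext
  apply D7_ext D
  intro a b
  rw [D7_entry, SLC.mp_val, SLC.mp_val, Matrix.map_apply, D7_entry, Matrix.map_apply, map_mul,
    map_mul, map_intCast, map_intCast, h]

theorem sgl_injective (θ : F ≃+* F) : Function.Injective (D.sgl (C := C) θ) := by
  intro g g' hg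
  apply Units.ext
  ext a b
  have h1 := congrArg (fun x : GL C.Idx F => (x : Matrix C.Idx C.Idx F) (D7_p D a) (D7_p D b)) hg
  simp only [D7_entry] at h1
  have ha := D7_s_cast (R := F) D a
  have hb := D7_s_cast (R := F) D b
  apply θ.injective
  linear_combination ((D7_s D a : F) * (D7_s D b : F)) * h1 -
    (D7_s D b : F) * (D7_s D b : F) * (θ ((g : Matrix C.Idx C.Idx F) a b) -
      θ ((g' : Matrix C.Idx C.Idx F) a b)) * ha -
    (θ ((g : Matrix C.Idx C.Idx F) a b) - θ ((g' : Matrix C.Idx C.Idx F) a b)) * hb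

end

theorem lift_sig {n : ℕ} {C : SLC n} (D : Dg C) {F : Type u} [Field F] (θ : F ≃+* F)
    (g : GU C F) : GU.lift (C.adS F) (D.sig θ g) = D.sgl θ (GU.lift (C.adS F) g) := by
  have h : (GU.lift (C.adS F)).comp (D.sig θ) = (D.sgl θ).comp (GU.lift (C.adS F)) := by
    apply GU.hom_ext
    intro β t
    rw [MonoidHom.comp_apply, MonoidHom.comp_apply, GU.lift_x]
    have h1 := isSig_GU D θ β t
    change D.sig θ (GU.x C F β t) = GU.x C F (D.r β) ((D.sg β : F) * θ t) at h1
    rw [h1, GU.lift_x]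
    exact (isSig_adS D θ β t).symm
  exact DFunLike.congr_fun h g

end Pool.Agent.H75.UL
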