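import Pool.Agent.H75.UT.D2
import Pool.Agent.H75.UL.T7
import Pool.Agent.H75.UL.T3

/-!
# Project UT, module D8u

`bruhat_unique`: from `u₁ ν₁ = u₂ ν₂ b` we get `(u₂⁻¹ u₁) ν₁ = ν₂ b`; compare the columns `inr γ`
(`N_mono`): on the left a multiple of `(u₂⁻¹ u₁) e_{w₁ γ}`, with coordinate `0` at all basis vectors of
height `< ht (w₁ γ)`; on the right the coordinate at `inr (w₂ γ)` is the product of the nonzero entry
of `ν₂` and `b γ γ ≠ 0` (`chi_ne_zero`; only `e_γ` is mapped to a multiple of `e_{w₂ γ}`). So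
`ht (w₁ γ) ≤ ht (w₂ γ)` for all `γ`, and as both sums over all roots are equal (reindex), equality
holds. So `w₂ w₁⁻¹` preserves heights and is `1` (`eq_one_of_pos`). `U_inf_Um`: `Fil_U`, and the
analogous statement for `Um` (entries at `(a, b)` with `hti a ≥ hti b` are those of `1`).
-/

set_option autoImplicit false
open Matrix
universe u
namespace Pool.Agent.H75.UL

section
variable {n : ℕ} {C : SLC n} {F : Type*} [Field F]

private theorem D8u_E (α : C.Root) (a b : C.Idx) (h : C.hti a ≠ C.hti b + ht α.1) :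
    C.E α a b = 0 := by
  rcases a with i | γ <;> rcases b with j | β
  · rfl
  · simp only [SLC.E]
    rw [if_neg]
    intro h1
    apply h
    simp only [SLC.hti, Sum.elim_inl, Sum.elim_inr]
    rw [h1, ht_neg]
    omega
  · simp only [SLC.E]
    rw [if_neg]
    intro h1
    apply h
    simp only [SLC.hti, Sum.elim_inl, Sum.elim_inr]
    rw [h1]
    omega
  · simp only [SLC.E]
    rw [if_neg]
    intro h1
    apply h
    simp only [SLC.hti, Sum.elim_inr]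
    rw [h1, ht_add]
    omega

private theorem D8u_F (α : C.Root) (a b : C.Idx) (h : C.hti a ≠ C.hti b + 2 * ht α.1) :
    C.F α a b = 0 := by
  rcases a with i | γ <;> rcases b with j | β
  · rfl
  · rfl
  · rfl
  · simp only [SLC.F]
    rw [if_neg]
    rintro ⟨h1, h2⟩
    apply h
    simp only [SLC.hti, Sum.elim_inr]
    rw [h1, h2, ht_neg]
    omega

/-- Matrices that lower the height. -/
private def D8u_P (M : Matrix C.Idx C.Idx F) : Prop :=
  ∀ a b, C.hti b ≤ C.hti a → M a b = 0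

private theorem D8u_P_add {M N : Matrix C.Idx C.Idx F} (hM : D8u_P M) (hN : D8u_P N) :
    D8u_P (M + N) := by
  intro a b h
  rw [Matrix.add_apply, hM a b h, hN a b h, add_zero]

private theorem D8u_P_mul {M N : Matrix C.Idx C.Idx F} (hM : D8u_P M) (hN : D8u_P N) :
    D8u_P (M * N) := by
  intro a b h
  rw [Matrix.mul_apply]
  refine Finset.sum_eq_zero fun c _ => ?_
  by_cases h1 : C.hti c ≤ C.hti a
  · rw [hM a c h1, zero_mul]
  · rw [hN c b (by omega), mul_zero]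

private theorem D8u_P_X (β : C.Root) (hβ : ht β.1 < 0) (t : F) :
    D8u_P (C.X F β t - 1) := by
  intro a b h
  have h1 : C.X F β t - 1 =
      t • (C.E β).map (Int.cast : ℤ → F) + t ^ 2 • (C.F β).map (Int.cast : ℤ → F) := by
    unfold SLC.X
    abel
  rw [h1, Matrix.add_apply, Matrix.smul_apply, Matrix.smul_apply, Matrix.map_apply,
    Matrix.map_apply, D8u_E β a b (by omega), D8u_F β a b (by omega)]
  simp

private theorem D8u_P_mulg (A B : Matrix C.Idx C.Idx F) (hA : D8u_P (A - 1)) (hB : D8u_P (B - 1)) :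
    D8u_P (A * B - 1) := by
  have h : A * B - 1 = (A - 1) * (B - 1) + (A - 1) + (B - 1) := by
    rw [sub_mul, mul_sub, mul_one, one_mul]
    abel
  rw [h]
  exact D8u_P_add (D8u_P_add (D8u_P_mul hA hB) hA) hB

private theorem D8u_Um (g : GL C.Idx F) (hg : g ∈ (C.adS F).Um) :
    D8u_P ((g : Matrix C.Idx C.Idx F) - 1) ∧
      D8u_P (((g⁻¹ : GL C.Idx F) : Matrix C.Idx C.Idx F) - 1) := by
  unfold StSys.Um at hg
  induction hg using Subgroup.closure_induction with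
  | mem g hg =>
    obtain ⟨β, t, hβ, rfl⟩ := hg
    exact ⟨D8u_P_X β hβ t, D8u_P_X β hβ (-t)⟩
  | one =>
    rw [inv_one, Units.val_one, sub_self]
    exact ⟨fun _ _ _ => rfl, fun _ _ _ => rfl⟩
  | mul x y _ _ hx hy =>
    rw [_root_.mul_inv_rev, Units.val_mul, Units.val_mul]
    exact ⟨D8u_P_mulg _ _ hx.1 hy.1, D8u_P_mulg _ _ hy.2 hx.2⟩
  | inv x _ hx =>
    rw [inv_inv]
    exact ⟨hx.2, hx.1⟩

private theorem D8u_ht_le (v ν₁ ν₂ b : GL C.Idx F) (w₁ w₂ : Equiv.Perm C.Root)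
    (hv : v ∈ (C.adS F).U 1) (hν₁ : ν₁ ∈ (C.adS F).N)
    (hν₂ : ν₂ ∈ (C.adS F).N) (h₁ : (C.adS F).Acts ν₁ w₁) (h₂ : (C.adS F).Acts ν₂ w₂)
    (hb : b ∈ C.Gad F) (hb0 : C.Fil 0 (b : Matrix C.Idx C.Idx F))
    (h : v * ν₁ = ν₂ * b) (γ : C.Root) : ht (w₁ γ).1 ≤ ht (w₂ γ).1 := by
  obtain ⟨-, p1, p2, p3, p4⟩ := C.N_mono ν₁ w₁ h₁ hν₁
  obtain ⟨-, q1, q2, q3, q4⟩ := C.N_mono ν₂ w₂ h₂ hν₂
  have e1 := congrArg (fun g : GL C.Idx F => (g : Matrix C.Idx C.Idx F) (Sum.inr (w₂ γ))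
    (Sum.inr γ)) h
  simp only [Units.val_mul] at e1
  rw [Matrix.mul_apply, Matrix.mul_apply] at e1
  have hL : ∑ a, (v : Matrix C.Idx C.Idx F) (Sum.inr (w₂ γ)) a *
      (ν₁ : Matrix C.Idx C.Idx F) a (Sum.inr γ) =
      (v : Matrix C.Idx C.Idx F) (Sum.inr (w₂ γ)) (Sum.inr (w₁ γ)) *
        (ν₁ : Matrix C.Idx C.Idx F) (Sum.inr (w₁ γ)) (Sum.inr γ) := by
    refine Finset.sum_eq_single (Sum.inr (w₁ γ)) ?_ ?_
    · intro a _ hne
      rcases a with i | δ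
      · rw [p1 i γ, mul_zero]
      · rw [p3 γ δ, mul_zero]
        intro h5
        exact hne (congrArg Sum.inr h5)
    · intro h5
      exact absurd (Finset.mem_univ _) h5
  have hR : ∑ a, (ν₂ : Matrix C.Idx C.Idx F) (Sum.inr (w₂ γ)) a *
      (b : Matrix C.Idx C.Idx F) a (Sum.inr γ) =
      (ν₂ : Matrix C.Idx C.Idx F) (Sum.inr (w₂ γ)) (Sum.inr γ) *
        (b : Matrix C.Idx C.Idx F) (Sum.inr γ) (Sum.inr γ) := by
    refine Finset.sum_eq_single (Sum.inr γ) ?_ ?_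
    · intro a _ hne
      rcases a with i | δ
      · rw [q2 i (w₂ γ), zero_mul]
      · rw [q3 δ (w₂ γ), zero_mul]
        intro h5
        exact hne (congrArg Sum.inr (w₂.injective h5.symm))
    · intro h5
      exact absurd (Finset.mem_univ _) h5
  rw [hL, hR] at e1
  have h6 : (ν₂ : Matrix C.Idx C.Idx F) (Sum.inr (w₂ γ)) (Sum.inr γ) *
        (b : Matrix C.Idx C.Idx F) (Sum.inr γ) (Sum.inr γ) ≠ 0 :=
    mul_ne_zero (q4 γ) (C.chi_ne_zero b hb hb0 γ)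
  rw [← e1] at h6
  have h7 := left_ne_zero_of_mul h6
  by_contra hcon
  apply h7
  refine C.Fil_U_zero v hv _ _ ?_
  show ht (w₂ γ).1 < ht (w₁ γ).1 + 0
  omega

/-- Uniqueness of the Weyl group element in Bruhat's decomposition. -/
theorem bruhat_unique (u₁ u₂ ν₁ ν₂ b : GL C.Idx F) (w₁ w₂ : Equiv.Perm C.Root)
    (hu₁ : u₁ ∈ (C.adS F).U 1) (hu₂ : u₂ ∈ (C.adS F).U 1) (hν₁ : ν₁ ∈ (C.adS F).N)
    (hν₂ : ν₂ ∈ (C.adS F).N) (h₁ : (C.adS F).Acts ν₁ w₁) (h₂ : (C.adS F).Acts ν₂ w₂)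
    (hb : b ∈ C.Gad F) (hb0 : C.Fil 0 (b : Matrix C.Idx C.Idx F))
    (h : u₁ * ν₁ = u₂ * ν₂ * b) : w₁ = w₂ := by
  have hv : u₂⁻¹ * u₁ ∈ (C.adS F).U 1 := Subgroup.mul_mem _ (Subgroup.inv_mem _ hu₂) hu₁
  have hvn : (u₂⁻¹ * u₁) * ν₁ = ν₂ * b := by
    rw [mul_assoc, h]
    group
  have hle := D8u_ht_le (u₂⁻¹ * u₁) ν₁ ν₂ b w₁ w₂ hv hν₁ hν₂ h₁ h₂ hb hb0 hvn
  have hs1 : ∑ γ : C.Root, ht (w₁ γ).1 = ∑ γ : C.Root, ht γ.1 :=
    Equiv.sum_comp w₁ (fun γ : C.Root => ht γ.1)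
  have hs2 : ∑ γ : C.Root, ht (w₂ γ).1 = ∑ γ : C.Root, ht γ.1 :=
    Equiv.sum_comp w₂ (fun γ : C.Root => ht γ.1)
  have heq : ∀ γ : C.Root, ht (w₁ γ).1 = ht (w₂ γ).1 := by
    have h1 := (Finset.sum_eq_sum_iff_of_le (s := Finset.univ)
      (f := fun γ : C.Root => ht (w₁ γ).1) (g := fun γ : C.Root => ht (w₂ γ).1)
      (fun γ _ => hle γ)).1 (hs1.trans hs2.symm)
    exact fun γ => h1 γ (Finset.mem_univ γ)
  have hw₁ := (C.N_mono ν₁ w₁ h₁ hν₁).1
  have hw₂ := (C.N_mono ν₂ w₂ h₂ hν₂).1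
  have h3 : w₂ * w₁⁻¹ = 1 := by
    refine C.eq_one_of_pos _ (Subgroup.mul_mem _ hw₂ (Subgroup.inv_mem _ hw₁)) fun i => ?_
    have h4 := heq (w₁⁻¹ (C.simple i))
    rw [← Equiv.Perm.mul_apply, mul_inv_cancel, Equiv.Perm.one_apply] at h4
    show 0 < ht ((w₂ * w₁⁻¹) (C.simple i)).1
    rw [Equiv.Perm.mul_apply, ← h4]
    exact C.simple_pos i
  exact (mul_inv_eq_one.1 h3).symm

theorem U_inf_Um (g : GL C.Idx F) (h1 : g ∈ (C.adS F).U 1) (h2 : g ∈ (C.adS F).Um) : g = 1 := by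
  apply Units.ext
  ext a b
  rw [Units.val_one]
  have h3 := C.Fil_U 1 le_rfl g h1
  have h4 := (D8u_Um g h2).1
  have h5 : ((g : Matrix C.Idx C.Idx F) - 1) a b = 0 := by
    by_cases hab : C.hti b ≤ C.hti a
    · exact h4 a b hab
    · exact h3 a b (by omega)
  rw [Matrix.sub_apply, sub_eq_zero] at h5
  exact h5

end

end Pool.Agent.H75.UL
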