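import Pool.Agent.H75.UT.D6a
import Pool.Agent.H75.UT.D7
import Pool.Agent.H75.UT.D8u
import Pool.Agent.H75.UL.S4

/-!
# Project UT, module D8

`σ`-stable chambers.

`g ∈ Gad F`, `g⁻¹ σ(g)` upper triangular: then `g = g₁ b`, `g₁ ∈ E = Eg (adS F) (sgl θ)`, `b` upper
triangular. Bruhat (`StSys.bruhat` for `adS`, `gen_adS`) and `exists_lp_inv`: `g = u ν b`, `u = lp t`,
`ν ∈ N` acting by `w`, `b ∈ U 1`, `t β = 0` if `Pos (w⁻¹ β)`. `σ(g) = σ(u) σ(ν) σ(b)`, `σ(ν)` acts by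
`w' = rE w rE⁻¹` (`isSig_adS`, `IsSig.acts`). (1) `w' = w`: `σ(u) σ(ν) = u ν (b (g⁻¹ σ(g)) σ(b)⁻¹)` and
`bruhat_unique` (`upper_inv`, `Fil_U_zero`). (2) By `exists_nW` there is `ν₁ ∈ N ∩ E` acting by `w`;
`ν = ν₁ τ` with `τ ∈ T` (`N_one` for `ν₁⁻¹ ν`, `Acts_mul`, `Acts_inv`), so we may take `ν = ν₁`
(`b` replaced by `τ b`, upper triangular in `Gad`), `σ(ν) = ν` (`Eg_le_fix`). Then
`z := ν⁻¹ (u⁻¹ σ(u)) ν` is upper triangular and unipotent (`Fil_U`: `u⁻¹ σ(u) ∈ U 1`), so in `U 1`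
(`mem_U_of_unipotent`). (3) `z = (ν⁻¹ u ν)⁻¹ (ν⁻¹ σ(u) ν)` and both factors are in `Um`: `u` is a product
of `x_β(t β)` with `w⁻¹ β` negative, so is `σ(u)` (`w⁻¹ (r β) = r (w⁻¹ β)`), and `ν⁻¹ x_β ν` is a root
element for `w⁻¹ β`. So `z = 1` (`U_inf_Um`), `σ(u) = u`, `u ∈ fixU`, `g₁ = u ν`.
-/

set_option autoImplicit false
open Matrix
universe u
namespace Pool.Agent.H75.UL

section
variable {n : ℕ} {C : SLC n} (D : Dg C) {F : Type*} [Field F]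

private theorem D8_mul {K : Type*} [Field K] (g h : GL C.Idx K)
    (hg : C.Fil 0 (g : Matrix C.Idx C.Idx K)) (hh : C.Fil 0 (h : Matrix C.Idx C.Idx K)) :
    C.Fil 0 ((g * h : GL C.Idx K) : Matrix C.Idx C.Idx K) := by
  have h1 := C.Fil_mul hg hh
  rw [add_zero] at h1
  rw [Units.val_mul]
  exact h1

private theorem D8_nil {K : Type*} [Field K] (M : Matrix C.Idx C.Idx K) (hM : C.Fil 1 M) :
    IsNilpotent M := by
  obtain ⟨m₀, hm₀⟩ := C.exists_Fil_eq_zero' K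
  have key : ∀ k : ℕ, C.Fil (k : ℤ) (M ^ k) := by
    intro k
    induction k with
    | zero =>
      rw [pow_zero]
      exact C.Fil_one
    | succ k ih =>
      rw [pow_succ]
      have h1 := C.Fil_mul ih hM
      push_cast
      exact h1
  exact ⟨m₀.toNat, hm₀ _ (C.Fil_mono (Int.self_le_toNat m₀) (key m₀.toNat))⟩

private theorem D8_conj_nil {K : Type*} [Field K] (x ν : GL C.Idx K)
    (h : IsNilpotent ((x : Matrix C.Idx C.Idx K) - 1)) :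
    IsNilpotent (((ν⁻¹ * x * ν : GL C.Idx K) : Matrix C.Idx C.Idx K) - 1) := by
  obtain ⟨k, hk⟩ := h
  refine ⟨k, ?_⟩
  have h1 : ∀ j : ℕ, (((ν⁻¹ * x * ν : GL C.Idx K) : Matrix C.Idx C.Idx K) - 1) ^ j =
      ((ν⁻¹ : GL C.Idx K) : Matrix C.Idx C.Idx K) * ((x : Matrix C.Idx C.Idx K) - 1) ^ j *
        (ν : Matrix C.Idx C.Idx K) := by
    intro j
    induction j with
    | zero =>
      rw [pow_zero, pow_zero, mul_one, ← Units.val_mul, inv_mul_cancel, Units.val_one]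
    | succ j ih =>
      have e : ((ν⁻¹ * x * ν : GL C.Idx K) : Matrix C.Idx C.Idx K) - 1 =
          ((ν⁻¹ : GL C.Idx K) : Matrix C.Idx C.Idx K) * ((x : Matrix C.Idx C.Idx K) - 1) *
            (ν : Matrix C.Idx C.Idx K) := by
        rw [mul_sub, sub_mul, mul_one, Units.val_mul, Units.val_mul, ← Units.val_mul ν⁻¹ ν,
          inv_mul_cancel, Units.val_one]
      have e2 : (ν : Matrix C.Idx C.Idx K) * ((ν⁻¹ : GL C.Idx K) : Matrix C.Idx C.Idx K) = 1 := by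
        rw [← Units.val_mul, mul_inv_cancel, Units.val_one]
      rw [pow_succ, ih, e, pow_succ]
      simp only [mul_assoc]
      rw [← mul_assoc (ν : Matrix C.Idx C.Idx K) _ _, e2, one_mul]
  rw [h1, hk, mul_zero, zero_mul]

/-- The elements whose conjugate by `ν` is in `Um`. -/
private noncomputable def D8_V (S : StSys C F (GL C.Idx F)) (ν : GL C.Idx F) : Subgroup (GL C.Idx F) :=
  S.Um.comap (MulAut.conj ν⁻¹).toMonoidHom

private theorem D8_mem (S : StSys C F (GL C.Idx F)) (ν x : GL C.Idx F) :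
    x ∈ D8_V S ν ↔ ν⁻¹ * x * ν ∈ S.Um := by
  unfold D8_V
  rw [Subgroup.mem_comap]
  change ν⁻¹ * x * ν⁻¹⁻¹ ∈ S.Um ↔ _
  rw [inv_inv]

private theorem D8_root (S : StSys C F (GL C.Idx F)) (ν : GL C.Idx F) (w : Equiv.Perm C.Root)
    (hw : S.Acts ν w) (β : C.Root) (t : F) (h : ¬ C.Pos (w⁻¹ β)) : S.x β t ∈ D8_V S ν := by
  rw [D8_mem]
  obtain ⟨c, -, hc⟩ := C.Acts_inv S ν w hw
  have h1 := hc β t
  rw [inv_inv] at h1
  rw [h1]
  refine Subgroup.subset_closure ⟨w⁻¹ β, c β * t, ?_, rfl⟩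
  have h2 := C.ht_ne_zero (w⁻¹ β)
  unfold SLC.Pos at h
  omega

theorem sigma_chamber (θ : F ≃+* F) (hθ : ∀ t, (⇑θ)^[D.m] t = t)
    (hA : D.NA ∨ ∃ e, e ≠ 0 ∧ θ e = -e) (g : GL C.Idx F) (hg : g ∈ C.Gad F)
    (h : C.Fil 0 ((g⁻¹ * D.sgl θ g : GL C.Idx F) : Matrix C.Idx C.Idx F)) :
    ∃ g₁ ∈ Eg (C.adS F) (D.sgl θ),
      C.Fil 0 ((g₁⁻¹ * g : GL C.Idx F) : Matrix C.Idx C.Idx F) := by
  have hsig : IsSig D θ (C.adS F) (D.sgl θ) := isSig_adS D θ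
  set S := C.adS F with hS
  have hUG : ∀ x, x ∈ S.U 1 → x ∈ C.Gad F := by
    intro x hx
    rw [← C.gen_adS]
    exact S.U_le_gen 1 hx
  have hNG : ∀ x, x ∈ S.N → x ∈ C.Gad F := by
    intro x hx
    rw [← C.gen_adS]
    exact S.N_le_gen hx
  obtain ⟨u₀, hu₀, ν₀, hν₀, v₀, hv₀, hguv⟩ := S.bruhat g (by rw [C.gen_adS]; exact hg)
  obtain ⟨w, hw, hact, -⟩ := S.N_acts ν₀ hν₀
  obtain ⟨t, ht, b₀, hb₀, hlp⟩ := S.exists_lp_inv ν₀ w hact u₀ hu₀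
  set u : GL C.Idx F := S.lp C.posList t with hu
  have huU : u ∈ S.U 1 := by
    refine Subgroup.list_prod_mem _ ?_
    intro y hy
    obtain ⟨β, hβ, rfl⟩ := List.mem_map.1 hy
    refine Subgroup.subset_closure ⟨β, t β, ?_, rfl⟩
    have := (C.mem_posList β).1 hβ
    unfold SLC.Pos at this
    omega
  set b₁ : GL C.Idx F := b₀ * v₀ with hb₁
  have hb₁U : b₁ ∈ S.U 1 := mul_mem hb₀ hv₀
  have hg1 : g = u * ν₀ * b₁ := by
    rw [hguv, hlp, hb₁, mul_assoc _ b₀ v₀]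
  set c : GL C.Idx F := g⁻¹ * D.sgl θ g with hc
  have hcG : c ∈ C.Gad F := mul_mem (inv_mem hg) (sgl_Gad D θ g hg)
  -- the Weyl group element commutes with the diagram automorphism
  have hr : D.rE * w * D.rE⁻¹ = w := by
    refine bruhat_unique (D.sgl θ u) u (D.sgl θ ν₀) ν₀ (b₁ * c * (D.sgl θ b₁)⁻¹) _ _
      (hsig.map_U 1 u huU) huU (hsig.map_N ν₀ hν₀) hν₀ (hsig.acts ν₀ w hact) hact ?_ ?_ ?_
    · exact mul_mem (mul_mem (hUG _ hb₁U) hcG) (inv_mem (hUG _ (hsig.map_U 1 b₁ hb₁U)))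
    · refine D8_mul _ _ (D8_mul _ _ (C.Fil_U_zero b₁ hb₁U) h) ?_
      exact C.Fil_U_zero _ (inv_mem (hsig.map_U 1 b₁ hb₁U))
    · rw [hc]
      conv_rhs => rw [hg1]
      rw [map_mul, map_mul]
      group
  -- replace the monomial element by a fixed one
  obtain ⟨ν, ⟨hνN, hνE⟩, hνact⟩ := exists_nW hsig hθ hA w hw hr
  have hτT : ν⁻¹ * ν₀ ∈ S.T := by
    refine C.N_one _ ?_ (mul_mem (inv_mem hνN) hν₀)
    have h1 := C.Acts_mul S ν⁻¹ ν₀ w⁻¹ w (C.Acts_inv S ν w hνact) hact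
    rw [inv_mul_cancel] at h1
    exact h1
  set b : GL C.Idx F := ν⁻¹ * ν₀ * b₁ with hb
  have hbG : b ∈ C.Gad F := mul_mem (mul_mem (inv_mem (hNG _ hνN)) (hNG _ hν₀)) (hUG _ hb₁U)
  have hb0 : C.Fil 0 (b : Matrix C.Idx C.Idx F) :=
    D8_mul _ _ (C.Fil_T _ hτT) (C.Fil_U_zero b₁ hb₁U)
  have hg2 : g = u * ν * b := by
    rw [hg1, hb]
    group
  have hνfix : D.sgl θ ν = ν := Eg_le_fix S (D.sgl θ) ν hνE
  -- the element `z`
  have hz : ν⁻¹ * (u⁻¹ * D.sgl θ u) * ν = b * c * (D.sgl θ b)⁻¹ := by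
    rw [hc]
    conv_rhs => rw [hg2]
    rw [map_mul, map_mul, hνfix]
    group
  have hσb0 : C.Fil 0 ((D.sgl θ b : GL C.Idx F) : Matrix C.Idx C.Idx F) :=
    (sgl_Fil D θ 0 b).2 hb0
  have hz0 : C.Fil 0 ((ν⁻¹ * (u⁻¹ * D.sgl θ u) * ν : GL C.Idx F) : Matrix C.Idx C.Idx F) := by
    rw [hz]
    exact D8_mul _ _ (D8_mul _ _ hb0 h) (C.upper_inv _ (sgl_Gad D θ b hbG) hσb0)
  have huσ : u⁻¹ * D.sgl θ u ∈ S.U 1 := mul_mem (inv_mem huU) (hsig.map_U 1 u huU)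
  have hzU : ν⁻¹ * (u⁻¹ * D.sgl θ u) * ν ∈ S.U 1 := by
    refine C.mem_U_of_unipotent _ ?_ hz0 ?_
    · exact mul_mem (mul_mem (inv_mem (hNG _ hνN)) (hUG _ huσ)) (hNG _ hνN)
    · exact D8_conj_nil _ _ (D8_nil _ (C.Fil_U 1 le_rfl _ huσ))
  have hu1 : u ∈ D8_V S ν := by
    refine Subgroup.list_prod_mem _ ?_
    intro y hy
    obtain ⟨β, hβ, rfl⟩ := List.mem_map.1 hy
    by_cases hp : C.Pos (w⁻¹ β)
    · rw [ht β hp, S.x_zero]
      exact one_mem _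
    · exact D8_root S ν w hνact β _ hp
  have hu2 : D.sgl θ u ∈ D8_V S ν := by
    rw [hu]
    unfold StSys.lp
    rw [map_list_prod, List.map_map]
    refine Subgroup.list_prod_mem _ ?_
    intro y hy
    obtain ⟨β, hβ, rfl⟩ := List.mem_map.1 hy
    rw [Function.comp_apply, hsig β (t β)]
    by_cases hp : C.Pos (w⁻¹ β)
    · rw [ht β hp, map_zero, mul_zero, S.x_zero]
      exact one_mem _
    · refine D8_root S ν w hνact _ _ ?_
      have h1 : w⁻¹ (D.r β) = D.r (w⁻¹ β) := by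
        rw [Equiv.Perm.inv_eq_iff_eq]
        have h2 : (D.rE * w * D.rE⁻¹) (D.r (w⁻¹ β)) = w (D.r (w⁻¹ β)) := by rw [hr]
        rw [← h2]
        change D.r β = D.rE (w (D.rE⁻¹ (D.rE (w⁻¹ β))))
        have h3 : D.rE⁻¹ (D.rE (w⁻¹ β)) = w⁻¹ β := D.rE.symm_apply_apply _
        have h4 : w (w⁻¹ β) = β := w.apply_symm_apply β
        rw [h3, h4]
        rfl
      rw [h1, D.r_pos]
      exact hp
  have hzV : u⁻¹ * D.sgl θ u ∈ D8_V S ν := mul_mem (inv_mem hu1) hu2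
  rw [D8_mem] at hzV
  have hz1 := U_inf_Um _ hzU hzV
  have hufix : D.sgl θ u = u := by
    have h1 : u⁻¹ * D.sgl θ u = 1 := by
      have h2 : ν * (ν⁻¹ * (u⁻¹ * D.sgl θ u) * ν) * ν⁻¹ = ν * 1 * ν⁻¹ := by rw [hz1]
      rw [mul_one, mul_inv_cancel] at h2
      rw [← h2]
      group
    exact (inv_mul_eq_one.1 h1).symm
  refine ⟨u * ν, mul_mem (Subgroup.mem_sup_left ⟨huU, hufix⟩) hνE, ?_⟩
  have h1 : (u * ν)⁻¹ * g = b := by
    rw [hg2]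
    group
  rw [h1]
  exact hb0

end

end Pool.Agent.H75.UL
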