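import Pool.Agent.H75.UL.C1
import Pool.Agent.H75.UL.M0

/-!
# Project UT (MP_978914_al): diagram automorphisms, twisted and folded groups. Definitions.

* `Dg C`: a diagram automorphism `ρ` of order at most `3`; `D.r` its action on the roots, `D.sg β = ±1`
  the sign `eta` of module C0 (`1` on the simple roots and their negatives).
* `IsSig D θ S s`: `s` is an endomorphism of `H` with `s (x_β(t)) = x_{ρβ}(± θ(t))`.
* `D.sig θ`: the automorphism `σ` of the universal group; `D.sgl θ`: the same on `GL`.
* `S.Um`: the subgroup `U⁻`; `fixU`, `fixUm`: the fixed points of `s` in `U⁺`, `U⁻`;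
  `Eg S s` the subgroup generated by them.
* `D.Orb`: the orbits of `ρ` on the simple roots.
-/

set_option autoImplicit false

open Matrix

universe u

namespace Pool.Agent.H75.UL

/-- A diagram automorphism `ρ` of order at most three. -/
structure Dg {n : ℕ} (C : SLC n) where
  ρ : Equiv.Perm (Fin n)
  hρ : ∀ i j, C.A (ρ i) (ρ j) = C.A i j
  ord : orderOf ρ ≤ 3

namespace Dg
variable {n : ℕ} {C : SLC n} (D : Dg C)

/-- The action of `ρ` on the roots. -/
def r (β : C.Root) : C.Root := C.rmap D.ρ D.hρ β

/-- The sign in `σ (x_β(t)) = x_{ρβ}(± θ(t))`; it is `1` for simple roots and their negatives. -/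
def sg (β : C.Root) : ℤ := C.eta D.ρ β.1

/-- The orbits of `ρ` on the simple roots. -/
abbrev Orb : Type := Quotient (Equiv.Perm.SameCycle.setoid D.ρ)

theorem r_val (β : C.Root) (i : Fin n) : (D.r β).1 (D.ρ i) = β.1 i := by
  change (C.rmap D.ρ D.hρ β).1 (D.ρ i) = β.1 i
  simp [SLC.rmap, SLC.lmap]

theorem r_val' (β : C.Root) (i : Fin n) : (D.r β).1 i = β.1 (D.ρ.symm i) := rfl

theorem r_simple (i : Fin n) : D.r (C.simple i) = C.simple (D.ρ i) := by
  apply SLC.Root.ext
  exact SLC.lmap_single D.ρ i

theorem r_neg (β : C.Root) : D.r (-β) = -(D.r β) := by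
  apply SLC.Root.ext
  exact SLC.lmap_neg D.ρ β.1

theorem r_injective : Function.Injective D.r := by
  intro β γ h
  apply SLC.Root.ext
  funext i
  have := congrArg (fun δ : C.Root => δ.1 (D.ρ i)) h
  simpa [r_val] using this

/-- `ρ` as a permutation of the roots. -/
noncomputable def rE : Equiv.Perm C.Root :=
  Equiv.ofBijective D.r (Finite.injective_iff_bijective.mp D.r_injective)

@[simp] theorem rE_apply (β : C.Root) : D.rE β = D.r β := rfl

theorem sg_eq (β : C.Root) : D.sg β = 1 ∨ D.sg β = -1 := by
  unfold sg SLC.eta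
  rcases Int.units_eq_one_or (C.qq D.ρ β.1).negOnePow with h | h <;> simp [h]

theorem sg_simple (i : Fin n) : D.sg (C.simple i) = 1 := C.eta_single D.ρ i

theorem sg_neg (β : C.Root) : D.sg (-β) = D.sg β := C.eta_neg D.ρ β.1

theorem sg_sq (β : C.Root) : D.sg β * D.sg β = 1 := C.eta_sq D.ρ β.1

end Dg

section sig
variable {n : ℕ} {C : SLC n} (D : Dg C) {K : Type*} [Field K] {H : Type*} [Group H]

/-- `s` is an endomorphism of the group `H` which acts on the root elements as `σ`. -/
def IsSig (θ : K ≃+* K) (S : StSys C K H) (s : H →* H) : Prop :=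
  ∀ β t, s (S.x β t) = S.x (D.r β) ((D.sg β : K) * θ t)

theorem twx_one (S : StSys C K H) (β : C.Root) (t : K) :
    S.twx 1 D.ρ D.hρ (fun _ => 1) β t = S.x (D.r β) ((D.sg β : K) * t) := by
  unfold StSys.twx
  simp [Dg.r, Dg.sg]

/-- The system `x_{ρβ}(± θ(t))`. -/
def sgs (θ : K ≃+* K) (S : StSys C K H) : StSys C K H where
  x := fun β t => S.x (D.r β) ((D.sg β : K) * θ t)
  map_add := by
    intro β s t
    simp only [← twx_one, _root_.map_add]
    exact S.twx_map_add 1 D.ρ D.hρ _ β _ _
  comm := by
    intro α β s t h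
    simp only [← twx_one]
    exact S.twx_comm 1 D.ρ D.hρ _ α β _ _ h
  comm_add := by
    intro α β γ s t h
    simp only [← twx_one]
    rw [S.twx_comm_add 1 D.ρ D.hρ (fun _ => 1) (fun _ => one_ne_zero) α β γ _ _ h]
    simp
  n_conj := by
    intro α t u ht
    have h := S.twx_n_conj 1 D.ρ D.hρ (fun _ => 1) (fun _ => one_ne_zero) α (θ t) (θ u)
      (by simpa using ht)
    simp only [nn, twx_one] at h ⊢
    simpa using h
  h_mul := by
    intro α s t hs ht
    have h := S.twx_h_mul 1 D.ρ D.hρ (fun _ => 1) (fun _ => one_ne_zero) α (θ s) (θ t)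
      (by simpa using hs) (by simpa using ht)
    simp only [hh, nn, twx_one] at h ⊢
    simpa using h

end sig

section sigGU
variable {n : ℕ} {C : SLC n} (D : Dg C) {K : Type u} [Field K]

/-- The automorphism `σ` of the universal group: `x_β(t) ↦ x_{ρβ}(± θ(t))`. -/
def Dg.sig (θ : K ≃+* K) : GU C K →* GU C K := GU.lift (sgs D θ (GU.sys C K))

theorem isSig_GU (θ : K ≃+* K) : IsSig D θ (GU.sys C K) (D.sig θ) :=
  fun β t => GU.lift_x _ β t

end sigGU

section sigGL
variable {n : ℕ} {C : SLC n} (D : Dg C) (R : Type*) [CommRing R]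

/-- The signed permutation matrix of `ρ` on the adjoint module. -/
def Dg.mat : Matrix C.Idx C.Idx R := fun a b =>
  match a, b with
  | Sum.inl i, Sum.inl j => if i = D.ρ j then 1 else 0
  | Sum.inr γ, Sum.inr β => if γ = D.r β then (D.sg β : R) else 0
  | _, _ => 0

theorem Dg.mat_mul_transpose : D.mat R * (D.mat R)ᵀ = 1 := by
  classical
  ext a b
  rw [Matrix.mul_apply, Fintype.sum_sum_type]
  have hsq : ∀ β : C.Root, (D.sg β : R) * (D.sg β : R) = 1 := fun β => by
    rw [← Int.cast_mul, D.sg_sq]
    simp
  rcases a with i | γ <;> rcases b with j | δ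
  · simp only [mat, Matrix.transpose_apply, mul_zero, Finset.sum_const_zero, add_zero]
    by_cases h : i = j
    · subst h
      rw [Finset.sum_eq_single (D.ρ.symm i)]
      · simp
      · intro k _ hk
        rw [if_neg, zero_mul]
        rintro rfl
        exact hk (by simp)
      · simp
    · rw [Matrix.one_apply_ne (by simpa using h)]
      apply Finset.sum_eq_zero
      intro k _
      split_ifs with h1 h2
      · exact absurd (h1.trans h2.symm) h
      all_goals simp
  · simp [mat]
  · simp [mat]
  · simp only [mat, Matrix.transpose_apply, mul_zero, Finset.sum_const_zero, zero_add]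
    by_cases h : γ = δ
    · subst h
      rw [Finset.sum_eq_single (D.rE.symm γ)]
      · have h1 : D.r (D.rE.symm γ) = γ := D.rE.apply_symm_apply γ
        simp [h1, hsq]
      · intro k _ hk
        rw [if_neg, zero_mul]
        rintro rfl
        exact hk ((D.rE.symm_apply_apply k).symm)
      · simp
    · rw [Matrix.one_apply_ne (by simpa using h)]
      apply Finset.sum_eq_zero
      intro k _
      split_ifs with h1 h2
      · exact absurd (h1.trans h2.symm) h
      all_goals simp

/-- The matrix of `ρ` as an invertible matrix. -/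
noncomputable def Dg.gmat : GL C.Idx R where
  val := D.mat R
  inv := (D.mat R)ᵀ
  val_inv := D.mat_mul_transpose R
  inv_val := mul_eq_one_comm.mp (D.mat_mul_transpose R)

variable {R}

/-- `σ` on the general linear group of the adjoint module. -/
noncomputable def Dg.sgl (θ : R ≃+* R) : GL C.Idx R →* GL C.Idx R :=
  (MulAut.conj (D.gmat R)).toMonoidHom.comp (C.mp (θ : R →+* R))

theorem Dg.sgl_apply (θ : R ≃+* R) (g : GL C.Idx R) :
    D.sgl θ g = D.gmat R * C.mp (θ : R →+* R) g * (D.gmat R)⁻¹ := rfl

end sigGL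

section fix
variable {n : ℕ} {C : SLC n} {K : Type*} [Field K] {H : Type*} [Group H]

/-- The subgroup `U⁻`, generated by the root elements of negative roots. -/
def StSys.Um (S : StSys C K H) : Subgroup H :=
  Subgroup.closure {g | ∃ (β : C.Root) (t : K), ht β.1 < 0 ∧ g = S.x β t}

/-- The fixed points of `s` in `U⁺`. -/
def fixU (S : StSys C K H) (s : H →* H) : Subgroup H :=
  S.U 1 ⊓ MonoidHom.eqLocus s (MonoidHom.id H)

/-- The fixed points of `s` in `U⁻`. -/
def fixUm (S : StSys C K H) (s : H →* H) : Subgroup H :=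
  S.Um ⊓ MonoidHom.eqLocus s (MonoidHom.id H)

/-- The subgroup generated by the fixed points of `s` in `U⁺` and in `U⁻`. -/
def Eg (S : StSys C K H) (s : H →* H) : Subgroup H := fixU S s ⊔ fixUm S s

end fix

end Pool.Agent.H75.UL
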