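import Pool.Agent.H75.UT.D0
import Pool.Agent.H75.UL.T7

/-!
# Project UT, module D1

The action of `ρ` on the roots.

`r_ht`: reindex the sum (`r_val`). `r_pos`: `Pos β` is `0 < ht β`. `r_ip` is `ip_lmap`, `r_add` is
`lmap_add`. `r_refl`: `refl_val`, `r_ip` and linearity of `lmap`. `W_conj`: closure induction,
`rE * reflE (simple i) * rE⁻¹ = reflE (simple (ρ i))` from `r_refl`, `r_simple`. `r_iter`: induction
on `l`. `r_m`: `pow_orderOf_eq_one`. `r_iter_eq`: `m ≤ 3`; for `m = 3`: `r (r β) = β` implies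
`r β = r (r (r β)) = β`. `sg_add` is `eta_add`. `sgp_m`: the function
`f v = ∏_{j<m} eta ρ (lmap (ρ^j) v)` on the lattice satisfies `f (v + w) * eps v w = f v * f w *
eps (lmap (ρ^m) v) (lmap (ρ^m) w)` (induction on the number of factors, `eta_add`, all values are
`±1`), and `ρ^m = 1`, so `f` is multiplicative; `f (single i) = 1` (`eta_single`); so `f = 1`.
-/

set_option autoImplicit false
open Matrix
universe u
namespace Pool.Agent.H75.UL

namespace Dg
variable {n : ℕ} {C : SLC n} (D : Dg C)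

/-- The order of `ρ`. -/
noncomputable def m : ℕ := orderOf D.ρ

theorem m_cases : D.m = 1 ∨ D.m = 2 ∨ D.m = 3 := by
  have h1 : 0 < D.m := orderOf_pos D.ρ
  have h2 : D.m ≤ 3 := D.ord
  omega

theorem r_ht (β : C.Root) : ht (D.r β).1 = ht β.1 := by
  unfold ht
  exact Equiv.sum_comp D.ρ.symm β.1

theorem r_pos (β : C.Root) : C.Pos (D.r β) ↔ C.Pos β := by
  unfold SLC.Pos
  rw [D.r_ht]

theorem r_ip (α β : C.Root) : C.ip (D.r α).1 (D.r β).1 = C.ip α.1 β.1 :=
  C.ip_lmap D.ρ D.hρ α.1 β.1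

theorem r_add (α β γ : C.Root) (h : γ.1 = α.1 + β.1) : (D.r γ).1 = (D.r α).1 + (D.r β).1 := by
  change SLC.lmap D.ρ γ.1 = SLC.lmap D.ρ α.1 + SLC.lmap D.ρ β.1
  rw [h, SLC.lmap_add]

theorem r_refl (α β : C.Root) : D.r (C.refl α β) = C.refl (D.r α) (D.r β) := by
  apply SLC.Root.ext
  rw [SLC.refl_val, D.r_ip]
  change SLC.lmap D.ρ (C.refl α β).1 = _
  rw [SLC.refl_val]
  rfl

private theorem D1_conj_simple (i : Fin n) :
    D.rE * C.reflE (C.simple i) * D.rE⁻¹ = C.reflE (C.simple (D.ρ i)) := by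
  ext1 γ
  have h : D.r (D.rE⁻¹ γ) = γ := by
    rw [← rE_apply]
    exact D.rE.apply_symm_apply γ
  rw [Equiv.Perm.mul_apply, Equiv.Perm.mul_apply, rE_apply, SLC.reflE_apply, SLC.reflE_apply,
    D.r_refl, D.r_simple, h]

theorem W_conj (w : Equiv.Perm C.Root) (hw : w ∈ C.W) : D.rE * w * D.rE⁻¹ ∈ C.W := by
  unfold SLC.W at hw ⊢
  induction hw using Subgroup.closure_induction with
  | mem x hx =>
    obtain ⟨i, rfl⟩ := hx
    rw [D.D1_conj_simple]
    exact Subgroup.subset_closure ⟨_, rfl⟩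
  | one =>
    rw [mul_one, mul_inv_cancel]
    exact Subgroup.one_mem _
  | mul x y _ _ hx hy =>
    have h : D.rE * (x * y) * D.rE⁻¹ = (D.rE * x * D.rE⁻¹) * (D.rE * y * D.rE⁻¹) := by group
    rw [h]
    exact Subgroup.mul_mem _ hx hy
  | inv x _ hx =>
    have h : D.rE * x⁻¹ * D.rE⁻¹ = (D.rE * x * D.rE⁻¹)⁻¹ := by group
    rw [h]
    exact Subgroup.inv_mem _ hx

theorem r_iter (l : ℕ) (β : C.Root) : (D.r^[l] β).1 = SLC.lmap (D.ρ ^ l) β.1 := by
  induction l with
  | zero => rfl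
  | succ l ih =>
    rw [Function.iterate_succ_apply']
    change SLC.lmap D.ρ (D.r^[l] β).1 = _
    rw [ih, pow_succ']
    rfl

theorem r_iter_simple (l : ℕ) (i : Fin n) : D.r^[l] (C.simple i) = C.simple ((D.ρ ^ l) i) := by
  apply SLC.Root.ext
  rw [D.r_iter]
  exact SLC.lmap_single _ i

theorem r_m (β : C.Root) : D.r^[D.m] β = β := by
  apply SLC.Root.ext
  rw [D.r_iter]
  unfold m
  rw [pow_orderOf_eq_one]
  rfl

theorem r_iter_eq (β : C.Root) (hβ : D.r β ≠ β) (l l' : ℕ) (hl : l < D.m) (hl' : l' < D.m)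
    (h : D.r^[l] β = D.r^[l'] β) : l = l' := by
  have hm := D.r_m β
  rcases D.m_cases with h1 | h1 | h1
  · omega
  · rw [h1] at hl hl'
    interval_cases l <;> interval_cases l'
    · rfl
    · exact absurd h.symm hβ
    · exact absurd h hβ
    · rfl
  · rw [h1] at hl hl' hm
    have h2 : D.r (D.r β) ≠ β := by
      intro h3
      apply hβ
      have h4 : D.r (D.r (D.r β)) = β := hm
      rw [h3] at h4
      exact h4
    have h3 : D.r (D.r β) ≠ D.r β := fun h4 => hβ (D.r_injective h4)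
    interval_cases l <;> interval_cases l'
    · rfl
    · exact absurd h.symm hβ
    · exact absurd h.symm h2
    · exact absurd h hβ
    · rfl
    · exact absurd h.symm h3
    · exact absurd h h2
    · exact absurd h h3
    · rfl

theorem sg_add (α β γ : C.Root) (h : γ.1 = α.1 + β.1) :
    D.sg γ * C.eps α.1 β.1 = D.sg α * D.sg β * C.eps (D.r α).1 (D.r β).1 := by
  unfold sg
  rw [h]
  exact C.eta_add D.ρ D.hρ α.1 β.1

/-- The sign of the `l`-th iterate of `σ`. -/
noncomputable def sgp (l : ℕ) (β : C.Root) : ℤ := ∏ j ∈ Finset.range l, D.sg (D.r^[j] β)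

theorem sgp_eq (l : ℕ) (β : C.Root) : D.sgp l β = 1 ∨ D.sgp l β = -1 := by
  unfold sgp
  induction l with
  | zero => left; simp
  | succ l ih =>
    rw [Finset.prod_range_succ]
    rcases ih with h | h <;> rcases D.sg_eq (D.r^[l] β) with h' | h' <;> rw [h, h'] <;> simp

/-- The product of the signs as a function on the lattice. -/
private noncomputable def D1_f (l : ℕ) (v : Fin n → ℤ) : ℤ :=
  ∏ j ∈ Finset.range l, C.eta D.ρ (SLC.lmap (D.ρ ^ j) v)

private theorem D1_f_add (l : ℕ) (v w : Fin n → ℤ) :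
    D.D1_f l (v + w) * C.eps v w =
      D.D1_f l v * D.D1_f l w * C.eps (SLC.lmap (D.ρ ^ l) v) (SLC.lmap (D.ρ ^ l) w) := by
  induction l with
  | zero =>
    unfold D1_f
    simp only [Finset.range_zero, Finset.prod_empty, one_mul]
    rfl
  | succ l ih =>
    have h := C.eta_add D.ρ D.hρ (SLC.lmap (D.ρ ^ l) v) (SLC.lmap (D.ρ ^ l) w)
    have e1 : ∀ u : Fin n → ℤ, SLC.lmap (D.ρ ^ (l + 1)) u = SLC.lmap D.ρ (SLC.lmap (D.ρ ^ l) u) := by
      intro u
      rw [pow_succ']
      rfl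
    have e2 : ∀ u : Fin n → ℤ, D.D1_f (l + 1) u = D.D1_f l u * C.eta D.ρ (SLC.lmap (D.ρ ^ l) u) :=
      fun u => Finset.prod_range_succ _ _
    rw [e2, e2, e2, e1, e1, SLC.lmap_add]
    linear_combination C.eta D.ρ (SLC.lmap (D.ρ ^ l) v + SLC.lmap (D.ρ ^ l) w) * ih +
      D.D1_f l v * D.D1_f l w * h

private theorem D1_f_mul (v w : Fin n → ℤ) :
    D.D1_f D.m (v + w) = D.D1_f D.m v * D.D1_f D.m w := by
  have h := D.D1_f_add D.m v w
  have e : ∀ u : Fin n → ℤ, SLC.lmap (D.ρ ^ D.m) u = u := by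
    intro u
    unfold m
    rw [pow_orderOf_eq_one]
    rfl
  rw [e, e] at h
  exact mul_right_cancel₀ (C.eps_ne_zero v w) h

private theorem D1_f_sq (l : ℕ) (v : Fin n → ℤ) : D.D1_f l v * D.D1_f l v = 1 := by
  unfold D1_f
  rw [← Finset.prod_mul_distrib]
  exact Finset.prod_eq_one fun j _ => C.eta_sq D.ρ _

private theorem D1_f_one (v : Fin n → ℤ) : D.D1_f D.m v = 1 := by
  have h0 : D.D1_f D.m 0 = 1 := by
    have h := D.D1_f_mul 0 0
    rw [add_zero, D.D1_f_sq] at h
    exact h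
  let A : AddSubgroup (Fin n → ℤ) :=
    { carrier := {v | D.D1_f D.m v = 1}
      zero_mem' := h0
      add_mem' := by
        intro a b ha hb
        change D.D1_f D.m (a + b) = 1
        rw [D.D1_f_mul, show D.D1_f D.m a = 1 from ha, show D.D1_f D.m b = 1 from hb, mul_one]
      neg_mem' := by
        intro a ha
        change D.D1_f D.m (-a) = 1
        have h := D.D1_f_mul (-a) a
        rw [neg_add_cancel, h0, show D.D1_f D.m a = 1 from ha, mul_one] at h
        exact h.symm }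
  have hs : ∀ i : Fin n, (Pi.single i 1 : Fin n → ℤ) ∈ A := by
    intro i
    change D.D1_f D.m (Pi.single i 1) = 1
    unfold D1_f
    refine Finset.prod_eq_one fun j _ => ?_
    rw [SLC.lmap_single, C.eta_single]
  have hv : v ∈ A := by
    have h : v = ∑ i, v i • (Pi.single i 1 : Fin n → ℤ) := by
      funext j
      simp [Finset.sum_apply, Pi.single_apply]
    rw [h]
    exact AddSubgroup.sum_mem _ fun i _ => AddSubgroup.zsmul_mem _ (hs i) _
  exact hv

theorem sgp_m (β : C.Root) : D.sgp D.m β = 1 := by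
  have h := D.D1_f_one β.1
  unfold D1_f at h
  unfold sgp sg
  rw [← h]
  exact Finset.prod_congr rfl fun j _ => by rw [D.r_iter]

end Dg

end Pool.Agent.H75.UL
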