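import Pool.Agent.H75.UT.D1
import Pool.Agent.H75.UL.S6

/-!
# Project UT, module D2

Consequences of `IsSig`.

`map_nn`: `D.r_neg`, `D.sg_neg`, `(sg β * θ t)⁻¹ = sg β * θ t⁻¹` as `sg β = ±1`. `map_hh`:
`hh = nn x β t * nn x β (-1)`; for `sg β = 1` clear; for `sg β = -1`:
`nn x γ (-u) * nn x γ 1 = (nn x γ u)⁻¹ * (nn x γ (-1))⁻¹ = (nn x γ (-1) * nn x γ u)⁻¹`, and by `nn_inv`,
`h_mul` this is `hh x γ u` (`hh (-u) * (hh (-1))⁻¹ = hh u`, where
`(hh x γ (-1))⁻¹ = (nn x γ (-1) * nn x γ (-1))⁻¹ = nn x γ 1 * nn x γ 1`,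
so `hh (-u) * (hh (-1))⁻¹ = nn (-u) * nn (-1) * nn 1 * nn 1 = nn (-u) * nn 1`).
The closure statements: closure induction. `iter`: induction on `l`. `iter_m`: closure induction
(`D.r_m`, `D.sgp_m`). `acts`: apply `s`; every root is `r β`, every element of `K` is `± θ u`.
`neg`: the system `x' β t = x (-β) t` (`ip_neg_neg`, `eps_neg_left`, `eps_neg_right`;
`nn x' α t = nn x (-α) t` by definition up to `- -α = α`).
-/

set_option autoImplicit false
open Matrix
universe u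
namespace Pool.Agent.H75.UL

section
variable {n : ℕ} {C : SLC n} {D : Dg C} {K : Type*} [Field K] {H : Type*} [Group H]
  {θ : K ≃+* K} {S : StSys C K H} {s : H →* H}

private theorem D2_inv (D : Dg C) (θ : K ≃+* K) (β : C.Root) (t : K) :
    ((D.sg β : K) * θ t)⁻¹ = (D.sg β : K) * θ t⁻¹ := by
  rcases D.sg_eq β with h | h <;> simp [h]

private theorem D2_sg_ne (D : Dg C) (β : C.Root) : (D.sg β : K) ≠ 0 := by
  rcases D.sg_eq β with h | h <;> simp [h]

private theorem D2_sg_sq (D : Dg C) (β : C.Root) : (D.sg β : K) * (D.sg β : K) = 1 := by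
  rw [← Int.cast_mul, D.sg_sq, Int.cast_one]

theorem IsSig.map_nn (h : IsSig D θ S s) (β : C.Root) (t : K) :
    s (nn S.x β t) = nn S.x (D.r β) ((D.sg β : K) * θ t) := by
  unfold nn
  rw [_root_.map_mul, _root_.map_mul, h, h, D.r_neg, D.sg_neg, D2_inv]

private theorem D2_hh_neg (S : StSys C K H) (γ : C.Root) (u : K) (hu : u ≠ 0) :
    nn S.x γ (-u) * nn S.x γ 1 = hh S.x γ u := by
  have h1 := S.h_mul γ u (-1) hu (by simp)
  rw [mul_neg_one] at h1
  have h2 : (nn S.x γ (-1))⁻¹ = nn S.x γ 1 := by rw [S.nn_inv, neg_neg]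
  unfold hh at h1 ⊢
  have h3 : nn S.x γ u * nn S.x γ (-1) * nn S.x γ (-1) = nn S.x γ (-u) := by
    apply mul_right_cancel (b := nn S.x γ (-1))
    rw [← h1]
    group
  rw [← h2, ← h3]
  group

theorem IsSig.map_hh (h : IsSig D θ S s) (β : C.Root) (t : K) (ht : t ≠ 0) :
    s (hh S.x β t) = hh S.x (D.r β) (θ t) := by
  have hu : θ t ≠ 0 := by simpa using ht
  unfold hh
  rw [_root_.map_mul, h.map_nn, h.map_nn]
  rcases D.sg_eq β with h1 | h1
  · simp [h1]
  · have h2 := D2_hh_neg S (D.r β) (θ t) hu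
    unfold hh at h2
    simpa [h1] using h2

theorem IsSig.map_U (h : IsSig D θ S s) (m : ℤ) (u : H) (hu : u ∈ S.U m) : s u ∈ S.U m := by
  have h1 : S.U m ≤ (S.U m).comap s := by
    conv_lhs => unfold StSys.U
    rw [Subgroup.closure_le]
    rintro g ⟨β, t, hβ, rfl⟩
    change s (S.x β t) ∈ S.U m
    rw [h]
    exact Subgroup.subset_closure ⟨_, _, by rw [D.r_ht]; exact hβ, rfl⟩
  exact h1 hu

theorem IsSig.map_Um (h : IsSig D θ S s) (u : H) (hu : u ∈ S.Um) : s u ∈ S.Um := by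
  have h1 : S.Um ≤ (S.Um).comap s := by
    conv_lhs => unfold StSys.Um
    rw [Subgroup.closure_le]
    rintro g ⟨β, t, hβ, rfl⟩
    change s (S.x β t) ∈ S.Um
    rw [h]
    exact Subgroup.subset_closure ⟨_, _, by rw [D.r_ht]; exact hβ, rfl⟩
  exact h1 hu

theorem IsSig.map_T (h : IsSig D θ S s) (u : H) (hu : u ∈ S.T) : s u ∈ S.T := by
  have h1 : S.T ≤ (S.T).comap s := by
    conv_lhs => unfold StSys.T
    rw [Subgroup.closure_le]
    rintro g ⟨β, t, hβ, rfl⟩
    change s (hh S.x β t) ∈ S.T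
    rw [h.map_hh β t hβ]
    exact Subgroup.subset_closure ⟨_, _, by simpa using hβ, rfl⟩
  exact h1 hu

theorem IsSig.map_N (h : IsSig D θ S s) (u : H) (hu : u ∈ S.N) : s u ∈ S.N := by
  have h1 : S.N ≤ (S.N).comap s := by
    conv_lhs => unfold StSys.N
    rw [Subgroup.closure_le]
    rintro g ⟨β, t, hβ, rfl⟩
    change s (nn S.x β t) ∈ S.N
    rw [h.map_nn β t]
    exact Subgroup.subset_closure ⟨_, _, mul_ne_zero (D2_sg_ne D β) (by simpa using hβ), rfl⟩
  exact h1 hu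

theorem IsSig.map_gen (h : IsSig D θ S s) (u : H) (hu : u ∈ S.gen) : s u ∈ S.gen := by
  have h1 : S.gen ≤ (S.gen).comap s := by
    conv_lhs => unfold StSys.gen
    rw [Subgroup.closure_le]
    rintro g ⟨β, t, rfl⟩
    change s (S.x β t) ∈ S.gen
    rw [h]
    exact Subgroup.subset_closure ⟨_, _, rfl⟩
  exact h1 hu

theorem IsSig.iter (h : IsSig D θ S s) (l : ℕ) (β : C.Root) (t : K) :
    s^[l] (S.x β t) = S.x (D.r^[l] β) ((D.sgp l β : K) * (⇑θ)^[l] t) := by
  induction l with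
  | zero => simp [Dg.sgp]
  | succ l ih =>
    rw [Function.iterate_succ_apply', ih, h, Function.iterate_succ_apply',
      Function.iterate_succ_apply']
    congr 1
    unfold Dg.sgp
    rw [Finset.prod_range_succ, _root_.map_mul, map_intCast]
    push_cast
    ring

theorem IsSig.iter_m (h : IsSig D θ S s) (hθ : ∀ t, (⇑θ)^[D.m] t = t) (g : H) (hg : g ∈ S.gen) :
    s^[D.m] g = g := by
  unfold StSys.gen at hg
  induction hg using Subgroup.closure_induction with
  | mem g hg =>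
    obtain ⟨β, t, rfl⟩ := hg
    rw [h.iter, D.r_m, D.sgp_m, hθ, Int.cast_one, one_mul]
  | one => exact iterate_map_one s D.m
  | mul a b _ _ ha hb => rw [iterate_map_mul, ha, hb]
  | inv a _ ha => rw [iterate_map_inv, ha]

theorem IsSig.acts (h : IsSig D θ S s) (g : H) (w : Equiv.Perm C.Root) (hg : S.Acts g w) :
    S.Acts (s g) (D.rE * w * D.rE⁻¹) := by
  obtain ⟨c, hc, hact⟩ := hg
  refine ⟨fun β => (D.sg (w (D.rE.symm β)) : K) * θ (c (D.rE.symm β)) *
    (D.sg (D.rE.symm β) : K), fun β => ?_, fun β u => ?_⟩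
  · exact mul_ne_zero (mul_ne_zero (D2_sg_ne D _) (by simpa using hc _)) (D2_sg_ne D _)
  · obtain ⟨δ, rfl⟩ := D.rE.surjective β
    have e1 : S.x (D.rE δ) u = s (S.x δ (θ.symm ((D.sg δ : K) * u))) := by
      rw [h, RingEquiv.apply_symm_apply, ← mul_assoc, D2_sg_sq, one_mul, Dg.rE_apply]
    rw [e1, ← map_inv, ← _root_.map_mul, ← _root_.map_mul, hact, h]
    have e0 : D.rE.symm (D.rE δ) = δ := D.rE.symm_apply_apply δ
    have e2 : (D.rE * w * D.rE⁻¹) (D.rE δ) = D.r (w δ) := by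
      change D.rE (w (D.rE.symm (D.rE δ))) = D.r (w δ)
      rw [e0]
      rfl
    rw [e2]
    beta_reduce
    rw [e0]
    congr 1
    rw [_root_.map_mul, RingEquiv.apply_symm_apply]
    ring

/-- The system `x_{-β}(t)`. -/
def StSys.neg (S : StSys C K H) : StSys C K H where
  x := fun β t => S.x (-β) t
  map_add := fun β s t => S.map_add (-β) s t
  comm := fun α β s t h => S.comm (-α) (-β) s t (by
    rw [SLC.Root.neg_val, SLC.Root.neg_val, C.ip_neg_neg]; exact h)
  comm_add := by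
    intro α β γ s t h
    have h1 := S.comm_add (-α) (-β) (-γ) s t (by
      rw [SLC.Root.neg_val, SLC.Root.neg_val, SLC.Root.neg_val, h, neg_add])
    rw [SLC.Root.neg_val, SLC.Root.neg_val, C.eps_neg_left, C.eps_neg_right] at h1
    exact h1
  n_conj := fun α t u ht => S.n_conj (-α) t u ht
  h_mul := fun α s t hs ht => S.h_mul (-α) s t hs ht

theorem StSys.neg_x (S : StSys C K H) (β : C.Root) (t : K) : S.neg.x β t = S.x (-β) t := rfl

private theorem D2_nn_neg (S : StSys C K H) (α : C.Root) (t : K) :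
    nn S.neg.x α t = nn S.x (-α) t := rfl

private theorem D2_hh_neg' (S : StSys C K H) (α : C.Root) (t : K) :
    hh S.neg.x α t = hh S.x (-α) t := rfl

theorem StSys.neg_U (S : StSys C K H) : S.neg.U 1 = S.Um := by
  unfold StSys.U StSys.Um
  congr 1
  ext g
  constructor
  · rintro ⟨β, t, hβ, rfl⟩
    exact ⟨-β, t, by rw [SLC.Root.neg_val, ht_neg]; omega, rfl⟩
  · rintro ⟨β, t, hβ, rfl⟩
    exact ⟨-β, t, by rw [SLC.Root.neg_val, ht_neg]; omega, by
      rw [StSys.neg_x, C.neg_neg_root]⟩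

theorem StSys.neg_Um (S : StSys C K H) : S.neg.Um = S.U 1 := by
  unfold StSys.U StSys.Um
  congr 1
  ext g
  constructor
  · rintro ⟨β, t, hβ, rfl⟩
    exact ⟨-β, t, by rw [SLC.Root.neg_val, ht_neg]; omega, rfl⟩
  · rintro ⟨β, t, hβ, rfl⟩
    exact ⟨-β, t, by rw [SLC.Root.neg_val, ht_neg]; omega, by
      rw [StSys.neg_x, C.neg_neg_root]⟩

theorem IsSig.neg (h : IsSig D θ S s) : IsSig D θ S.neg s := by
  intro β t
  rw [StSys.neg_x, StSys.neg_x, h, D.r_neg, D.sg_neg]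

theorem StSys.neg_T (S : StSys C K H) : S.neg.T = S.T := by
  unfold StSys.T
  congr 1
  ext g
  constructor
  · rintro ⟨β, t, ht, rfl⟩
    exact ⟨-β, t, ht, rfl⟩
  · rintro ⟨β, t, ht, rfl⟩
    exact ⟨-β, t, ht, by rw [D2_hh_neg', C.neg_neg_root]⟩

theorem StSys.neg_N (S : StSys C K H) : S.neg.N = S.N := by
  unfold StSys.N
  congr 1
  ext g
  constructor
  · rintro ⟨β, t, ht, rfl⟩
    exact ⟨-β, t, ht, rfl⟩
  · rintro ⟨β, t, ht, rfl⟩
    exact ⟨-β, t, ht, by rw [D2_nn_neg, C.neg_neg_root]⟩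

theorem Eg_neg (S : StSys C K H) (s : H →* H) : Eg S.neg s = Eg S s := by
  unfold Eg fixU fixUm
  rw [S.neg_U, S.neg_Um, sup_comm]

theorem Eg_le_fix (S : StSys C K H) (s : H →* H) (g : H) (hg : g ∈ Eg S s) : s g = g := by
  have h1 : Eg S s ≤ MonoidHom.eqLocus s (MonoidHom.id H) := by
    unfold Eg fixU fixUm
    exact sup_le inf_le_right inf_le_right
  exact h1 hg

theorem Eg_le_gen (S : StSys C K H) (s : H →* H) : Eg S s ≤ S.gen := by
  unfold Eg fixU fixUm
  refine sup_le (inf_le_left.trans ?_) (inf_le_left.trans ?_)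
  · unfold StSys.U
    rw [Subgroup.closure_le]
    rintro g ⟨β, t, -, rfl⟩
    exact Subgroup.subset_closure ⟨β, t, rfl⟩
  · unfold StSys.Um
    rw [Subgroup.closure_le]
    rintro g ⟨β, t, -, rfl⟩
    exact Subgroup.subset_closure ⟨β, t, rfl⟩

end

end Pool.Agent.H75.UL
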