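import Pool.Agent.H75.UT.D2
import Pool.Agent.H75.UT.D1b
import Pool.Agent.H75.UL.S3

/-!
# Project UT, module D3

The fixed points of `σ` in `U`.

`Inj S`: the ordered product determines the coordinates. `inO β γ`: `γ` is in the orbit of `β` or
`γ = β + ρβ`. `XO β`: generated by the root elements of these roots; `fixX β`: its fixed points.
Hypothesis `hA`: either no adjacent orbits, or traces are surjective (`θ` of order `2`).
`layer`: `u ∈ U m`, `s u = u`. `exists_layer`: `u = lp t * u'`, `t` supported in height `m`.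
`s u = u` gives `s (lp t) ∈ lp t * U (m+1)`, and `s (lp t)` is congruent modulo `U (m+1)` to
`lp t''`, `t'' (r β) = sg β * θ (t β)` (`lp t` modulo `U (m+1)` does not depend on the order of the
factors: the commutators are in `U (2m)`; `lp_add_layer`, induction on the support), so by
uniqueness (`Inj`, with `lp_add_layer`) `t (r β) = sg β * θ (t β)` for all `β` of height `m`. Choose for
each orbit of roots of height `m` an element `y ∈ fixX β` with `y ≡ ∏_{γ in the orbit} x_γ(t γ)`: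
`r β = β`: `x_β (t β)`; `r β ≠ β` and `ip β (r β) = 0`: the product of `s^[l] (x_β(t β))`, `l < m`, which
commute (`ip_orb`, `S.comm`), fixed by `s` as `s^[m]` is the identity on `x_β`;
`ip β (r β) = -1` (`m = 2`): `y = x_β(t) * s (x_β(t)) * x_γ(v)`, `γ = β + r β`; as `s (s (x_β t)) = x_β t`,
`r γ = γ`, `sg γ = -1` (`sg_adj`), `s y = s (x_β t) * x_β t * x_γ(-θ v)`, so `s y = y` iff
`v + θ v = ± t * sg β * θ t` (`comm_add`), and the right side is fixed by `θ`, so there is such a `v`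
(`hA`; in case `NA` this case does not occur by `ip_r_NA`). The product of these `y` over the orbits
is in `fixU` and congruent to `lp t` modulo `U (m+1)`.
`fixU_eq`: `layer` and induction on `m`, `exists_U_eq_bot`. `fixUm_eq`: the same for `S.neg`.
-/

set_option autoImplicit false
open Matrix
universe u
namespace Pool.Agent.H75.UL

section
variable {n : ℕ} {C : SLC n} (D : Dg C) {K : Type*} [Field K] {H : Type*} [Group H]

/-- The ordered product of positive root elements determines the coordinates. -/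
def StSys.Inj (S : StSys C K H) : Prop := ∀ t t' : C.Root → K,
  S.lp C.posList t = S.lp C.posList t' → ∀ β, C.Pos β → t β = t' β

/-- `γ` is in the orbit of `β`, or the sum of two roots in the orbit. -/
def Dg.inO (β γ : C.Root) : Prop := (∃ l, γ = D.r^[l] β) ∨ γ.1 = β.1 + (D.r β).1

/-- The group generated by the root elements of the orbit of `β`. -/
def XO (S : StSys C K H) (β : C.Root) : Subgroup H :=
  Subgroup.closure {g | ∃ γ t, D.inO β γ ∧ g = S.x γ t}

/-- The fixed points of `s` in `XO β`. -/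
def fixX (S : StSys C K H) (s : H →* H) (β : C.Root) : Subgroup H :=
  XO D S β ⊓ MonoidHom.eqLocus s (MonoidHom.id H)

variable {D} {θ : K ≃+* K} {S : StSys C K H} {s : H →* H}

private theorem d3_mem (S : StSys C K H) (m : ℤ) (β : C.Root) (t : K) (h : m ≤ ht β.1) :
    S.x β t ∈ S.U m := Subgroup.subset_closure ⟨β, t, h, rfl⟩

private theorem d3_mono (S : StSys C K H) {m k : ℤ} (h : m ≤ k) : S.U k ≤ S.U m := by
  unfold StSys.U
  apply Subgroup.closure_mono
  rintro g ⟨β, t, hβ, rfl⟩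
  exact ⟨β, t, h.trans hβ, rfl⟩

private theorem d3_conj' (S : StSys C K H) (m : ℤ) (hm : 1 ≤ m) (g u : H) (hg : g ∈ S.U 1)
    (hu : u ∈ S.U m) : g⁻¹ * u * g ∈ S.U m := by
  have := S.U_conj m hm g⁻¹ u (inv_mem hg) hu
  rwa [inv_inv] at this

private theorem d3_cons (S : StSys C K H) (β : C.Root) (l : List C.Root) (t : C.Root → K) :
    S.lp (β :: l) t = S.x β (t β) * S.lp l t := by
  unfold StSys.lp
  rw [List.map_cons, List.prod_cons]

private theorem d3_single (S : StSys C K H) (β : C.Root) (s : K) (l : List C.Root) (hl : l.Nodup)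
    (hβ : β ∈ l) : S.lp l (fun γ => if γ = β then s else 0) = S.x β s := by
  induction l with
  | nil => simp at hβ
  | cons γ l ih =>
    rw [d3_cons]
    rw [List.nodup_cons] at hl
    by_cases h : γ = β
    · subst h
      rw [S.lp_zero l, if_pos rfl, mul_one]
      intro δ hδ
      rw [if_neg]
      rintro rfl
      exact hl.1 hδ
    · rw [if_neg h, S.x_zero, one_mul]
      refine ih hl.2 ?_
      rw [List.mem_cons] at hβ
      rcases hβ with rfl | hβ
      · exact absurd rfl h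
      · exact hβ

private theorem d3_iter_ht (D : Dg C) (l : ℕ) (β : C.Root) : ht (D.r^[l] β).1 = ht β.1 := by
  induction l with
  | zero => rfl
  | succ l ih => rw [Function.iterate_succ_apply', D.r_ht, ih]

/-- `g` has the coordinates `t` in height `m`. -/
private def D3R (S : StSys C K H) (m : ℤ) (g : H) (t : C.Root → K) : Prop :=
  (∀ β, ht β.1 ≠ m → t β = 0) ∧ ∃ u' ∈ S.U (m + 1), g = S.lp C.posList t * u'

private theorem d3_lp_mem1 (S : StSys C K H) (m : ℤ) (hm : 1 ≤ m) (t : C.Root → K)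
    (h : ∀ β, ht β.1 ≠ m → t β = 0) : S.lp C.posList t ∈ S.U 1 :=
  S.lp_mem 1 t fun β hβ => h β (by omega)

private theorem d3_R_one (S : StSys C K H) (m : ℤ) (g : H) (hg : g ∈ S.U (m + 1)) :
    D3R S m g (fun _ => 0) :=
  ⟨fun _ _ => rfl, g, hg, by rw [S.lp_zero _ _ (fun _ _ => rfl), one_mul]⟩

private theorem d3_R_single (S : StSys C K H) (m : ℤ) (hm : 1 ≤ m) (β : C.Root) (hβ : ht β.1 = m)
    (a : K) : D3R S m (S.x β a) (fun γ => if γ = β then a else 0) := by
  refine ⟨fun γ hγ => if_neg ?_, 1, one_mem _, ?_⟩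
  · rintro rfl
    exact hγ hβ
  · rw [d3_single S β a C.posList C.posList_nodup, mul_one]
    rw [C.mem_posList]
    unfold SLC.Pos
    omega

private theorem d3_R_mul (S : StSys C K H) (m : ℤ) (hm : 1 ≤ m) {g g' : H} {t t' : C.Root → K}
    (h : D3R S m g t) (h' : D3R S m g' t') : D3R S m (g * g') (fun β => t β + t' β) := by
  obtain ⟨h0, u, hu, rfl⟩ := h
  obtain ⟨h0', u', hu', rfl⟩ := h'
  obtain ⟨u'', hu'', h3⟩ := S.lp_add_layer m hm t t' h0 h0'
  refine ⟨fun β hβ => by simp only [h0 β hβ, h0' β hβ, add_zero],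
    u''⁻¹ * (((S.lp C.posList t')⁻¹ * u * S.lp C.posList t') * u'), ?_, ?_⟩
  · refine mul_mem (inv_mem hu'') (mul_mem ?_ hu')
    exact d3_conj' S (m + 1) (by omega) _ _ (d3_lp_mem1 S m hm t' h0') hu
  · rw [h3]
    group

private theorem d3_R_unique (S : StSys C K H) (hI : S.Inj) (m : ℤ) (hm : 1 ≤ m) {g : H}
    {t t' : C.Root → K} (h : D3R S m g t) (h' : D3R S m g t') : t = t' := by
  obtain ⟨h0, u, hu, hg⟩ := h
  obtain ⟨h0', u', hu', hg'⟩ := h'
  obtain ⟨t1, ht1, rfl⟩ := S.exists_lp (m + 1) (by omega) u hu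
  obtain ⟨t2, ht2, rfl⟩ := S.exists_lp (m + 1) (by omega) u' hu'
  have key : ∀ (a b : C.Root → K), (∀ β, ht β.1 ≠ m → a β = 0) → (∀ β, ht β.1 < m + 1 → b β = 0) →
      S.lp C.posList a * S.lp C.posList b =
        S.lp C.posList (fun β => if ht β.1 ≤ m then a β else b β) := by
    intro a b ha hb
    rw [S.lp_split m (fun β => if ht β.1 ≤ m then a β else b β)]
    congr 1
    · apply S.lp_congr
      intro β _
      by_cases hβ : ht β.1 ≤ m
      · simp only [if_pos hβ]
      · simp only [if_neg hβ]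
        exact ha β (by omega)
    · apply S.lp_congr
      intro β _
      by_cases hβ : ht β.1 ≤ m
      · simp only [if_pos hβ]
        exact hb β (by omega)
      · simp only [if_neg hβ]
  rw [hg, key t t1 h0 ht1, key t' t2 h0' ht2] at hg'
  have h4 := hI _ _ hg'
  funext β
  by_cases hβ : ht β.1 = m
  · have h5 := h4 β (by unfold SLC.Pos; omega)
    simpa only [if_pos hβ.le] using h5
  · rw [h0 β hβ, h0' β hβ]

private theorem d3_R_congr_mem (S : StSys C K H) (m : ℤ) {g g' : H} {t : C.Root → K}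
    (h : D3R S m g t) (h' : D3R S m g' t) : g⁻¹ * g' ∈ S.U (m + 1) := by
  obtain ⟨-, u, hu, rfl⟩ := h
  obtain ⟨-, u', hu', rfl⟩ := h'
  have e : (S.lp C.posList t * u)⁻¹ * (S.lp C.posList t * u') = u⁻¹ * u' := by group
  rw [e]
  exact mul_mem (inv_mem hu) hu'

private theorem d3_R_map_lp (S : StSys C K H) (h : IsSig D θ S s) (m : ℤ) (hm : 1 ≤ m)
    (t : C.Root → K) (h0 : ∀ β, ht β.1 ≠ m → t β = 0) (l : List C.Root) (hl : l.Nodup) :
    ∃ T : C.Root → K, D3R S m (s (S.lp l t)) T ∧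
      (∀ β ∈ l, T (D.r β) = (D.sg β : K) * θ (t β)) ∧ (∀ β, β ∉ l → T (D.r β) = 0) := by
  induction l with
  | nil =>
    refine ⟨fun _ => 0, ?_, by simp, by simp⟩
    have : S.lp ([] : List C.Root) t = 1 := by simp [StSys.lp]
    rw [this, _root_.map_one]
    exact d3_R_one S m 1 (one_mem _)
  | cons β l ih =>
    rw [List.nodup_cons] at hl
    obtain ⟨T, hT, hT1, hT2⟩ := ih hl.2
    rw [d3_cons, _root_.map_mul, h β (t β)]
    have hb : D3R S m (S.x (D.r β) ((D.sg β : K) * θ (t β)))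
        (fun γ => if γ = D.r β then (D.sg β : K) * θ (t β) else 0) := by
      by_cases hβ : ht β.1 = m
      · exact d3_R_single S m hm (D.r β) (by rw [D.r_ht, hβ]) _
      · rw [h0 β hβ, _root_.map_zero, mul_zero, S.x_zero]
        have : (fun γ : C.Root => if γ = D.r β then (0 : K) else 0) = fun _ => 0 := by
          funext γ
          simp
        rw [this]
        exact d3_R_one S m 1 (one_mem _)
    refine ⟨_, d3_R_mul S m hm hb hT, fun γ hγ => ?_, fun γ hγ => ?_⟩
    · rw [List.mem_cons] at hγ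
      by_cases h1 : γ = β
      · subst h1
        simp only [if_true]
        rw [hT2 γ hl.1, add_zero]
      · have h2 : γ ∈ l := by
          rcases hγ with h3 | h3
          · exact absurd h3 h1
          · exact h3
        have h3 : ¬ D.r γ = D.r β := fun h4 => h1 (D.r_injective h4)
        simp only [if_neg h3, zero_add]
        exact hT1 γ h2
    · rw [List.mem_cons, not_or] at hγ
      have h3 : ¬ D.r γ = D.r β := fun h4 => hγ.1 (D.r_injective h4)
      simp only [if_neg h3, zero_add]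
      exact hT2 γ hγ.2

private theorem d3_R_map (S : StSys C K H) (h : IsSig D θ S s) (m : ℤ) (hm : 1 ≤ m) {g : H}
    {t : C.Root → K} (hg : D3R S m g t) :
    ∃ T : C.Root → K, D3R S m (s g) T ∧ ∀ β, T (D.r β) = (D.sg β : K) * θ (t β) := by
  obtain ⟨h0, u, hu, rfl⟩ := hg
  obtain ⟨T, hT, hT1, hT2⟩ := d3_R_map_lp S h m hm t h0 C.posList C.posList_nodup
  refine ⟨T, ?_, fun β => ?_⟩
  · obtain ⟨h3, u', hu', h4⟩ := hT
    refine ⟨h3, u' * s u, mul_mem hu' (h.map_U (m + 1) u hu), ?_⟩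
    rw [_root_.map_mul, h4, mul_assoc]
  · by_cases hβ : β ∈ C.posList
    · exact hT1 β hβ
    · rw [hT2 β hβ, h0 β, _root_.map_zero, mul_zero]
      rw [C.mem_posList] at hβ
      unfold SLC.Pos at hβ
      omega

/-- A fixed element has coordinates compatible with `σ`. -/
private theorem d3_R_fixed (S : StSys C K H) (hI : S.Inj) (h : IsSig D θ S s) (m : ℤ) (hm : 1 ≤ m)
    {g : H} {t : C.Root → K} (hg : D3R S m g t) (hs : s g = g) (β : C.Root) :
    t (D.r β) = (D.sg β : K) * θ (t β) := by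
  obtain ⟨T, hT, hT1⟩ := d3_R_map S h m hm hg
  rw [hs] at hT
  rw [d3_R_unique S hI m hm hg hT]
  rw [hT1 β, ← d3_R_unique S hI m hm hg hT]

private theorem d3_x_mem_XO (S : StSys C K H) (β : C.Root) (l : ℕ) (a : K) :
    S.x (D.r^[l] β) a ∈ XO D S β := Subgroup.subset_closure ⟨_, a, Or.inl ⟨l, rfl⟩, rfl⟩

private theorem d3_orb_lt (D : Dg C) (β : C.Root) (l : ℕ) :
    ∃ l', l' < D.m ∧ D.r^[l] β = D.r^[l'] β := by
  have hpos : 0 < D.m := by
    rcases D.m_cases with h | h | h <;> omega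
  refine ⟨l % D.m, Nat.mod_lt _ hpos, ?_⟩
  have h1 : Function.IsPeriodicPt D.r D.m β := D.r_m β
  exact (h1.iterate_mod_apply l).symm

/-- The orbit element. -/
private theorem d3_orbit (h : IsSig D θ S s) (hθ : ∀ t, (⇑θ)^[D.m] t = t)
    (hA : D.NA ∨ ∀ z, θ z = z → ∃ v, v + θ v = z) (m : ℤ) (hm : 1 ≤ m) (β : C.Root)
    (hβ : ht β.1 = m) (t : C.Root → K)
    (ht : ∀ γ, t (D.r γ) = (D.sg γ : K) * θ (t γ)) :
    ∃ y ∈ fixX D S s β, ∃ t1 : C.Root → K, D3R S m y t1 ∧
      (∀ γ, (∃ l, γ = D.r^[l] β) → t1 γ = t γ) ∧ (∀ γ, (¬ ∃ l, γ = D.r^[l] β) → t1 γ = 0) := by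
  have hx : ∀ γ, s (S.x γ (t γ)) = S.x (D.r γ) (t (D.r γ)) := fun γ => by rw [h γ, ht γ]
  have hb0 := hβ
  have hb1 : Pool.Agent.H75.UL.ht (D.r β).1 = m := by rw [D.r_ht, hβ]
  have hb2 : Pool.Agent.H75.UL.ht (D.r (D.r β)).1 = m := by rw [D.r_ht, hb1]
  by_cases hfix : D.r β = β
  · -- fixed root
    refine ⟨S.x β (t β), ?_, _, d3_R_single S m hm β hβ (t β), ?_, ?_⟩
    · refine Subgroup.mem_inf.mpr ⟨d3_x_mem_XO S β 0 (t β), ?_⟩
      change s (S.x β (t β)) = S.x β (t β)
      rw [hx β, hfix]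
    · rintro γ ⟨l, rfl⟩
      have : D.r^[l] β = β := Function.iterate_fixed hfix l
      rw [this, if_pos rfl]
    · intro γ hγ
      rw [if_neg]
      rintro rfl
      exact hγ ⟨0, rfl⟩
  have hne : ¬ β = D.r β := fun h1 => hfix h1.symm
  have hR0 := d3_R_single S m hm β hb0 (t β)
  have hR1 := d3_R_single S m hm (D.r β) hb1 (t (D.r β))
  have hR2 := d3_R_single S m hm (D.r (D.r β)) hb2 (t (D.r (D.r β)))
  have hX0 := d3_x_mem_XO (D := D) S β 0 (t β)
  have hX1 := d3_x_mem_XO (D := D) S β 1 (t (D.r β))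
  have hX2 := d3_x_mem_XO (D := D) S β 2 (t (D.r (D.r β)))
  change S.x β (t β) ∈ XO D S β at hX0
  change S.x (D.r β) (t (D.r β)) ∈ XO D S β at hX1
  change S.x (D.r (D.r β)) (t (D.r (D.r β))) ∈ XO D S β at hX2
  -- coordinates in the case of order two
  have hco2 : D.m = 2 →
      (∀ γ, (∃ l, γ = D.r^[l] β) → (fun γ => (if γ = β then t β else 0) +
        (if γ = D.r β then t (D.r β) else 0)) γ = t γ) ∧
      (∀ γ, (¬ ∃ l, γ = D.r^[l] β) → (fun γ => (if γ = β then t β else 0) +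
        (if γ = D.r β then t (D.r β) else 0)) γ = 0) := by
    intro hm2
    refine ⟨?_, ?_⟩
    · rintro γ ⟨l, rfl⟩
      obtain ⟨l', hl', h1⟩ := d3_orb_lt D β l
      rw [h1]
      rw [hm2] at hl'
      have h2 : l' = 0 ∨ l' = 1 := by omega
      rcases h2 with rfl | rfl
      · change (if β = β then t β else 0) + (if β = D.r β then t (D.r β) else 0) = t β
        rw [if_pos rfl, if_neg hne, add_zero]
      · change (if D.r β = β then t β else 0) + (if D.r β = D.r β then t (D.r β) else 0) = t (D.r β)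
        rw [if_neg hfix, if_pos rfl, zero_add]
    · intro γ hγ
      have h1 : ¬ γ = β := fun h1 => hγ ⟨0, h1⟩
      have h2 : ¬ γ = D.r β := fun h1 => hγ ⟨1, h1⟩
      change (if γ = β then t β else 0) + (if γ = D.r β then t (D.r β) else 0) = 0
      rw [if_neg h1, if_neg h2, add_zero]
  have hco3 : D.m = 3 →
      (∀ γ, (∃ l, γ = D.r^[l] β) → (fun γ => ((if γ = β then t β else 0) +
        (if γ = D.r β then t (D.r β) else 0)) +
        (if γ = D.r (D.r β) then t (D.r (D.r β)) else 0)) γ = t γ) ∧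
      (∀ γ, (¬ ∃ l, γ = D.r^[l] β) → (fun γ => ((if γ = β then t β else 0) +
        (if γ = D.r β then t (D.r β) else 0)) +
        (if γ = D.r (D.r β) then t (D.r (D.r β)) else 0)) γ = 0) := by
    intro hm3
    have n02 : ¬ β = D.r (D.r β) := fun h1 => by
      have := D.r_iter_eq β hfix 0 2 (by omega) (by omega) h1
      omega
    have n12 : ¬ D.r β = D.r (D.r β) := fun h1 => hne (D.r_injective h1)
    have n20 : ¬ D.r (D.r β) = β := fun h1 => n02 h1.symm
    have n21 : ¬ D.r (D.r β) = D.r β := fun h1 => n12 h1.symm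
    refine ⟨?_, ?_⟩
    · rintro γ ⟨l, rfl⟩
      obtain ⟨l', hl', h1⟩ := d3_orb_lt D β l
      rw [h1]
      rw [hm3] at hl'
      have h2 : l' = 0 ∨ l' = 1 ∨ l' = 2 := by omega
      rcases h2 with rfl | rfl | rfl
      · change ((if β = β then t β else 0) + (if β = D.r β then t (D.r β) else 0)) +
          (if β = D.r (D.r β) then t (D.r (D.r β)) else 0) = t β
        rw [if_pos rfl, if_neg hne, if_neg n02, add_zero, add_zero]
      · change ((if D.r β = β then t β else 0) + (if D.r β = D.r β then t (D.r β) else 0)) +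
          (if D.r β = D.r (D.r β) then t (D.r (D.r β)) else 0) = t (D.r β)
        rw [if_neg hfix, if_pos rfl, if_neg n12, zero_add, add_zero]
      · change ((if D.r (D.r β) = β then t β else 0) +
          (if D.r (D.r β) = D.r β then t (D.r β) else 0)) +
          (if D.r (D.r β) = D.r (D.r β) then t (D.r (D.r β)) else 0) = t (D.r (D.r β))
        rw [if_neg n20, if_neg n21, if_pos rfl, zero_add, zero_add]
    · intro γ hγ
      have h1 : ¬ γ = β := fun h1 => hγ ⟨0, h1⟩
      have h2 : ¬ γ = D.r β := fun h1 => hγ ⟨1, h1⟩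
      have h3 : ¬ γ = D.r (D.r β) := fun h1 => hγ ⟨2, h1⟩
      change ((if γ = β then t β else 0) + (if γ = D.r β then t (D.r β) else 0)) +
          (if γ = D.r (D.r β) then t (D.r (D.r β)) else 0) = 0
      rw [if_neg h1, if_neg h2, if_neg h3, add_zero, add_zero]
  rcases D.ip_r β hfix with h0 | ⟨hm2, h1⟩
  · -- orthogonal
    have c01 := S.comm β (D.r β) (t β) (t (D.r β)) (by omega)
    rcases D.m_cases with h1 | h2 | h3
    · exfalso
      have := D.r_m β
      rw [h1] at this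
      exact hfix this
    · have hrr : D.r (D.r β) = β := by
        have := D.r_m β
        rw [h2] at this
        exact this
      refine ⟨S.x β (t β) * S.x (D.r β) (t (D.r β)), ?_, _, d3_R_mul S m hm hR0 hR1, hco2 h2⟩
      refine Subgroup.mem_inf.mpr ⟨mul_mem hX0 hX1, ?_⟩
      change s (S.x β (t β) * S.x (D.r β) (t (D.r β))) = S.x β (t β) * S.x (D.r β) (t (D.r β))
      rw [_root_.map_mul, hx, hx, hrr, c01]
    · have hrrr : D.r (D.r (D.r β)) = β := by
        have := D.r_m β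
        rw [h3] at this
        exact this
      have i12 : C.ip (D.r β).1 (D.r (D.r β)).1 = 0 := by rw [D.r_ip, h0]
      have i02 : C.ip β.1 (D.r (D.r β)).1 = 0 := by
        have := D.ip_orb β hfix 2 (by omega) (by omega)
        rw [h0] at this
        exact this
      have c12 := S.comm (D.r β) (D.r (D.r β)) (t (D.r β)) (t (D.r (D.r β))) (by omega)
      have c02 := S.comm β (D.r (D.r β)) (t β) (t (D.r (D.r β))) (by omega)
      refine ⟨S.x β (t β) * S.x (D.r β) (t (D.r β)) * S.x (D.r (D.r β)) (t (D.r (D.r β))), ?_, _,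
        d3_R_mul S m hm (d3_R_mul S m hm hR0 hR1) hR2, hco3 h3⟩
      refine Subgroup.mem_inf.mpr ⟨mul_mem (mul_mem hX0 hX1) hX2, ?_⟩
      change s (S.x β (t β) * S.x (D.r β) (t (D.r β)) * S.x (D.r (D.r β)) (t (D.r (D.r β)))) =
        S.x β (t β) * S.x (D.r β) (t (D.r β)) * S.x (D.r (D.r β)) (t (D.r (D.r β)))
      rw [_root_.map_mul, _root_.map_mul, hx, hx, hx, hrrr, mul_assoc, ← c02, ← mul_assoc, ← c01]
  · -- adjacent
    obtain ⟨γ, hγ⟩ := C.exists_add β (D.r β) h1
    obtain ⟨hrγ, hsγ⟩ := D.sg_adj β γ hfix hγ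
    have hrr : D.r (D.r β) = β := by
      have := D.r_m β
      rw [hm2] at this
      exact this
    have hθ2 : ∀ a, θ (θ a) = a := fun a => by
      have := hθ a
      rw [hm2] at this
      exact this
    have htb : t (D.r β) = (D.sg β : K) * θ (t β) := ht β
    have htb' : t β = (D.sg (D.r β) : K) * θ (t (D.r β)) := by
      have := ht (D.r β)
      rwa [hrr] at this
    have hz : θ (-((C.eps β.1 (D.r β).1 : K) * t β * t (D.r β))) =
        -((C.eps β.1 (D.r β).1 : K) * t β * t (D.r β)) := by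
      have e1 : θ (t β) = (D.sg β : K) * t (D.r β) := by
        rw [htb, ← mul_assoc, ← Int.cast_mul, D.sg_sq, Int.cast_one, one_mul]
      have e2 : θ (t (D.r β)) = (D.sg β : K) * t β := by
        rw [htb, _root_.map_mul, map_intCast, hθ2]
      rw [_root_.map_neg, _root_.map_mul, _root_.map_mul, map_intCast, e1, e2]
      have e3 : (D.sg β : K) * (D.sg β : K) = 1 := by
        rw [← Int.cast_mul, D.sg_sq, Int.cast_one]
      linear_combination (-(C.eps β.1 (D.r β).1 : K) * t β * t (D.r β)) * e3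
    have hv : ∃ v, v + θ v = -((C.eps β.1 (D.r β).1 : K) * t β * t (D.r β)) := by
      rcases hA with hA | hA
      · exfalso
        have := D.ip_r_NA hA β hfix
        omega
      · exact hA _ hz
    obtain ⟨v, hv⟩ := hv
    have hhtγ : m + 1 ≤ Pool.Agent.H75.UL.ht γ.1 := by
      rw [hγ, ht_add, hb0, hb1]
      omega
    have hip1 : C.ip β.1 γ.1 = 1 := by
      rw [hγ, C.ip_add_right, β.2, h1]
      norm_num
    have hip2 : C.ip (D.r β).1 γ.1 = 1 := by
      rw [hγ, C.ip_add_right, C.ip_comm, h1, (D.r β).2]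
      norm_num
    have hRγ : D3R S m (S.x γ v) (fun _ => 0) := d3_R_one S m _ (d3_mem S (m + 1) γ v hhtγ)
    have hR := d3_R_mul S m hm (d3_R_mul S m hm hR0 hR1) hRγ
    simp only [add_zero] at hR
    refine ⟨S.x β (t β) * S.x (D.r β) (t (D.r β)) * S.x γ v, ?_, _, hR, hco2 hm2⟩
    have hXγ : S.x γ v ∈ XO D S β := Subgroup.subset_closure ⟨γ, v, Or.inr hγ, rfl⟩
    refine Subgroup.mem_inf.mpr ⟨mul_mem (mul_mem hX0 hX1) hXγ, ?_⟩
    change s (S.x β (t β) * S.x (D.r β) (t (D.r β)) * S.x γ v) =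
      S.x β (t β) * S.x (D.r β) (t (D.r β)) * S.x γ v
    rw [_root_.map_mul, _root_.map_mul, hx, hx, hrr, h γ, hrγ, hsγ]
    have c := S.comm_add β (D.r β) γ (t β) (t (D.r β)) hγ
    have c' : S.x β (t β) * S.x (D.r β) (t (D.r β)) =
        S.x γ ((C.eps β.1 (D.r β).1 : K) * t β * t (D.r β)) *
          (S.x (D.r β) (t (D.r β)) * S.x β (t β)) := by
      rw [← c]
      group
    rw [c']
    have d1 : ∀ a, S.x β (t β) * S.x γ a = S.x γ a * S.x β (t β) := fun a =>
      S.comm β γ _ _ (by omega)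
    have d2 : ∀ a, S.x (D.r β) (t (D.r β)) * S.x γ a = S.x γ a * S.x (D.r β) (t (D.r β)) :=
      fun a => S.comm (D.r β) γ _ _ (by omega)
    have d3 : ∀ a, S.x (D.r β) (t (D.r β)) * S.x β (t β) * S.x γ a =
        S.x γ a * (S.x (D.r β) (t (D.r β)) * S.x β (t β)) := fun a => by
      rw [mul_assoc, d1, ← mul_assoc, d2, mul_assoc]
    have d4 : ∀ a, S.x γ a * (S.x (D.r β) (t (D.r β)) * S.x β (t β)) * S.x γ v =
        S.x γ (a + v) * (S.x (D.r β) (t (D.r β)) * S.x β (t β)) := fun a => by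
      rw [mul_assoc, d3, ← mul_assoc, S.map_add]
    rw [d3, d4]
    congr 2
    push_cast
    linear_combination (-1 : K) * hv

theorem XO_le_U (S : StSys C K H) (β : C.Root) (hβ : C.Pos β) : XO D S β ≤ S.U (ht β.1) := by
  unfold XO
  rw [Subgroup.closure_le]
  rintro g ⟨γ, t, hγ, rfl⟩
  refine d3_mem S _ γ t ?_
  rcases hγ with ⟨l, rfl⟩ | hγ
  · rw [d3_iter_ht]
  · rw [hγ, ht_add, D.r_ht]
    unfold SLC.Pos at hβ
    omega

theorem fixX_le_fixU (S : StSys C K H) (s : H →* H) (β : C.Root) (hβ : C.Pos β) :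
    fixX D S s β ≤ fixU S s := by
  unfold fixX fixU
  refine inf_le_inf_right _ ((XO_le_U S β hβ).trans (d3_mono S ?_))
  unfold SLC.Pos at hβ
  omega

private theorem d3_orb_iff (D : Dg C) (β δ : C.Root) :
    (∃ l, D.r δ = D.r^[l] β) ↔ (∃ l, δ = D.r^[l] β) := by
  constructor
  · rintro ⟨l, hl⟩
    cases l with
    | zero =>
      have hpos : 0 < D.m := by
        rcases D.m_cases with h | h | h <;> omega
      obtain ⟨k, hk⟩ : ∃ k, D.m = k + 1 := ⟨D.m - 1, by omega⟩
      have h1 := D.r_m β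
      rw [hk, Function.iterate_succ_apply'] at h1
      refine ⟨k, D.r_injective ?_⟩
      rw [h1]
      exact hl
    | succ l =>
      rw [Function.iterate_succ_apply'] at hl
      exact ⟨l, D.r_injective hl⟩
  · rintro ⟨l, rfl⟩
    exact ⟨l + 1, by rw [Function.iterate_succ_apply']⟩

/-- All the orbits. -/
private theorem d3_all (h : IsSig D θ S s) (hθ : ∀ t, (⇑θ)^[D.m] t = t)
    (hA : D.NA ∨ ∀ z, θ z = z → ∃ v, v + θ v = z) (m : ℤ) (hm : 1 ≤ m) (k : ℕ) :
    ∀ t : C.Root → K, (∀ β, ht β.1 ≠ m → t β = 0) →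
      (∀ γ, t (D.r γ) = (D.sg γ : K) * θ (t γ)) → {β | t β ≠ 0}.ncard ≤ k →
      ∃ v ∈ Subgroup.closure {g | ∃ β : C.Root, ht β.1 = m ∧ g ∈ fixX D S s β},
        D3R S m v t := by
  classical
  induction k with
  | zero =>
    intro t _ _ hk
    have h1 : {β | t β ≠ 0} = ∅ := by
      rw [← Set.ncard_eq_zero (Set.toFinite _)]
      omega
    have h2 : t = fun _ => 0 := by
      funext β
      by_contra h3
      have : β ∈ {β | t β ≠ 0} := h3
      rw [h1] at this
      exact this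
    refine ⟨1, one_mem _, ?_⟩
    rw [h2]
    exact d3_R_one S m 1 (one_mem _)
  | succ k ih =>
    intro t h0 ht hk
    by_cases hz : ∀ β, t β = 0
    · refine ⟨1, one_mem _, ?_⟩
      have h2 : t = fun _ => 0 := funext hz
      rw [h2]
      exact d3_R_one S m 1 (one_mem _)
    push Not at hz
    obtain ⟨β, hβ⟩ := hz
    have hβm : Pool.Agent.H75.UL.ht β.1 = m := by
      by_contra h1
      exact hβ (h0 β h1)
    obtain ⟨y, hy, t1, hR, h1, h2⟩ := d3_orbit (D := D) h hθ hA m hm β hβm t ht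
    have hd : ∀ γ, t γ - t1 γ = if (∃ l, γ = D.r^[l] β) then 0 else t γ := by
      intro γ
      by_cases h3 : ∃ l, γ = D.r^[l] β
      · rw [if_pos h3, h1 γ h3, sub_self]
      · rw [if_neg h3, h2 γ h3, sub_zero]
    obtain ⟨v, hv, hRv⟩ := ih (fun γ => t γ - t1 γ) (fun γ hγ => by
      rw [hd γ]
      split_ifs
      · rfl
      · exact h0 γ hγ) (fun γ => by
      change t (D.r γ) - t1 (D.r γ) = (D.sg γ : K) * θ (t γ - t1 γ)
      rw [hd, hd]
      by_cases h3 : ∃ l, γ = D.r^[l] β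
      · rw [if_pos h3, if_pos ((d3_orb_iff D β γ).mpr h3), _root_.map_zero, mul_zero]
      · rw [if_neg h3, if_neg (fun h4 => h3 ((d3_orb_iff D β γ).mp h4)), ht γ]) (by
      have h3 : {γ | t γ - t1 γ ≠ 0} ⊂ {γ | t γ ≠ 0} := by
        rw [Set.ssubset_iff_of_subset]
        · refine ⟨β, hβ, ?_⟩
          have h4 : t β - t1 β = 0 := by
            rw [hd, if_pos ⟨0, rfl⟩]
          intro h5
          exact h5 h4
        · intro γ hγ
          have h5 : t γ - t1 γ ≠ 0 := hγ
          rw [hd] at h5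
          split_ifs at h5 with h6
          · exact absurd rfl h5
          · exact h5
      have h4 := Set.ncard_lt_ncard h3 (Set.toFinite _)
      change {γ | t γ - t1 γ ≠ 0}.ncard ≤ k
      omega)
    refine ⟨y * v, mul_mem (Subgroup.subset_closure ⟨β, hβm, hy⟩) hv, ?_⟩
    have h3 := d3_R_mul S m hm hR hRv
    have h4 : (fun β => t1 β + (fun γ => t γ - t1 γ) β) = t := by
      funext γ
      change t1 γ + (t γ - t1 γ) = t γ
      ring
    rwa [h4] at h3

theorem layer (hI : S.Inj) (h : IsSig D θ S s) (hθ : ∀ t, (⇑θ)^[D.m] t = t)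
    (hA : D.NA ∨ ∀ z, θ z = z → ∃ v, v + θ v = z) (m : ℤ) (hm : 1 ≤ m) (u : H)
    (hu : u ∈ S.U m) (hs : s u = u) :
    ∃ v ∈ Subgroup.closure {g | ∃ β : C.Root, ht β.1 = m ∧ g ∈ fixX D S s β},
      ∃ u' ∈ S.U (m + 1), s u' = u' ∧ u = v * u' := by
  obtain ⟨t, h0, hR⟩ := S.exists_layer m hm u hu
  have hRu : D3R S m u t := ⟨h0, hR⟩
  have ht := d3_R_fixed S hI h m hm hRu hs
  obtain ⟨v, hv, hRv⟩ := d3_all h hθ hA m hm _ t h0 ht le_rfl
  have hsv : s v = v := by
    have h1 : Subgroup.closure {g | ∃ β : C.Root, Pool.Agent.H75.UL.ht β.1 = m ∧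
        g ∈ fixX D S s β} ≤ MonoidHom.eqLocus s (MonoidHom.id H) := by
      rw [Subgroup.closure_le]
      rintro g ⟨β, -, hg⟩
      exact (Subgroup.mem_inf.mp hg).2
    exact h1 hv
  refine ⟨v, hv, v⁻¹ * u, d3_R_congr_mem S m hRv hRu, ?_, by group⟩
  rw [_root_.map_mul, _root_.map_inv, hsv, hs]

theorem fixU_eq (hI : S.Inj) (h : IsSig D θ S s) (hθ : ∀ t, (⇑θ)^[D.m] t = t)
    (hA : D.NA ∨ ∀ z, θ z = z → ∃ v, v + θ v = z) :
    fixU S s = Subgroup.closure {g | ∃ β : C.Root, C.Pos β ∧ g ∈ fixX D S s β} := by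
  apply le_antisymm
  · obtain ⟨M, hM1, -, hM3⟩ := S.exists_U_eq_bot
    have key : ∀ k : ℕ, ∀ m : ℤ, 1 ≤ m → M ≤ m + k → ∀ u ∈ S.U m, s u = u →
        u ∈ Subgroup.closure {g | ∃ β : C.Root, C.Pos β ∧ g ∈ fixX D S s β} := by
      intro k
      induction k with
      | zero =>
        intro m hm hMm u hu _
        have h1 : u ∈ S.U M := d3_mono S (by simpa using hMm) hu
        rw [hM3, Subgroup.mem_bot] at h1
        rw [h1]
        exact one_mem _
      | succ k ih =>
        intro m hm hMm u hu hs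
        obtain ⟨v, hv, u', hu', hs', rfl⟩ := layer hI h hθ hA m hm u hu hs
        refine mul_mem ?_ (ih (m + 1) (by omega) (by push_cast at hMm; omega) u' hu' hs')
        refine Subgroup.closure_mono ?_ hv
        rintro g ⟨β, hβ, hg⟩
        refine ⟨β, ?_, hg⟩
        unfold SLC.Pos
        omega
    intro u hu
    obtain ⟨hu1, hu2⟩ := Subgroup.mem_inf.mp hu
    exact key (M - 1).toNat 1 le_rfl (by have := Int.self_le_toNat (M - 1); omega) u hu1 hu2
  · rw [Subgroup.closure_le]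
    rintro g ⟨β, hβ, hg⟩
    exact fixX_le_fixU S s β hβ hg

private theorem d3_iter_neg (D : Dg C) (l : ℕ) (β : C.Root) : D.r^[l] (-β) = -(D.r^[l] β) := by
  induction l with
  | zero => rfl
  | succ l ih => rw [Function.iterate_succ_apply', Function.iterate_succ_apply', ih, D.r_neg]

private theorem d3_neg_neg (β : C.Root) : - -β = β := C.neg_neg_root β

private theorem d3_inO_neg (D : Dg C) (β γ : C.Root) (hγ : D.inO β γ) : D.inO (-β) (-γ) := by
  rcases hγ with ⟨l, rfl⟩ | hγ
  · exact Or.inl ⟨l, (d3_iter_neg D l β).symm⟩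
  · right
    rw [SLC.Root.neg_val, SLC.Root.neg_val, D.r_neg, SLC.Root.neg_val, hγ]
    abel

private theorem d3_XO_neg (D : Dg C) (S : StSys C K H) (β : C.Root) :
    XO D S.neg β = XO D S (-β) := by
  unfold XO
  congr 1
  ext g
  constructor
  · rintro ⟨γ, t, hγ, rfl⟩
    exact ⟨-γ, t, d3_inO_neg D β γ hγ, rfl⟩
  · rintro ⟨γ, t, hγ, rfl⟩
    refine ⟨-γ, t, ?_, ?_⟩
    · have := d3_inO_neg D (-β) γ hγ
      rwa [d3_neg_neg] at this
    · rw [StSys.neg_x, d3_neg_neg]

theorem fixUm_eq (hI : S.neg.Inj) (h : IsSig D θ S s) (hθ : ∀ t, (⇑θ)^[D.m] t = t)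
    (hA : D.NA ∨ ∀ z, θ z = z → ∃ v, v + θ v = z) :
    fixUm S s = Subgroup.closure {g | ∃ β : C.Root, ¬ C.Pos β ∧ g ∈ fixX D S s β} := by
  have h1 := fixU_eq hI h.neg hθ hA
  have h2 : fixU S.neg s = fixUm S s := by
    unfold fixU fixUm
    rw [S.neg_U]
  rw [h2] at h1
  rw [h1]
  congr 1
  ext g
  have h3 : ∀ β, fixX D S.neg s β = fixX D S s (-β) := fun β => by
    unfold fixX
    rw [d3_XO_neg]
  constructor
  · rintro ⟨β, hβ, hg⟩
    refine ⟨-β, ?_, ?_⟩
    · rw [C.not_pos_iff, d3_neg_neg]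
      exact hβ
    · rwa [h3] at hg
  · rintro ⟨β, hβ, hg⟩
    refine ⟨-β, (C.not_pos_iff β).mp hβ, ?_⟩
    rw [h3, d3_neg_neg]
    exact hg

end

end Pool.Agent.H75.UL
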