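import Pool.Agent.H75.UT.D6y
import Pool.Agent.H75.UT.D5
import Pool.Agent.H75.UL.S5
import Pool.Agent.H86.UL.F2

/-!
# Project UT, module D6a

Elements of `E = <U⁺^σ, U⁻^σ>` in `N`.

`exists_nJ`: non-adjacent, `ρ i ≠ i`: `ν = ∏_l s^[l] (nn x α_i 1)` (`prod_nn_mem`), `s^[l] (nn x α_i 1) =
nn x α_{ρ^l i} 1` (`map_nn`, signs `1` on simple roots), it acts by the product of the reflections
(`n_conj_all`, `SLC.Acts_mul`), which is `wd (wl i)`; if `ρ i = i`: `nn x α_i 1` (a product of fixed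
elements). Adjacent (`A i (ρ i) = -1`; then `m = 2` by `ip_r`): `γ = α_i + α_{ρ i}`, `r γ = γ`,
`sg γ = -1` (`sg_adj`), `e ≠ 0`, `θ e = -e`: `x_γ(e)`, `x_{-γ}(e⁻¹)` are fixed by `s`,
`ν = nn x γ e`; `wJ_adj`. `exists_nW`: `Wr_induct`, `Acts_mul`.
-/

set_option autoImplicit false
open Matrix
universe u
namespace Pool.Agent.H75.UL

section
variable {n : ℕ} {C : SLC n} {D : Dg C} {K : Type*} [Field K] {H : Type*} [Group H]
  {θ : K ≃+* K} {S : StSys C K H} {s : H →* H}

private theorem D6a_cs (α β : C.Root) : C.cs α β = 1 ∨ C.cs α β = -1 := by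
  unfold SLC.cs
  split_ifs
  · exact C.eps_eq_one_or _ _
  · exact Or.inl rfl

private theorem D6a_acts (S : StSys C K H) (α : C.Root) (t : K) (ht : t ≠ 0) :
    S.Acts (nn S.x α t) (C.reflE α) := by
  refine ⟨fun β => (C.cs α β : K) * t ^ (- C.ip α.1 β.1), fun β => ?_, fun β u => ?_⟩
  · apply mul_ne_zero
    · rcases D6a_cs (C := C) α β with h | h <;> simp [h]
    · exact zpow_ne_zero _ ht
  · rw [S.n_conj_all α β t u ht]
    rfl

private theorem D6a_nn_mem (S : StSys C K H) (α : C.Root) (t : K) (ht : t ≠ 0) :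
    nn S.x α t ∈ S.N := Subgroup.subset_closure ⟨α, t, ht, rfl⟩

/-- `nn γ e` for a fixed root `γ` of sign `ε` and `θ e = ε e`. -/
private theorem D6a_nn_Eg (h : IsSig D θ S s) (γ : C.Root) (hp : C.Pos γ) (hr : D.r γ = γ) (e : K)
    (he : (D.sg γ : K) * θ e = e) : nn S.x γ e ∈ Eg S s := by
  have hs1 : s (S.x γ e) = S.x γ e := by rw [h, hr, he]
  have he' : (D.sg γ : K) * θ e⁻¹ = e⁻¹ := by
    rcases D.sg_eq γ with h1 | h1
    · rw [h1] at he ⊢
      rw [Int.cast_one, one_mul] at he ⊢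
      rw [map_inv₀, he]
    · rw [h1] at he ⊢
      rw [Int.cast_neg, Int.cast_one, neg_one_mul] at he ⊢
      rw [map_inv₀, neg_inv, he]
  have hs2 : s (S.x (-γ) e⁻¹) = S.x (-γ) e⁻¹ := by rw [h, D.r_neg, D.sg_neg, hr, he']
  have h1 : S.x γ e ∈ Eg S s := by
    refine Subgroup.mem_sup_left ⟨Subgroup.subset_closure ⟨γ, e, ?_, rfl⟩, hs1⟩
    unfold SLC.Pos at hp
    omega
  have h2 : S.x (-γ) e⁻¹ ∈ Eg S s := by
    refine Subgroup.mem_sup_right ⟨Subgroup.subset_closure ⟨-γ, e⁻¹, ?_, rfl⟩, hs2⟩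
    rw [SLC.Root.neg_val, ht_neg]
    unfold SLC.Pos at hp
    omega
  exact Subgroup.mul_mem _ (Subgroup.mul_mem _ h1 h2) h1

private theorem D6a_iter (h : IsSig D θ S s) (i : Fin n) (l : ℕ) :
    s^[l] (nn S.x (C.simple i) 1) = nn S.x (C.simple ((D.ρ ^ l) i)) 1 := by
  induction l with
  | zero => rfl
  | succ l ih =>
    rw [Function.iterate_succ_apply', ih, h.map_nn, D.r_simple, D.sg_simple, map_one, Int.cast_one,
      mul_one, pow_succ', Equiv.Perm.mul_apply]

theorem exists_nJ (h : IsSig D θ S s) (hθ : ∀ t, (⇑θ)^[D.m] t = t)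
    (hA : D.NA ∨ ∃ e, e ≠ 0 ∧ θ e = -e) (i : Fin n) :
    ∃ ν ∈ S.N ⊓ Eg S s, S.Acts ν (C.wd (D.wl i)) := by
  by_cases h1 : C.A i (D.ρ i) = -1
  · -- adjacent
    rcases hA with hA | ⟨e, he, hθe⟩
    · exact absurd h1 (hA i)
    have hip : C.ip (C.simple i).1 (C.simple (D.ρ i)).1 = -1 := by
      rw [SLC.simple_val, SLC.simple_val, SLC.ip_single]
      exact h1
    obtain ⟨γ, hγ⟩ := C.exists_add _ _ hip
    have hne : D.r (C.simple i) ≠ C.simple i := by
      rw [D.r_simple]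
      intro hc
      rw [hc, (C.simple i).2] at hip
      omega
    have hγ' : γ.1 = (C.simple i).1 + (D.r (C.simple i)).1 := by
      rw [D.r_simple]
      exact hγ
    obtain ⟨hr, hsg⟩ := D.sg_adj (C.simple i) γ hne hγ'
    have hp : C.Pos γ := by
      have a1 := C.simple_pos i
      have a2 := C.simple_pos (D.ρ i)
      unfold SLC.Pos at a1 a2 ⊢
      rw [hγ, ht_add]
      omega
    refine ⟨nn S.x γ e, ⟨D6a_nn_mem S γ e he, D6a_nn_Eg h γ hp hr e ?_⟩, ?_⟩
    · rw [hsg, hθe]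
      push_cast
      ring
    · rw [D.wJ_adj i h1 γ hγ]
      exact D6a_acts S γ e he
  · by_cases h2 : D.ρ i = i
    · have hw : D.wl i = [i] := by
        unfold Dg.wl
        rw [if_neg h1, if_pos h2]
      refine ⟨nn S.x (C.simple i) 1, ⟨D6a_nn_mem S _ _ one_ne_zero,
        D6a_nn_Eg h _ (C.simple_pos i) ?_ 1 ?_⟩, ?_⟩
      · rw [D.r_simple, h2]
      · rw [D.sg_simple, map_one]
        simp
      · rw [hw]
        have : C.wd [i] = C.reflE (C.simple i) := by
          unfold SLC.wd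
          simp
        rw [this]
        exact D6a_acts S _ _ one_ne_zero
    · have hw : D.wl i = (List.range D.m).map fun l => (D.ρ ^ l) i := by
        unfold Dg.wl
        rw [if_neg h1, if_neg h2]
      have hne : D.r (C.simple i) ≠ C.simple i := by
        rw [D.r_simple]
        exact fun hc => h2 (C.simple_injective hc)
      have ho : C.ip (C.simple i).1 (D.r (C.simple i)).1 = 0 := by
        rw [D.r_simple, SLC.simple_val, SLC.simple_val, SLC.ip_single]
        exact (C.off i (D.ρ i) (fun hc => h2 hc.symm)).resolve_right h1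
      have hprod := prod_nn_mem h hθ (C.simple i) hne ho 1
      have heq : ((List.range D.m).map fun l => s^[l] (nn S.x (C.simple i) 1)).prod =
          S.nword (D.wl i) := by
        rw [hw]
        unfold StSys.nword
        rw [List.map_map]
        congr 1
        apply List.map_congr_left
        intro l _
        exact D6a_iter h i l
      rw [heq] at hprod
      exact ⟨S.nword (D.wl i), ⟨S.nword_mem _, hprod⟩, S.nword_acts _⟩

theorem exists_nW (h : IsSig D θ S s) (hθ : ∀ t, (⇑θ)^[D.m] t = t)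
    (hA : D.NA ∨ ∃ e, e ≠ 0 ∧ θ e = -e) (w : Equiv.Perm C.Root) (hw : w ∈ C.W)
    (hr : D.rE * w * D.rE⁻¹ = w) : ∃ ν ∈ S.N ⊓ Eg S s, S.Acts ν w := by
  refine D.Wr_induct (fun w => ∃ ν ∈ S.N ⊓ Eg S s, S.Acts ν w) ?_ ?_ w hw hr
  · refine ⟨1, Subgroup.one_mem _, fun _ => 1, fun _ => one_ne_zero, fun β u => ?_⟩
    rw [one_mul, inv_one, mul_one, one_mul, Equiv.Perm.one_apply]
  · rintro w i - ⟨ν, hν, hact⟩
    obtain ⟨ν', hν', hact'⟩ := exists_nJ h hθ hA i
    exact ⟨ν * ν', Subgroup.mul_mem _ hν hν', C.Acts_mul S _ _ _ _ hact hact'⟩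

end

end Pool.Agent.H75.UL
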