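import Pool.Agent.H75.UT.D6y
import Pool.Agent.H75.UL.S5

/-!
# Project UT, module D6b

Elements of `E = <U⁺^σ, U⁻^σ>` in the torus.

`exists_h`: `(∏_l s^[l] (nn x β c)) * (∏_l s^[l] (nn x β (-1)))` is in `Eg` (`prod_nn_mem`), and equal to
`∏_l s^[l] (hh x β c)` as factors for different `l` commute (orthogonal roots); `s^[l] (hh x β c) =
hh x (r^l β) (θ^l c)` (`map_hh`), `h_conj`.
`exists_tor`: it is enough to have for each `i` an element `h_i ∈ T ∩ Eg` acting by
`c ^ ip (B_i) γ` on `x_γ`, where `B_i` is the sum of the simple roots in the orbit of `i`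
(an invariant `v` is an integral combination of the `B_i`, one for each orbit; products of integer
powers). `ρ i = i`: `hh x α_i c = nn x α_i c * nn x α_i (-1)`. `ρ i ≠ i`, `A i (ρ i) ≠ -1`: `exists_h`
for `α_i` and `c` (`θ c = c`). `A i (ρ i) = -1` (then `m = 2`, `ip_r`): `γ = B_i` is a root, `r γ = γ`,
`sg γ = -1` (`sg_adj`), `θ e = -e ≠ 0`: `nn x γ (c e) * nn x γ (-e)` is in `Eg` (`x_γ(c e)`,
`x_{-γ}((c e)⁻¹)` are fixed by `s`), and equals `hh x γ (c e) * (hh x γ e)⁻¹` (`nn_inv`), which acts by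
`c ^ ip γ β`.
-/

set_option autoImplicit false
open Matrix
universe u
namespace Pool.Agent.H75.UL

section
variable {n : ℕ} {C : SLC n} {D : Dg C} {K : Type*} [Field K] {H : Type*} [Group H]
  {θ : K ≃+* K} {S : StSys C K H} {s : H →* H}

private theorem D6b_xcomm (S : StSys C K H) (α β : C.Root) (h0 : C.ip α.1 β.1 = 0) (a b : K) :
    S.x α a * S.x β b = S.x β b * S.x α a ∧ S.x α a * S.x (-β) b = S.x (-β) b * S.x α a ∧
    S.x (-α) a * S.x β b = S.x β b * S.x (-α) a ∧
    S.x (-α) a * S.x (-β) b = S.x (-β) b * S.x (-α) a := by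
  refine ⟨S.comm _ _ _ _ (by omega), S.comm _ _ _ _ ?_, S.comm _ _ _ _ ?_, S.comm _ _ _ _ ?_⟩
  · rw [SLC.Root.neg_val, C.ip_neg_right]; omega
  · rw [SLC.Root.neg_val, C.ip_neg_left]; omega
  · rw [SLC.Root.neg_val, SLC.Root.neg_val, C.ip_neg_neg]; omega

private theorem D6b_nncomm (S : StSys C K H) (α β : C.Root) (h0 : C.ip α.1 β.1 = 0) (a b : K) :
    nn S.x α a * nn S.x β b = nn S.x β b * nn S.x α a := by
  have c1 : ∀ g, Commute g (S.x β b) → Commute g (S.x (-β) b⁻¹) → Commute g (nn S.x β b) := by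
    intro g h1 h2
    unfold nn
    exact (h1.mul_right h2).mul_right h1
  have e1 : Commute (S.x α a) (nn S.x β b) :=
    c1 _ (D6b_xcomm S α β h0 a b).1 (D6b_xcomm S α β h0 a b⁻¹).2.1
  have e2 : Commute (S.x (-α) a⁻¹) (nn S.x β b) :=
    c1 _ (D6b_xcomm S α β h0 a⁻¹ b).2.2.1 (D6b_xcomm S α β h0 a⁻¹ b⁻¹).2.2.2
  have e3 : Commute (nn S.x α a) (nn S.x β b) := by
    change Commute (S.x α a * S.x (-α) a⁻¹ * S.x α a) (nn S.x β b)
    exact (e1.mul_left e2).mul_left e1
  exact e3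

private theorem D6b_hh_mem (S : StSys C K H) (α : C.Root) (t : K) (ht : t ≠ 0) :
    hh S.x α t ∈ S.T := Subgroup.subset_closure ⟨α, t, ht, rfl⟩

private theorem D6b_act_mul (S : StSys C K H) (a b : H) (γ : C.Root) (p q : K)
    (ha : ∀ u, a * S.x γ u * a⁻¹ = S.x γ (p * u)) (hb : ∀ u, b * S.x γ u * b⁻¹ = S.x γ (q * u))
    (u : K) : a * b * S.x γ u * (a * b)⁻¹ = S.x γ (p * q * u) := by
  have e : a * b * S.x γ u * (a * b)⁻¹ = a * (b * S.x γ u * b⁻¹) * a⁻¹ := by group
  rw [e, hb, ha, mul_assoc]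

private theorem D6b_act_inv (S : StSys C K H) (a : H) (γ : C.Root) (p : K) (hp : p ≠ 0)
    (ha : ∀ u, a * S.x γ u * a⁻¹ = S.x γ (p * u)) (u : K) :
    a⁻¹ * S.x γ u * a⁻¹⁻¹ = S.x γ (p⁻¹ * u) := by
  have e := ha (p⁻¹ * u)
  rw [← mul_assoc, mul_inv_cancel₀ hp, one_mul] at e
  rw [← e]
  group

/-- The torus element `∏_l h_{ρ^l β}(θ^l c)` for an orthogonal orbit. -/
theorem exists_h (h : IsSig D θ S s) (hθ : ∀ t, (⇑θ)^[D.m] t = t) (β : C.Root)
    (hβ : D.r β ≠ β) (ho : C.ip β.1 (D.r β).1 = 0) (c : K) (hc : c ≠ 0) :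
    ∃ τ ∈ S.T ⊓ Eg S s, ∀ γ u, τ * S.x γ u * τ⁻¹ =
      S.x γ ((∏ l ∈ Finset.range D.m, ((⇑θ)^[l] c) ^ C.ip (D.r^[l] β).1 γ.1) * u) := by
  have hm1 := prod_nn_mem h hθ β hβ ho c
  have hm2 := prod_nn_mem h hθ β hβ ho (-1)
  have hm := mul_mem hm1 hm2
  have hθc : θ c ≠ 0 := (map_ne_zero θ).mpr hc
  have hθθc : θ (θ c) ≠ 0 := (map_ne_zero θ).mpr hθc
  have n1 : ∀ a, s (nn S.x β a) = nn S.x (D.r β) ((D.sg β : K) * θ a) := fun a => h.map_nn β a
  rcases D.m_cases with h1 | h2 | h3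
  · exfalso
    have := D.r_m β
    rw [h1] at this
    exact hβ this
  · rw [h2] at hm ⊢
    have e1 : ((List.range 2).map fun l => s^[l] (nn S.x β c)).prod *
        ((List.range 2).map fun l => s^[l] (nn S.x β (-1))).prod =
        hh S.x β c * hh S.x (D.r β) (θ c) := by
      have e2 : ∀ a, ((List.range 2).map fun l => s^[l] (nn S.x β a)).prod =
          nn S.x β a * s (nn S.x β a) := fun a => by
        simp [List.range_succ]
      rw [e2, e2, ← h.map_hh β c hc]
      unfold hh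
      rw [_root_.map_mul, n1, n1]
      have c1 := D6b_nncomm S β (D.r β) ho (-1) ((D.sg β : K) * θ c)
      calc nn S.x β c * nn S.x (D.r β) ((D.sg β : K) * θ c) *
            (nn S.x β (-1) * nn S.x (D.r β) ((D.sg β : K) * θ (-1)))
          = nn S.x β c * (nn S.x (D.r β) ((D.sg β : K) * θ c) * nn S.x β (-1)) *
              nn S.x (D.r β) ((D.sg β : K) * θ (-1)) := by group
        _ = _ := by rw [← c1]; group
    rw [e1] at hm
    refine ⟨hh S.x β c * hh S.x (D.r β) (θ c), Subgroup.mem_inf.mpr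
      ⟨mul_mem (D6b_hh_mem S β c hc) (D6b_hh_mem S _ _ hθc), hm⟩, fun γ u => ?_⟩
    rw [Finset.prod_range_succ, Finset.prod_range_one]
    exact D6b_act_mul S _ _ γ _ _ (fun u => S.h_conj β γ c u hc)
      (fun u => S.h_conj (D.r β) γ (θ c) u hθc) u
  · rw [h3] at hm ⊢
    have i12 : C.ip (D.r β).1 (D.r (D.r β)).1 = 0 := by rw [D.r_ip, ho]
    have i02 : C.ip β.1 (D.r (D.r β)).1 = 0 := by
      have := D.ip_orb β hβ 2 (by omega) (by omega)
      rw [ho] at this
      exact this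
    have n2 : ∀ a, s (s (nn S.x β a)) =
        nn S.x (D.r (D.r β)) ((D.sg (D.r β) : K) * θ ((D.sg β : K) * θ a)) := fun a => by
      rw [n1, h.map_nn]
    have e1 : ((List.range 3).map fun l => s^[l] (nn S.x β c)).prod *
        ((List.range 3).map fun l => s^[l] (nn S.x β (-1))).prod =
        hh S.x β c * hh S.x (D.r β) (θ c) * hh S.x (D.r (D.r β)) (θ (θ c)) := by
      have e2 : ∀ a, ((List.range 3).map fun l => s^[l] (nn S.x β a)).prod =
          nn S.x β a * s (nn S.x β a) * s (s (nn S.x β a)) := fun a => by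
        simp [List.range_succ, mul_assoc]
      have e3 : hh S.x (D.r (D.r β)) (θ (θ c)) = s (s (hh S.x β c)) := by
        rw [h.map_hh β c hc, h.map_hh (D.r β) (θ c) hθc]
      rw [e2, e2, e3, ← h.map_hh β c hc]
      unfold hh
      rw [_root_.map_mul, _root_.map_mul, n2, n2, n1, n1]
      generalize (D.sg (D.r β) : K) * θ ((D.sg β : K) * θ c) = p2
      generalize (D.sg β : K) * θ c = p1
      generalize (D.sg (D.r β) : K) * θ ((D.sg β : K) * θ (-1)) = q2
      generalize (D.sg β : K) * θ (-1) = q1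
      have c01 := D6b_nncomm S β (D.r β) ho (-1) p1
      have c02 := D6b_nncomm S β (D.r (D.r β)) i02 (-1) p2
      have c12 := D6b_nncomm S (D.r β) (D.r (D.r β)) i12 q1 p2
      calc nn S.x β c * nn S.x (D.r β) p1 * nn S.x (D.r (D.r β)) p2 *
            (nn S.x β (-1) * nn S.x (D.r β) q1 * nn S.x (D.r (D.r β)) q2)
          = nn S.x β c * nn S.x (D.r β) p1 * (nn S.x (D.r (D.r β)) p2 *
            nn S.x β (-1)) * nn S.x (D.r β) q1 * nn S.x (D.r (D.r β)) q2 := by group
        _ = nn S.x β c * (nn S.x (D.r β) p1 * nn S.x β (-1)) * (nn S.x (D.r (D.r β)) p2 *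
            nn S.x (D.r β) q1) * nn S.x (D.r (D.r β)) q2 := by rw [← c02]; group
        _ = _ := by rw [← c01, ← c12]; group
    rw [e1] at hm
    refine ⟨hh S.x β c * hh S.x (D.r β) (θ c) * hh S.x (D.r (D.r β)) (θ (θ c)),
      Subgroup.mem_inf.mpr ⟨mul_mem (mul_mem (D6b_hh_mem S β c hc) (D6b_hh_mem S _ _ hθc))
        (D6b_hh_mem S _ _ hθθc), hm⟩, fun γ u => ?_⟩
    rw [Finset.prod_range_succ, Finset.prod_range_succ, Finset.prod_range_one]
    exact D6b_act_mul S _ _ γ _ _ (fun u => D6b_act_mul S _ _ γ _ _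
      (fun u => S.h_conj β γ c u hc) (fun u => S.h_conj (D.r β) γ (θ c) u hθc) u)
      (fun u => S.h_conj (D.r (D.r β)) γ (θ (θ c)) u hθθc) u

private theorem D6b_nn_mem (h : IsSig D θ S s) (γ : C.Root) (hγ : C.Pos γ) (hr : D.r γ = γ)
    (a : K) (ha : (D.sg γ : K) * θ a = a) : nn S.x γ a ∈ Eg S s := by
  have hx : S.x γ a ∈ Eg S s := by
    refine (le_sup_left : fixU S s ≤ Eg S s) (Subgroup.mem_inf.mpr ⟨?_, ?_⟩)
    · refine Subgroup.subset_closure ⟨γ, a, ?_, rfl⟩
      unfold SLC.Pos at hγ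
      omega
    · change s (S.x γ a) = S.x γ a
      rw [h γ a, hr, ha]
  have hy : S.x (-γ) a⁻¹ ∈ Eg S s := by
    refine (le_sup_right : fixUm S s ≤ Eg S s) (Subgroup.mem_inf.mpr ⟨?_, ?_⟩)
    · refine Subgroup.subset_closure ⟨-γ, a⁻¹, ?_, rfl⟩
      unfold SLC.Pos at hγ
      rw [SLC.Root.neg_val, ht_neg]
      omega
    · change s (S.x (-γ) a⁻¹) = S.x (-γ) a⁻¹
      rw [h (-γ) a⁻¹, D.r_neg, hr, D.sg_neg, map_inv₀]
      congr 1
      have e1 : ((D.sg γ : ℤ) : K)⁻¹ = (D.sg γ : K) := by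
        rcases D.sg_eq γ with h1 | h1 <;> rw [h1] <;> norm_num
      calc (D.sg γ : K) * (θ a)⁻¹ = ((D.sg γ : K) * θ a)⁻¹ := by rw [mul_inv, e1]
        _ = a⁻¹ := by rw [ha]
  unfold nn
  exact mul_mem (mul_mem hx hy) hx

private def D6b_Q (S : StSys C K H) (s : H →* H) (c : K) (hc : c ≠ 0) :
    AddSubgroup (Fin n → ℤ) where
  carrier := {v | ∃ τ ∈ S.T ⊓ Eg S s, ∀ γ u, τ * S.x γ u * τ⁻¹ = S.x γ (c ^ C.ip v γ.1 * u)}
  zero_mem' := ⟨1, one_mem _, fun γ u => by rw [C.ip_zero_left, zpow_zero, one_mul]; group⟩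
  add_mem' := by
    rintro v w ⟨τ, hτ, h1⟩ ⟨τ', hτ', h2⟩
    refine ⟨τ * τ', mul_mem hτ hτ', fun γ u => ?_⟩
    rw [C.ip_add_left, zpow_add₀ hc]
    exact D6b_act_mul S _ _ γ _ _ (h1 γ) (h2 γ) u
  neg_mem' := by
    rintro v ⟨τ, hτ, h1⟩
    refine ⟨τ⁻¹, inv_mem hτ, fun γ u => ?_⟩
    rw [C.ip_neg_left, _root_.zpow_neg]
    exact D6b_act_inv S _ γ _ (zpow_ne_zero _ hc) (h1 γ) u

private theorem D6b_B (h : IsSig D θ S s) (hθ : ∀ t, (⇑θ)^[D.m] t = t)
    (hA : D.NA ∨ ∃ e, e ≠ 0 ∧ θ e = -e) (c : K) (hc : c ≠ 0) (hθc : θ c = c) (i : Fin n)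
    (B : Fin n → ℤ) (hB1 : ∀ j, (∃ l : ℕ, j = (D.ρ ^ l) i) → B j = 1)
    (hB0 : ∀ j, (¬ ∃ l : ℕ, j = (D.ρ ^ l) i) → B j = 0) : B ∈ D6b_Q S s c hc := by
  have hsi : (C.simple i).1 = Pi.single i 1 := rfl
  have hord : D.ρ ^ D.m = 1 := pow_orderOf_eq_one D.ρ
  have hlt : ∀ l : ℕ, ∃ l', l' < D.m ∧ (D.ρ ^ l) i = (D.ρ ^ l') i := fun l => by
    have hpos : 0 < D.m := by
      rcases D.m_cases with h | h | h <;> omega
    refine ⟨l % D.m, Nat.mod_lt _ hpos, ?_⟩
    rw [Dg.m, pow_mod_orderOf]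
  by_cases hfix : D.ρ i = i
  · have hpow : ∀ l : ℕ, (D.ρ ^ l) i = i := fun l => by
      induction l with
      | zero => rfl
      | succ l ih => rw [pow_succ', Equiv.Perm.mul_apply, ih, hfix]
    have hB : B = (C.simple i).1 := by
      funext j
      by_cases hj : j = i
      · rw [hj, hB1 i ⟨0, rfl⟩, hsi, Pi.single_eq_same]
      · rw [hB0 j, hsi, Pi.single_eq_of_ne hj]
        rintro ⟨l, hl⟩
        rw [hpow l] at hl
        exact hj hl
    have hrs : D.r (C.simple i) = C.simple i := by rw [D.r_simple, hfix]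
    refine ⟨hh S.x (C.simple i) c, Subgroup.mem_inf.mpr ⟨D6b_hh_mem S _ c hc, ?_⟩, fun γ u => ?_⟩
    · unfold hh
      refine mul_mem (D6b_nn_mem h _ (C.simple_pos i) hrs c ?_)
        (D6b_nn_mem h _ (C.simple_pos i) hrs (-1) ?_)
      · rw [D.sg_simple, hθc]; simp
      · rw [D.sg_simple]; simp
    · rw [hB]
      exact S.h_conj _ γ c u hc
  have hrs : D.r (C.simple i) ≠ C.simple i := by
    rw [D.r_simple]
    exact fun h1 => hfix (C.simple_injective h1)
  have hne : i ≠ D.ρ i := fun h1 => hfix h1.symm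
  have hm1 : D.m ≠ 1 := fun h1 => by
    rw [h1, pow_one] at hord
    rw [hord] at hfix
    exact hfix rfl
  have hB2 : D.m = 2 → B = (C.simple i).1 + (D.r (C.simple i)).1 := by
    intro hm2
    rw [D.r_simple]
    funext j
    rw [Pi.add_apply, C.simple_val, C.simple_val]
    by_cases hj : j = i
    · rw [hj, hB1 i ⟨0, rfl⟩, Pi.single_eq_same, Pi.single_eq_of_ne hne, add_zero]
    by_cases hj1 : j = D.ρ i
    · rw [hj1, hB1 (D.ρ i) ⟨1, by rw [pow_one]⟩, Pi.single_eq_same, Pi.single_eq_of_ne hfix,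
        zero_add]
    rw [hB0 j, Pi.single_eq_of_ne hj, Pi.single_eq_of_ne hj1, add_zero]
    rintro ⟨l, hl⟩
    obtain ⟨l', hl', h1⟩ := hlt l
    rw [h1] at hl
    rw [hm2] at hl'
    have h2 : l' = 0 ∨ l' = 1 := by omega
    rcases h2 with rfl | rfl
    · exact hj hl
    · rw [pow_one] at hl
      exact hj1 hl
  have hB3 : D.m = 3 → B = (C.simple i).1 + (D.r (C.simple i)).1 +
      (D.r (D.r (C.simple i))).1 := by
    intro hm3
    rw [D.r_simple, D.r_simple]
    have hrrr : D.ρ (D.ρ (D.ρ i)) = i := by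
      rw [hm3] at hord
      have := congrArg (fun e : Equiv.Perm (Fin n) => e i) hord
      simpa [pow_succ] using this
    have n20 : D.ρ (D.ρ i) ≠ i := fun h1 => by
      rw [h1] at hrrr
      exact hfix hrrr
    have n12 : D.ρ i ≠ D.ρ (D.ρ i) := fun h1 => hne (D.ρ.injective h1)
    funext j
    rw [Pi.add_apply, Pi.add_apply, C.simple_val, C.simple_val, C.simple_val]
    by_cases hj : j = i
    · rw [hj, hB1 i ⟨0, rfl⟩, Pi.single_eq_same, Pi.single_eq_of_ne hne,
        Pi.single_eq_of_ne n20.symm, add_zero, add_zero]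
    by_cases hj1 : j = D.ρ i
    · rw [hj1, hB1 (D.ρ i) ⟨1, by rw [pow_one]⟩, Pi.single_eq_same, Pi.single_eq_of_ne hfix,
        Pi.single_eq_of_ne n12, zero_add, add_zero]
    by_cases hj2 : j = D.ρ (D.ρ i)
    · rw [hj2, hB1 (D.ρ (D.ρ i)) ⟨2, by rw [pow_two]; rfl⟩, Pi.single_eq_same,
        Pi.single_eq_of_ne n20, Pi.single_eq_of_ne n12.symm, zero_add, zero_add]
    rw [hB0 j, Pi.single_eq_of_ne hj, Pi.single_eq_of_ne hj1, Pi.single_eq_of_ne hj2, add_zero,
      add_zero]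
    rintro ⟨l, hl⟩
    obtain ⟨l', hl', h1⟩ := hlt l
    rw [h1] at hl
    rw [hm3] at hl'
    have h2 : l' = 0 ∨ l' = 1 ∨ l' = 2 := by omega
    rcases h2 with rfl | rfl | rfl
    · exact hj hl
    · rw [pow_one] at hl
      exact hj1 hl
    · rw [pow_two] at hl
      exact hj2 hl
  by_cases hadj : C.A i (D.ρ i) = -1
  · -- adjacent
    have hip : C.ip (C.simple i).1 (D.r (C.simple i)).1 = -1 := by
      rw [D.r_simple, C.simple_val, C.simple_val, C.ip_single, hadj]
    have hm2 : D.m = 2 := by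
      rcases D.ip_r (C.simple i) hrs with h1 | h1
      · omega
      · exact h1.1
    obtain ⟨γ, hγ⟩ := C.exists_add (C.simple i) (D.r (C.simple i)) hip
    obtain ⟨hrγ, hsγ⟩ := D.sg_adj (C.simple i) γ hrs hγ
    obtain ⟨e, he, hθe⟩ : ∃ e, e ≠ 0 ∧ θ e = -e := by
      rcases hA with hA | hA
      · exact absurd hadj (hA i)
      · exact hA
    have hpos : C.Pos γ := by
      unfold SLC.Pos
      rw [hγ, ht_add, D.r_simple, C.ht_simple, C.ht_simple]
      norm_num
    have hce : c * e ≠ 0 := mul_ne_zero hc he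
    have e1 : nn S.x γ (c * e) * nn S.x γ (-e) = hh S.x γ (c * e) * (hh S.x γ e)⁻¹ := by
      unfold hh
      rw [← S.nn_inv γ e]
      group
    refine ⟨nn S.x γ (c * e) * nn S.x γ (-e), Subgroup.mem_inf.mpr ⟨?_, ?_⟩, fun δ u => ?_⟩
    · rw [e1]
      exact mul_mem (D6b_hh_mem S _ _ hce) (inv_mem (D6b_hh_mem S _ _ he))
    · refine mul_mem (D6b_nn_mem h γ hpos hrγ _ ?_) (D6b_nn_mem h γ hpos hrγ _ ?_)
      · rw [hsγ, _root_.map_mul, hθc, hθe]
        push_cast
        ring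
      · rw [hsγ, _root_.map_neg, hθe]
        push_cast
        ring
    · rw [e1, hB2 hm2, ← hγ]
      have h1 := D6b_act_mul S (hh S.x γ (c * e)) (hh S.x γ e)⁻¹ δ _ _
        (fun u => S.h_conj γ δ (c * e) u hce)
        (D6b_act_inv S _ δ _ (zpow_ne_zero _ he) (fun u => S.h_conj γ δ e u he)) u
      rw [h1]
      congr 1
      rw [mul_zpow]
      have h2 : e ^ C.ip γ.1 δ.1 ≠ 0 := zpow_ne_zero _ he
      field_simp
  · -- orthogonal
    have hip : C.ip (C.simple i).1 (D.r (C.simple i)).1 = 0 := by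
      rw [D.r_simple, C.simple_val, C.simple_val, C.ip_single]
      rcases C.off i (D.ρ i) hne with h1 | h1
      · exact h1
      · exact absurd h1 hadj
    obtain ⟨τ, hτ, h1⟩ := exists_h h hθ (C.simple i) hrs hip c hc
    refine ⟨τ, hτ, fun γ u => ?_⟩
    rw [h1 γ u]
    have hit : ∀ l, (⇑θ)^[l] c = c := fun l => Function.iterate_fixed hθc l
    simp only [hit]
    congr 2
    rcases D.m_cases with h1 | h2 | h3
    · exact absurd h1 hm1
    · rw [h2, hB2 h2, Finset.prod_range_succ, Finset.prod_range_one, C.ip_add_left, zpow_add₀ hc]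
      rfl
    · rw [h3, hB3 h3, Finset.prod_range_succ, Finset.prod_range_succ, Finset.prod_range_one,
        C.ip_add_left, C.ip_add_left, zpow_add₀ hc, zpow_add₀ hc]
      rfl

theorem exists_tor (h : IsSig D θ S s) (hθ : ∀ t, (⇑θ)^[D.m] t = t)
    (hA : D.NA ∨ ∃ e, e ≠ 0 ∧ θ e = -e) (v : Fin n → ℤ) (hv : SLC.lmap D.ρ v = v) (c : K)
    (hc : c ≠ 0) (hθc : θ c = c) :
    ∃ τ ∈ S.T ⊓ Eg S s, ∀ γ u, τ * S.x γ u * τ⁻¹ = S.x γ (c ^ C.ip v γ.1 * u) := by
  classical
  have key : ∀ k : ℕ, ∀ v : Fin n → ℤ, (∀ i, v (D.ρ i) = v i) →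
      (Finset.univ.filter fun i => v i ≠ 0).card ≤ k → v ∈ D6b_Q S s c hc := by
    intro k
    induction k with
    | zero =>
      intro v _ hk
      have h1 : (Finset.univ.filter fun i => v i ≠ 0) = ∅ := by
        rw [← Finset.card_eq_zero]
        omega
      have h2 : v = 0 := by
        funext i
        by_contra h3
        have : i ∈ (Finset.univ.filter fun i => v i ≠ 0) := by
          rw [Finset.mem_filter]
          exact ⟨Finset.mem_univ _, h3⟩
        rw [h1] at this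
        simp at this
      rw [h2]
      exact zero_mem _
    | succ k ih =>
      intro v hv hk
      by_cases hz : v = 0
      · rw [hz]
        exact zero_mem _
      obtain ⟨i, hi⟩ : ∃ i, v i ≠ 0 := by
        by_contra h1
        push Not at h1
        exact hz (funext h1)
      set B : Fin n → ℤ := fun j => if (∃ l : ℕ, j = (D.ρ ^ l) i) then 1 else 0 with hBdef
      have hBm : B ∈ D6b_Q S s c hc := D6b_B h hθ hA c hc hθc i B
        (fun j hj => by rw [hBdef]; exact if_pos hj) (fun j hj => by rw [hBdef]; exact if_neg hj)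
      have hvo : ∀ l : ℕ, v ((D.ρ ^ l) i) = v i := fun l => by
        induction l with
        | zero => rfl
        | succ l ih => rw [pow_succ', Equiv.Perm.mul_apply, hv, ih]
      have hw : ∀ j, (v - v i • B) j = if (∃ l : ℕ, j = (D.ρ ^ l) i) then 0 else v j := by
        intro j
        rw [Pi.sub_apply, Pi.smul_apply, smul_eq_mul, hBdef]
        change v j - v i * (if (∃ l : ℕ, j = (D.ρ ^ l) i) then 1 else 0) = _
        by_cases hj : ∃ l : ℕ, j = (D.ρ ^ l) i
        · rw [if_pos hj, if_pos hj]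
          obtain ⟨l, rfl⟩ := hj
          rw [hvo l]
          ring
        · rw [if_neg hj, if_neg hj]
          ring
      have horb : ∀ j, (∃ l : ℕ, D.ρ j = (D.ρ ^ l) i) ↔ (∃ l : ℕ, j = (D.ρ ^ l) i) := by
        intro j
        constructor
        · rintro ⟨l, hl⟩
          have hpos : 0 < orderOf D.ρ := orderOf_pos D.ρ
          refine ⟨l + (orderOf D.ρ - 1), D.ρ.injective ?_⟩
          rw [← Equiv.Perm.mul_apply, ← pow_succ']
          have e1 : l + (orderOf D.ρ - 1) + 1 = l + orderOf D.ρ := by omega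
          rw [e1, pow_add, pow_orderOf_eq_one, mul_one]
          exact hl
        · rintro ⟨l, rfl⟩
          exact ⟨l + 1, by rw [pow_succ', Equiv.Perm.mul_apply]⟩
      have h1 : v - v i • B ∈ D6b_Q S s c hc := by
        refine ih _ (fun j => ?_) ?_
        · rw [hw, hw]
          by_cases hj : ∃ l : ℕ, j = (D.ρ ^ l) i
          · rw [if_pos hj, if_pos ((horb j).mpr hj)]
          · rw [if_neg hj, if_neg (fun h2 => hj ((horb j).mp h2)), hv]
        · have h3 : (Finset.univ.filter fun j => (v - v i • B) j ≠ 0) ⊂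
              (Finset.univ.filter fun j => v j ≠ 0) := by
            rw [Finset.ssubset_iff_of_subset]
            · refine ⟨i, ?_, ?_⟩
              · rw [Finset.mem_filter]
                exact ⟨Finset.mem_univ _, hi⟩
              · rw [Finset.mem_filter, hw, if_pos ⟨0, rfl⟩]
                rintro ⟨-, h4⟩
                exact h4 rfl
            · intro j hj
              rw [Finset.mem_filter, hw] at hj
              rw [Finset.mem_filter]
              refine ⟨Finset.mem_univ _, ?_⟩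
              have h4 := hj.2
              split_ifs at h4 with h5
              · exact absurd rfl h4
              · exact h4
          have h4 := Finset.card_lt_card h3
          omega
      have h2 : v = (v - v i • B) + v i • B := by abel
      rw [h2]
      exact add_mem h1 (zsmul_mem hBm _)
  have hv' : ∀ i, v (D.ρ i) = v i := fun i => by
    have h1 := congrArg (fun w : Fin n → ℤ => w (D.ρ i)) hv
    have h2 : SLC.lmap D.ρ v (D.ρ i) = v i := by
      change v (D.ρ.symm (D.ρ i)) = v i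
      rw [Equiv.symm_apply_apply]
    rw [← h2]
    exact h1.symm
  exact key _ v hv' le_rfl

end

end Pool.Agent.H75.UL
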