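import Pool.Agent.H75.UT.D1b
import Pool.Agent.H75.UT.D2

/-!
# Project UT, module D6y

Monomial elements of `E = <U⁺^σ, U⁻^σ>` for an orthogonal orbit.

`r β ≠ β` and `ip β (r β) = 0`, so the orbit is orthogonal (`ip_orb`, `r_ip`). For every root `γ` of
this kind and `t : K` put `y_γ(t) = ∏_{l<m} s^[l] (x_γ(t))`; the factors commute (`iter`, `S.comm`); it is
fixed by `s` (`s^[m] = id`, `iter_m`; `s` permutes the factors cyclically), so in `fixU` or `fixUm`
(`XO`: positive or negative). `(-β)` has the orbit `-r^l β`, and factors `s^[l] x_{±β}`,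
`s^[l'] x_{±β}` commute for `l ≠ l'` (inner product `0`). So
`∏_l s^[l] (nn x β c) = y_β(c) y_{-β}(c⁻¹) y_β(c)`.
-/

set_option autoImplicit false
open Matrix
universe u
namespace Pool.Agent.H75.UL

section
variable {n : ℕ} {C : SLC n} {D : Dg C} {K : Type*} [Field K] {H : Type*} [Group H]
  {θ : K ≃+* K} {S : StSys C K H} {s : H →* H}

private theorem D6y_prod_mul (a b : ℕ → H) (k : ℕ)
    (h : ∀ l l', l < k → l' < k → l ≠ l' → Commute (a l) (b l')) :
    ((List.range k).map fun l => a l * b l).prod =
      ((List.range k).map a).prod * ((List.range k).map b).prod := by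
  induction k with
  | zero => simp
  | succ k ih =>
    have ih' := ih (fun l l' hl hl' hne => h l l' (by omega) (by omega) hne)
    simp only [List.range_succ, List.map_append, List.map_cons, List.map_nil, List.prod_append,
      List.prod_cons, List.prod_nil, mul_one] at ih' ⊢
    rw [ih']
    have hc : Commute (a k) ((List.range k).map b).prod := by
      apply Commute.list_prod_right
      intro y hy
      rw [List.mem_map] at hy
      obtain ⟨l, hl, rfl⟩ := hy
      rw [List.mem_range] at hl
      exact h k l (by omega) (by omega) (by omega)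
    calc ((List.range k).map a).prod * ((List.range k).map b).prod * (a k * b k)
        = ((List.range k).map a).prod * (((List.range k).map b).prod * a k) * b k := by
          simp only [mul_assoc]
      _ = ((List.range k).map a).prod * (a k * ((List.range k).map b).prod) * b k := by
          rw [hc.eq]
      _ = _ := by simp only [mul_assoc]

private theorem D6y_ip_lt (β : C.Root) (hβ : D.r β ≠ β) (ho : C.ip β.1 (D.r β).1 = 0) (l d : ℕ)
    (hd : 0 < d) (hl : l + d < D.m) : C.ip (D.r^[l] β).1 (D.r^[l + d] β).1 = 0 := by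
  induction l with
  | zero =>
    rw [Nat.zero_add] at hl ⊢
    rw [Function.iterate_zero, id, D.ip_orb β hβ d hd hl, ho]
  | succ l ih =>
    have : l + 1 + d = (l + d) + 1 := by omega
    rw [this, Function.iterate_succ', Function.iterate_succ', Function.comp, Function.comp, D.r_ip]
    exact ih (by omega)

private theorem D6y_ip (β : C.Root) (hβ : D.r β ≠ β) (ho : C.ip β.1 (D.r β).1 = 0) (l l' : ℕ)
    (hl : l < D.m) (hl' : l' < D.m) (hne : l ≠ l') :
    C.ip (D.r^[l] β).1 (D.r^[l'] β).1 = 0 := by
  rcases lt_or_gt_of_ne hne with h | h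
  · obtain ⟨d, rfl⟩ := Nat.exists_eq_add_of_lt h
    exact D6y_ip_lt β hβ ho l (d + 1) (by omega) hl'
  · obtain ⟨d, rfl⟩ := Nat.exists_eq_add_of_lt h
    rw [C.ip_comm]
    exact D6y_ip_lt β hβ ho l' (d + 1) (by omega) hl

private theorem D6y_iter_neg (β : C.Root) (l : ℕ) : D.r^[l] (-β) = -(D.r^[l] β) := by
  induction l with
  | zero => rfl
  | succ l ih =>
    rw [Function.iterate_succ', Function.comp, ih, D.r_neg]
    rfl

private theorem D6y_comm (h : IsSig D θ S s) (β : C.Root) (hβ : D.r β ≠ β)
    (ho : C.ip β.1 (D.r β).1 = 0) (γ δ : C.Root) (hγ : γ = β ∨ γ = -β) (hδ : δ = β ∨ δ = -β)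
    (t u : K) (l l' : ℕ) (hl : l < D.m) (hl' : l' < D.m) (hne : l ≠ l') :
    Commute (s^[l] (S.x γ t)) (s^[l'] (S.x δ u)) := by
  rw [h.iter, h.iter]
  apply S.comm
  apply le_of_eq
  have h0 := D6y_ip β hβ ho l l' hl hl' hne
  symm
  rcases hγ with rfl | rfl <;> rcases hδ with rfl | rfl <;>
    simp only [D6y_iter_neg, SLC.Root.neg_val, C.ip_neg_left, C.ip_neg_right, h0, neg_zero]

private theorem D6y_iter_pos (β : C.Root) (l : ℕ) : ht (D.r^[l] β).1 = ht β.1 := by
  induction l with
  | zero => rfl
  | succ l ih => rw [Function.iterate_succ', Function.comp, D.r_ht, ih]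

theorem prod_x_mem (h : IsSig D θ S s) (hθ : ∀ t, (⇑θ)^[D.m] t = t) (β : C.Root)
    (hβ : D.r β ≠ β) (ho : C.ip β.1 (D.r β).1 = 0) (c : K) :
    ((List.range D.m).map fun l => s^[l] (S.x β c)).prod ∈ Eg S s := by
  have hfix : s ((List.range D.m).map fun l => s^[l] (S.x β c)).prod =
      ((List.range D.m).map fun l => s^[l] (S.x β c)).prod := by
    have hm := h.iter_m hθ (S.x β c) (Subgroup.subset_closure ⟨β, c, rfl⟩)
    have hcm : ∀ l, 0 < l → l < D.m → Commute (S.x β c) (s^[l] (S.x β c)) := by
      intro l h0 hl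
      exact D6y_comm h β hβ ho β β (Or.inl rfl) (Or.inl rfl) c c 0 l (by omega) hl (by omega)
    rw [map_list_prod, List.map_map]
    have e1 : (⇑s ∘ fun l => s^[l] (S.x β c)) = fun l => s^[l + 1] (S.x β c) := by
      funext l
      rw [Function.iterate_succ']
      rfl
    rw [e1]
    obtain ⟨k, hk⟩ : ∃ k, D.m = k + 1 := by
      rcases D.m_cases with h1 | h1 | h1
      · exact ⟨0, h1⟩
      · exact ⟨1, h1⟩
      · exact ⟨2, h1⟩
    rw [hk] at hm hcm ⊢
    have hc : Commute (S.x β c) ((List.range k).map fun l => s^[l + 1] (S.x β c)).prod := by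
      apply Commute.list_prod_right
      intro y hy
      rw [List.mem_map] at hy
      obtain ⟨l, hl, rfl⟩ := hy
      rw [List.mem_range] at hl
      exact hcm (l + 1) (by omega) (by omega)
    have e2 : ((List.range (k + 1)).map fun l => s^[l + 1] (S.x β c)).prod =
        ((List.range k).map fun l => s^[l + 1] (S.x β c)).prod * S.x β c := by
      rw [List.range_succ, List.map_append, List.prod_append, List.map_cons, List.map_nil,
        List.prod_cons, List.prod_nil, mul_one, hm]
    have e3 : ((List.range (k + 1)).map fun l => s^[l] (S.x β c)).prod =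
        S.x β c * ((List.range k).map fun l => s^[l + 1] (S.x β c)).prod := by
      rw [List.range_succ_eq_map, List.map_cons, List.prod_cons, List.map_map]
      rfl
    rw [e2, e3]
    exact hc.eq.symm
  have hmem : ((List.range D.m).map fun l => s^[l] (S.x β c)).prod ∈ S.U 1 ∨
      ((List.range D.m).map fun l => s^[l] (S.x β c)).prod ∈ S.Um := by
    rcases lt_or_gt_of_ne (C.ht_ne_zero β) with h1 | h1
    · right
      apply Subgroup.list_prod_mem
      intro y hy
      rw [List.mem_map] at hy
      obtain ⟨l, _, rfl⟩ := hy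
      rw [h.iter]
      exact Subgroup.subset_closure ⟨_, _, by rw [D6y_iter_pos]; exact h1, rfl⟩
    · left
      apply Subgroup.list_prod_mem
      intro y hy
      rw [List.mem_map] at hy
      obtain ⟨l, _, rfl⟩ := hy
      rw [h.iter]
      exact Subgroup.subset_closure ⟨_, _, by rw [D6y_iter_pos]; omega, rfl⟩
  rcases hmem with h1 | h1
  · exact Subgroup.mem_sup_left ⟨h1, hfix⟩
  · exact Subgroup.mem_sup_right ⟨h1, hfix⟩

theorem prod_nn_mem (h : IsSig D θ S s) (hθ : ∀ t, (⇑θ)^[D.m] t = t) (β : C.Root)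
    (hβ : D.r β ≠ β) (ho : C.ip β.1 (D.r β).1 = 0) (c : K) :
    ((List.range D.m).map fun l => s^[l] (nn S.x β c)).prod ∈ Eg S s := by
  have e : (fun l => s^[l] (nn S.x β c)) =
      fun l => (s^[l] (S.x β c) * s^[l] (S.x (-β) c⁻¹)) * s^[l] (S.x β c) := by
    funext l
    unfold nn
    rw [iterate_map_mul, iterate_map_mul]
  rw [e, D6y_prod_mul (fun l => s^[l] (S.x β c) * s^[l] (S.x (-β) c⁻¹)) (fun l => s^[l] (S.x β c)),
    D6y_prod_mul (fun l => s^[l] (S.x β c)) (fun l => s^[l] (S.x (-β) c⁻¹))]
  · apply mul_mem (mul_mem _ _)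
    · exact prod_x_mem h hθ β hβ ho c
    · exact prod_x_mem h hθ β hβ ho c
    · apply prod_x_mem h hθ (-β)
      · rw [D.r_neg]
        intro h1
        apply hβ
        have := congrArg (fun x : C.Root => -x) h1
        simpa [C.neg_neg_root] using this
      · rw [D.r_neg, SLC.Root.neg_val, SLC.Root.neg_val, C.ip_neg_neg, ho]
  · intro l l' hl hl' hne
    exact D6y_comm h β hβ ho β (-β) (Or.inl rfl) (Or.inr rfl) _ _ l l' hl hl' hne
  · intro l l' hl hl' hne
    exact (D6y_comm h β hβ ho β β (Or.inl rfl) (Or.inl rfl) _ _ l l' hl hl' hne).mul_left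
      (D6y_comm h β hβ ho (-β) β (Or.inr rfl) (Or.inl rfl) _ _ l l' hl hl' hne)

end

end Pool.Agent.H75.UL
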