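import Pool.Agent.H75.UT.D3
import Pool.Agent.H75.UL.T3
import Pool.Agent.H75.UL.S9

/-!
# Project UT, module D7i

Injectivity of the ordered product of root elements.

`adS_inj` is `lp_unique`. `adS_neg_inj`: the matrix `ω` with `ω (inl i) (inl i) = -1`,
`ω (inr (-β)) (inr β) = 1`, other entries `0`, satisfies `ω² = 1`, `ω E_α = E_{-α} ω`,
`ω F_α = F_{-α} ω`, so `ω * lp t * ω⁻¹ = (adS.neg).lp t`. `inj_of_map`: apply `p` (`S9_lp`; for `neg`
the same proof with `-β`).
-/

set_option autoImplicit false
open Matrix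
universe u
namespace Pool.Agent.H75.UL

section
variable {n : ℕ} {C : SLC n} (D : Dg C) {F : Type*} [Field F]

/-- The matrix of the opposition involution. -/
private def D7i_om (C : SLC n) : Matrix C.Idx C.Idx ℤ := fun a b =>
  match a, b with
  | Sum.inl i, Sum.inl j => if i = j then -1 else 0
  | Sum.inr γ, Sum.inr β => if γ = -β then 1 else 0
  | Sum.inl _, Sum.inr _ => 0
  | Sum.inr _, Sum.inl _ => 0

private theorem D7i_neg_neg (β : C.Root) : - -β = β := by
  apply SLC.Root.ext
  rw [SLC.Root.neg_val, SLC.Root.neg_val, neg_neg]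

private theorem D7i_om_mul (M : Matrix C.Idx C.Idx ℤ) (a b : C.Idx) :
    (D7i_om C * M) a b = match a with
      | Sum.inl i => - M (Sum.inl i) b
      | Sum.inr γ => M (Sum.inr (-γ)) b := by
  rw [Matrix.mul_apply, Fintype.sum_sum_type]
  rcases a with i | γ
  · simp only [D7i_om, zero_mul, Finset.sum_const_zero, add_zero]
    rw [Finset.sum_eq_single i]
    · simp
    · intro j _ hj
      rw [if_neg (Ne.symm hj), zero_mul]
    · intro h
      exact absurd (Finset.mem_univ i) h
  · simp only [D7i_om, zero_mul, Finset.sum_const_zero, zero_add]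
    rw [Finset.sum_eq_single (-γ)]
    · rw [D7i_neg_neg, if_pos rfl, one_mul]
    · intro j _ hj
      rw [if_neg, zero_mul]
      intro h
      apply hj
      rw [h, D7i_neg_neg]
    · intro h
      exact absurd (Finset.mem_univ _) h

private theorem D7i_mul_om (M : Matrix C.Idx C.Idx ℤ) (a b : C.Idx) :
    (M * D7i_om C) a b = match b with
      | Sum.inl i => - M a (Sum.inl i)
      | Sum.inr γ => M a (Sum.inr (-γ)) := by
  rw [Matrix.mul_apply, Fintype.sum_sum_type]
  rcases b with i | γ
  · simp only [D7i_om, mul_zero, Finset.sum_const_zero, add_zero]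
    rw [Finset.sum_eq_single i]
    · simp
    · intro j _ hj
      rw [if_neg hj, mul_zero]
    · intro h
      exact absurd (Finset.mem_univ i) h
  · simp only [D7i_om, mul_zero, Finset.sum_const_zero, zero_add]
    rw [Finset.sum_eq_single (-γ)]
    · rw [if_pos rfl, mul_one]
    · intro j _ hj
      rw [if_neg hj, mul_zero]
    · intro h
      exact absurd (Finset.mem_univ _) h

private theorem D7i_om_sq : D7i_om C * D7i_om C = 1 := by
  ext a b
  rw [D7i_om_mul]
  rcases a with i | γ <;> rcases b with j | β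
  · simp only [D7i_om, Matrix.one_apply, Sum.inl.injEq]
    split_ifs <;> rfl
  · simp [D7i_om]
  · simp [D7i_om]
  · simp only [D7i_om, Matrix.one_apply, Sum.inr.injEq]
    have h : -γ = -β ↔ γ = β := by
      constructor
      · intro h
        rw [← D7i_neg_neg γ, h, D7i_neg_neg]
      · intro h
        rw [h]
    simp only [h]

private theorem D7i_eps (v w : Fin n → ℤ) : C.eps (-v) (-w) = C.eps v w := by
  unfold SLC.eps SLC.hf
  rw [Matrix.mulVec_neg, neg_dotProduct, dotProduct_neg, neg_neg]

private theorem D7i_om_E (α : C.Root) : D7i_om C * C.E α = C.E (-α) * D7i_om C := by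
  ext a b
  rw [D7i_om_mul, D7i_mul_om]
  rcases a with i | γ <;> rcases b with j | β
  · simp [SLC.E]
  · simp only [SLC.E, SLC.Root.neg_val, Pi.neg_apply, neg_neg]
    have h : -β.1 = α.1 ↔ β.1 = -α.1 := neg_eq_iff_eq_neg
    simp only [h]
    split_ifs <;> simp
  · simp only [SLC.E, SLC.Root.neg_val]
    have h : -γ.1 = α.1 ↔ γ.1 = -α.1 := neg_eq_iff_eq_neg
    simp only [h]
    split_ifs
    · rw [SLC.ip_neg_right]
      ring
    · simp
  · simp only [SLC.E, SLC.Root.neg_val, D7i_eps]
    have h : -γ.1 = α.1 + β.1 ↔ γ.1 = -α.1 + -β.1 := by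
      rw [neg_eq_iff_eq_neg, neg_add]
    simp only [h]

private theorem D7i_om_F (α : C.Root) : D7i_om C * C.F α = C.F (-α) * D7i_om C := by
  ext a b
  rw [D7i_om_mul, D7i_mul_om]
  rcases a with i | γ <;> rcases b with j | β
  · simp [SLC.F]
  · simp [SLC.F]
  · simp [SLC.F]
  · simp only [SLC.F, SLC.Root.neg_val, neg_neg]
    have h : -γ.1 = α.1 ↔ γ.1 = -α.1 := neg_eq_iff_eq_neg
    have h' : -β.1 = α.1 ↔ β.1 = -α.1 := neg_eq_iff_eq_neg
    simp only [h, h']

private def D7i_O (C : SLC n) (F : Type*) [Field F] : Matrix C.Idx C.Idx F :=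
  (D7i_om C).map (Int.castRingHom F)

private theorem D7i_O_sq : D7i_O C F * D7i_O C F = 1 := by
  unfold D7i_O
  rw [← Matrix.map_mul, D7i_om_sq, Matrix.map_one _ (map_zero _) (map_one _)]

private theorem D7i_O_X (α : C.Root) (t : F) :
    D7i_O C F * C.X F α t = C.X F (-α) t * D7i_O C F := by
  have h1 : D7i_O C F * (C.E α).map (Int.cast : ℤ → F) =
      (C.E (-α)).map (Int.cast : ℤ → F) * D7i_O C F := by
    have := congrArg (fun M : Matrix C.Idx C.Idx ℤ => M.map (Int.castRingHom F)) (D7i_om_E α)
    simp only [Matrix.map_mul] at this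
    exact this
  have h2 : D7i_O C F * (C.F α).map (Int.cast : ℤ → F) =
      (C.F (-α)).map (Int.cast : ℤ → F) * D7i_O C F := by
    have := congrArg (fun M : Matrix C.Idx C.Idx ℤ => M.map (Int.castRingHom F)) (D7i_om_F α)
    simp only [Matrix.map_mul] at this
    exact this
  unfold SLC.X
  simp only [add_mul, mul_add, one_mul, mul_one, smul_mul_assoc, mul_smul_comm, h1, h2]

private noncomputable def D7i_g (C : SLC n) (F : Type*) [Field F] : GL C.Idx F where
  val := D7i_O C F
  inv := D7i_O C F
  val_inv := D7i_O_sq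
  inv_val := D7i_O_sq

private theorem D7i_g_xg (α : C.Root) (t : F) :
    D7i_g C F * C.xg F α t = C.xg F (-α) t * D7i_g C F := by
  apply Units.ext
  exact D7i_O_X α t

private theorem D7i_g_lp (l : List C.Root) (t : C.Root → F) :
    D7i_g C F * (C.adS F).lp l t = (C.adS F).neg.lp l t * D7i_g C F := by
  unfold StSys.lp
  induction l with
  | nil => simp
  | cons β l ih =>
    rw [List.map_cons, List.map_cons, List.prod_cons, List.prod_cons, ← mul_assoc]
    have h : D7i_g C F * (C.adS F).x β (t β) = (C.adS F).neg.x β (t β) * D7i_g C F := by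
      rw [StSys.neg_x]
      exact D7i_g_xg β (t β)
    rw [h, mul_assoc, ih, mul_assoc]

theorem adS_inj : (C.adS F).Inj := fun t t' h β hβ => C.lp_unique t t' h β hβ

theorem adS_neg_inj : (C.adS F).neg.Inj := by
  intro t t' h β hβ
  apply C.lp_unique t t' _ β hβ
  apply mul_left_cancel (a := D7i_g C F)
  rw [D7i_g_lp, D7i_g_lp, h]

private theorem D7i_neg_lp {H : Type*} [Group H] (S : StSys C F H) (p : H →* GL C.Idx F)
    (hp : ∀ β t, p (S.x β t) = C.xg F β t) (l : List C.Root) (t : C.Root → F) :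
    p (S.neg.lp l t) = (C.adS F).neg.lp l t := by
  unfold StSys.lp
  rw [map_list_prod, List.map_map]
  congr 1
  apply List.map_congr_left
  intro β _
  show p (S.neg.x β (t β)) = _
  rw [StSys.neg_x, StSys.neg_x, hp]
  rfl

theorem inj_of_map {H : Type*} [Group H] (S : StSys C F H) (p : H →* GL C.Idx F)
    (hp : ∀ β t, p (S.x β t) = C.xg F β t) : S.Inj ∧ S.neg.Inj := by
  constructor
  · intro t t' h β hβ
    apply adS_inj t t' _ β hβ
    rw [← C.S9_lp S p hp, ← C.S9_lp S p hp, h]
  · intro t t' h β hβ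
    apply adS_neg_inj t t' _ β hβ
    rw [← D7i_neg_lp S p hp, ← D7i_neg_lp S p hp, h]

end

end Pool.Agent.H75.UL
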